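import Pool.Agent.Helper553_RK.Poly

open Finset

namespace H553RK

variable {m Q : ℕ}

/-- perturbed integer vectors are generic -/
lemma Gen_pert {r : Fin (m + 3) → Fin (Q + 1) → ℤ} {d : Fin (m + 3) → Fin (Q + 1) → ℝ}
    (h1 : ∀ i a b, a < b → d i b < d i a) (h2 : ∀ i a b, a < b → d i a - d i b < 1) :
    Gen (fun i a => (r i a : ℝ) + d i a) := by
  have key : ∀ i a b, a < b → ∀ n : ℤ, ((r i a : ℝ) + d i a) - ((r i b : ℝ) + d i b) ≠ n := by
    intro i a b hab n h
    have e1 : ((n - r i a + r i b : ℤ) : ℝ) = d i a - d i b := by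
      push_cast
      linarith
    have h3 := h1 i a b hab
    have h4 := h2 i a b hab
    have h5 : (0 : ℝ) < ((n - r i a + r i b : ℤ) : ℝ) := by rw [e1]; linarith
    have h6 : ((n - r i a + r i b : ℤ) : ℝ) < 1 := by rw [e1]; linarith
    have h7 : 0 < n - r i a + r i b := by exact_mod_cast h5
    have h8 : n - r i a + r i b < 1 := by exact_mod_cast h6
    omega
  intro i a b hab n h
  rcases lt_or_gt_of_ne hab with h' | h'
  · exact key i a b h' n h
  · exact key i b a h' (-n) (by push_cast; linarith)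

/-- closed states -/
def cl (m : ℕ) (z : Fin (Q + 1) → ℝ) : St m Q := fun _ a => z a

lemma const_of_chain {I : Fm m Q} (h : ∀ i, I i ⊆ I (i + 1)) : ∀ i, I i = I 0 := by
  have h1 : ∀ i : Fin (m + 3), I 0 ⊆ I i := by
    intro i
    induction i using Fin.induction with
    | zero => exact Finset.Subset.refl _
    | succ i ih =>
      have h2 := h i.castSucc
      rw [Fin.coeSucc_eq_succ] at h2
      exact ih.trans h2
  have h2 : ∀ i : Fin (m + 3), I i ⊆ I (Fin.last (m + 2)) := by
    intro i
    induction i using Fin.reverseInduction with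
    | last => exact Finset.Subset.refl _
    | cast i ih =>
      have h2 := h i.castSucc
      rw [Fin.coeSucc_eq_succ] at h2
      exact h2.trans ih
  intro i
  apply Finset.Subset.antisymm _ (h1 i)
  have h3 := h (Fin.last (m + 2))
  rw [Fin.last_add_one] at h3
  exact (h2 i).trans h3

lemma H_closed_zero {I : Fm m Q} (z : Fin (Q + 1) → ℝ) (h : ¬ ∀ i, I i = I 0) :
    H I (cl m z) = 0 := by
  have h1 : ¬ ∀ i, I i ⊆ I (i + 1) := fun h2 => h (const_of_chain h2)
  push Not at h1
  obtain ⟨i, hi⟩ := h1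
  rw [Finset.not_subset] at hi
  obtain ⟨a, ha, ha'⟩ := hi
  unfold H
  apply mul_eq_zero_of_left
  apply Finset.prod_eq_zero (mem_univ i)
  unfold edge
  apply Finset.prod_eq_zero ha
  apply Finset.prod_eq_zero (mem_compl.mpr ha')
  simp [cl]

lemma H_closed {I : Fm m Q} (z : Fin (Q + 1) → ℝ) (hz : Gen (cl m z)) {M : Finset (Fin (Q + 1))}
    (h : ∀ i, I i = M) : H I (cl m z) = ∏ a ∈ M, z a := by
  unfold H
  rw [← Finset.prod_mul_distrib]
  have h1 : ∀ i, edge I (cl m z) i * vert I (cl m z) i = ∏ a ∈ M, z a ^ ex i := by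
    intro i
    unfold edge vert
    rw [h i, h (i + 1)]
    simp only [cl]
    have : ∏ a ∈ M, ∏ l ∈ Mᶜ, (z a - z l) ≠ 0 := by
      rw [Finset.prod_ne_zero_iff]
      intro a ha
      rw [Finset.prod_ne_zero_iff]
      intro l hl h0
      have hne : a ≠ l := by
        rintro rfl
        exact (mem_compl.mp hl) ha
      exact hz i a l hne 0 (by simp only [cl]; push_cast; exact h0)
    field_simp
  rw [Finset.prod_congr rfl (fun i _ => h1 i)]
  rw [Finset.prod_eq_single (Fin.last (m + 2))]
  · simp [ex]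
  · intro i _ hi
    simp [ex, hi]
  · simp

lemma csz_dvd {s : ℕ} (h : (m + 3) ∣ s) (i : Fin (m + 3)) : csz m s i = s / (m + 3) := by
  unfold csz
  rw [Nat.mod_eq_zero_of_dvd h]
  simp

lemma dnY_closed (M : Finset (Fin (Q + 1))) (z : Fin (Q + 1) → ℝ) :
    dnY (fun _ => M) (cl m z) = cl m (dn M z) := rfl

lemma fpi_closed (s : ℕ) (π : List ℕ) (z : Fin (Q + 1) → ℝ) (hz : Gen (cl m z)) :
    fpi (s :: π) (cl m z) = if (m + 3) ∣ s then
      ∑ M ∈ powersetCard (s / (m + 3)) univ, (∏ a ∈ M, z a) * fpi π (cl m (dn M z)) else 0 := by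
  simp only [fpi, HS]
  split_ifs with h
  · have h1 : ∑ M ∈ powersetCard (s / (m + 3)) univ, (∏ a ∈ M, z a) * fpi π (cl m (dn M z)) =
        ∑ I ∈ (powersetCard (s / (m + 3)) (univ : Finset (Fin (Q + 1)))).image
          (fun M => (fun _ => M : Fm m Q)), H I (cl m z) * fpi π (dnY I (cl m z)) := by
      rw [Finset.sum_image]
      · refine Finset.sum_congr rfl (fun M _ => ?_)
        rw [H_closed z hz (M := M) (fun _ => rfl), dnY_closed]
      · intro M _ M' _ hMM
        exact congrFun hMM 0
    rw [h1]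
    symm
    apply Finset.sum_subset
    · intro I hI
      rw [mem_image] at hI
      obtain ⟨M, hM, rfl⟩ := hI
      rw [mem_powersetCard] at hM
      rw [mem_famc]
      intro i
      rw [csz_dvd h i]
      exact hM.2
    · intro I hI hI'
      rw [H_closed_zero z, zero_mul]
      intro hc
      apply hI'
      rw [mem_image]
      refine ⟨I 0, ?_, ?_⟩
      · rw [mem_powersetCard]
        rw [mem_famc] at hI
        rw [hI 0, csz_dvd h]
        exact ⟨Finset.subset_univ _, rfl⟩
      · funext i
        exact (hc i).symm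
  · apply Finset.sum_eq_zero
    intro I hI
    rw [H_closed_zero z, zero_mul]
    intro hc
    rw [mem_famc] at hI
    have h1 := hI 0
    have h2 := hI (Fin.last (m + 2))
    rw [hc (Fin.last (m + 2)), h1] at h2
    unfold csz at h2
    have hlt := Nat.mod_lt s (show 0 < m + 3 by omega)
    have h0 : ¬ s % (m + 3) = 0 := fun h0 => h (Nat.dvd_of_mod_eq_zero h0)
    rw [if_pos, if_neg] at h2
    · omega
    · simp only [Fin.val_last]
      omega
    · simp only [Fin.val_zero]
      omega

/-- generic perturbation of an integral closed state -/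
noncomputable def zt (n : Fin (Q + 1) → ℤ) (t : ℝ) : Fin (Q + 1) → ℝ :=
  fun a => (n a : ℝ) + t * ((Q : ℝ) - a.val)

lemma Gen_zt (n : Fin (Q + 1) → ℤ) {t : ℝ} (h0 : 0 < t) (h1 : t * (Q + 1) < 1) :
    Gen (cl m (zt n t)) := by
  apply Gen_pert (r := fun _ => n) (d := fun _ a => t * ((Q : ℝ) - a.val))
  · intro i a b hab
    have : (a.val : ℝ) < b.val := by exact_mod_cast hab
    nlinarith
  · intro i a b hab
    have h2 : (b.val : ℝ) ≤ Q := by exact_mod_cast (by omega : b.val ≤ Q)
    have h3 : (0 : ℝ) ≤ a.val := by positivity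
    nlinarith

lemma zt_tendsto (n : Fin (Q + 1) → ℤ) :
    Filter.Tendsto (fun t => cl m (zt n t)) (nhdsWithin 0 (Set.Ioi 0))
      (nhds (cl m (fun a => (n a : ℝ)))) := by
  apply tendsto_nhdsWithin_of_tendsto_nhds
  have : cl m (fun a => (n a : ℝ)) = cl m (zt n 0) := by
    unfold cl zt
    simp
  rw [this]
  apply Continuous.tendsto
  apply continuous_pi
  intro i
  apply continuous_pi
  intro a
  unfold cl zt
  fun_prop

lemma small_ev (Q : ℕ) :
    ∀ᶠ t : ℝ in nhdsWithin (0 : ℝ) (Set.Ioi 0), 0 < t ∧ t * ((Q : ℝ) + 1) < 1 := by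
  have h1 : ∀ᶠ t : ℝ in nhdsWithin (0 : ℝ) (Set.Ioi 0), t < 1 / ((Q : ℝ) + 1) := by
    apply mem_nhdsWithin_of_mem_nhds
    exact Iio_mem_nhds (by positivity)
  filter_upwards [h1, self_mem_nhdsWithin] with t ht ht'
  refine ⟨ht', ?_⟩
  rwa [lt_div_iff₀ (by positivity)] at ht

theorem pf_closed_step (s : ℕ) (π : List ℕ) (n : Fin (Q + 1) → ℤ) :
    pf (s :: π) (cl m (fun a => (n a : ℝ))) = if (m + 3) ∣ s then
      ∑ M ∈ powersetCard (s / (m + 3)) univ, (∏ a ∈ M, (n a : ℝ)) *
        pf π (cl m (dn M (fun a => (n a : ℝ)))) else 0 := by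
  have h1 : Filter.Tendsto (fun t => pf (s :: π) (cl m (zt n t))) (nhdsWithin 0 (Set.Ioi 0))
      (nhds (pf (s :: π) (cl m (fun a => (n a : ℝ))))) :=
    ((pf_cont (s :: π)).tendsto _).comp (zt_tendsto n)
  have h2 : Filter.Tendsto (fun t => if (m + 3) ∣ s then
      ∑ M ∈ powersetCard (s / (m + 3)) univ, (∏ a ∈ M, zt n t a) *
        pf π (cl m (dn M (zt n t))) else 0) (nhdsWithin 0 (Set.Ioi 0))
      (nhds (if (m + 3) ∣ s then
      ∑ M ∈ powersetCard (s / (m + 3)) univ, (∏ a ∈ M, (n a : ℝ)) *
        pf π (cl m (dn M (fun a => (n a : ℝ)))) else 0)) := by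
    split_ifs with h
    · apply tendsto_nhdsWithin_of_tendsto_nhds
      have e : ∑ M ∈ powersetCard (s / (m + 3)) univ, (∏ a ∈ M, (n a : ℝ)) *
        pf π (cl m (dn M (fun a => (n a : ℝ)))) =
        ∑ M ∈ powersetCard (s / (m + 3)) univ, (∏ a ∈ M, zt n 0 a) *
        pf π (cl m (dn M (zt n 0))) := by
        unfold zt
        simp
      rw [e]
      apply Continuous.tendsto
      apply continuous_finset_sum
      intro M _
      apply Continuous.mul
      · apply continuous_finset_prod
        intro a _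
        unfold zt
        fun_prop
      · apply (pf_cont π).comp
        apply continuous_pi
        intro i
        apply continuous_pi
        intro a
        unfold cl dn zt
        split_ifs <;> fun_prop
    · exact tendsto_const_nhds
  refine tendsto_nhds_unique h1 (h2.congr' ?_)
  filter_upwards [small_ev Q] with t ht
  have hg := Gen_zt (m := m) n ht.1 ht.2
  rw [pf_gen _ hg, fpi_closed s π _ hg]
  split_ifs with h
  · refine Finset.sum_congr rfl (fun M _ => ?_)
    have hg2 : Gen (cl m (dn M (zt n t))) := Gen_dnY hg (fun _ => M)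
    rw [pf_gen _ hg2]
  · rfl

lemma pf_nil (y : St m Q) : pf [] y = 1 := by
  have : PP m Q [] = 1 := by
    rw [← sub_eq_zero]
    apply gen_funext
    intro y hy
    rw [map_sub, ← PP_spec [] hy]
    simp [fpi]
  unfold pf
  rw [this]
  simp

lemma dn_int (M : Finset (Fin (Q + 1))) (n : Fin (Q + 1) → ℤ) :
    dn M (fun a => (n a : ℝ)) = fun a => ((n a - if a ∈ M then 1 else 0 : ℤ) : ℝ) := by
  funext a
  unfold dn
  split_ifs <;> simp

/-- value at the zero state -/
theorem pf_zero (π : List ℕ) :
    pf π (cl m (fun _ : Fin (Q + 1) => (0 : ℝ))) = if π.sum = 0 then 1 else 0 := by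
  induction π with
  | nil => rw [pf_nil]; simp
  | cons s π ih =>
    have h := pf_closed_step (m := m) (Q := Q) s π (fun _ => 0)
    simp only [Int.cast_zero] at h
    rw [h]
    rcases Nat.eq_zero_or_pos s with hs | hs
    · subst hs
      rw [if_pos (dvd_zero _)]
      simp only [Nat.zero_div, powersetCard_zero, sum_singleton, prod_empty, one_mul]
      have : dn (∅ : Finset (Fin (Q + 1))) (fun _ => (0 : ℝ)) = fun _ => 0 := by
        funext a
        simp [dn]
      rw [this, ih]
      simp
    · have e : ¬ (s :: π).sum = 0 := by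
        simp only [List.sum_cons]
        omega
      rw [if_neg e]
      split_ifs with hd
      · apply Finset.sum_eq_zero
        intro M hM
        rw [mem_powersetCard] at hM
        have : 0 < s / (m + 3) := Nat.div_pos (Nat.le_of_dvd hs hd) (by omega)
        have hne : M.Nonempty := by
          rw [← Finset.card_pos]
          omega
        obtain ⟨a, ha⟩ := hne
        rw [Finset.prod_eq_zero ha rfl, zero_mul]
      · rfl

end H553RK
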