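import Pool.Agent.Helper553_RK.Closed

open Finset

namespace H553RK

variable {m Q : ℕ}

/-- indicator of a finite set as a finitely supported function -/
noncomputable def ind {σ : Type*} (M : Finset σ) : σ →₀ ℕ := ∑ a ∈ M, Finsupp.single a 1

lemma ind_apply {σ : Type*} [DecidableEq σ] (M : Finset σ) (a : σ) :
    ind M a = if a ∈ M then 1 else 0 := by
  unfold ind
  rw [Finsupp.finsetSum_apply]
  simp [Finsupp.single_apply]

lemma prod_X_eq {σ R : Type*} [CommSemiring R] (M : Finset σ) :
    (∏ a ∈ M, (MvPolynomial.X a : MvPolynomial σ R)) = MvPolynomial.monomial (ind M) 1 := by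
  unfold ind
  rw [MvPolynomial.monomial_sum_one]
  rfl

lemma coeff_esymm_mul {σ R : Type*} [Fintype σ] [CommSemiring R] (c : ℕ) (z : σ →₀ ℕ)
    (E : MvPolynomial σ R) : MvPolynomial.coeff z (MvPolynomial.esymm σ R c * E) =
      ∑ M ∈ powersetCard c univ, if ind M ≤ z then MvPolynomial.coeff (z - ind M) E else 0 := by
  unfold MvPolynomial.esymm
  rw [Finset.sum_mul, MvPolynomial.coeff_sum]
  refine Finset.sum_congr rfl (fun M _ => ?_)
  rw [prod_X_eq, MvPolynomial.coeff_monomial_mul']
  simp

theorem pf_closed (ν : List ℕ) : ∀ (z : Fin (Q + 1) →₀ ℕ), ν.sum = ∑ a, z a →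
    pf (ν.map (fun c => (m + 3) * c)) (cl m (fun a => (z a : ℝ))) =
      (∏ a, ((z a).factorial : ℝ)) *
        MvPolynomial.coeff z ((ν.map (fun c => MvPolynomial.esymm (Fin (Q + 1)) ℝ c)).prod) := by
  induction ν with
  | nil =>
    intro z hz
    simp only [List.sum_nil] at hz
    have h1 : ∀ a, z a = 0 := by
      intro a
      have := (Finset.sum_eq_zero_iff.mp hz.symm) a (mem_univ a)
      exact this
    have h2 : z = 0 := by
      ext a
      simpa using h1 a
    subst h2
    simp [pf_nil]
  | cons c ν ih =>
    intro z hz
    simp only [List.map_cons, List.prod_cons, List.sum_cons] at hz ⊢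
    rw [coeff_esymm_mul]
    have h := pf_closed_step (m := m) (Q := Q) ((m + 3) * c) (ν.map (fun c => (m + 3) * c))
      (fun a => (z a : ℤ))
    simp only [Int.cast_natCast] at h
    rw [h, if_pos (dvd_mul_right _ _), Nat.mul_div_cancel_left _ (by omega), Finset.mul_sum]
    refine Finset.sum_congr rfl (fun M hM => ?_)
    rw [mem_powersetCard] at hM
    by_cases hle : ind M ≤ z
    · rw [if_pos hle]
      have hle' : ∀ a ∈ M, 1 ≤ z a := by
        intro a ha
        have := hle a
        rwa [ind_apply, if_pos ha] at this
      have e1 : dn M (fun a => (z a : ℝ)) = fun a => (((z - ind M) a : ℕ) : ℝ) := by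
        funext a
        rw [Finsupp.tsub_apply, ind_apply]
        unfold dn
        split_ifs with ha
        · rw [Nat.cast_sub (hle' a ha)]
          simp
        · simp
      rw [e1, ih (z - ind M)]
      · rw [← mul_assoc]
        congr 1
        have e2 : ∀ a, (((z a).factorial : ℕ) : ℝ) =
            (if a ∈ M then (z a : ℝ) else 1) * ((((z - ind M) a).factorial : ℕ) : ℝ) := by
          intro a
          rw [Finsupp.tsub_apply, ind_apply]
          split_ifs with ha
          · have h1 := hle' a ha
            obtain ⟨b, hb⟩ : ∃ b, z a = b + 1 := ⟨z a - 1, by omega⟩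
            rw [hb, Nat.factorial_succ]
            push_cast
            simp
          · simp
        rw [Finset.prod_congr rfl (fun a _ => e2 a), Finset.prod_mul_distrib,
          Finset.prod_ite_mem, Finset.univ_inter]
      · have e3 : ∑ a, (z - ind M) a + ∑ a, ind M a = ∑ a, z a := by
          rw [← Finset.sum_add_distrib]
          refine Finset.sum_congr rfl (fun a _ => ?_)
          rw [Finsupp.tsub_apply]
          exact Nat.sub_add_cancel (hle a)
        have e4 : ∑ a, ind M a = c := by
          rw [Finset.sum_congr rfl (fun a _ => ind_apply M a)]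
          simp [hM.2]
        omega
    · rw [if_neg hle, mul_zero]
      have : ∃ a ∈ M, z a = 0 := by
        by_contra hcon
        push Not at hcon
        apply hle
        intro a
        rw [ind_apply]
        split_ifs with ha
        · exact Nat.one_le_iff_ne_zero.mpr (hcon a ha)
        · exact Nat.zero_le _
      obtain ⟨a, ha, h0⟩ := this
      rw [Finset.prod_eq_zero ha (by simp [h0]), zero_mul]

end H553RK
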