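import Pool.Agent.Helper553_RK.Family

open Finset Polynomial

namespace H553RK

variable {m Q : ℕ}

lemma zero_sub_one : (0 : Fin (m + 3)) - 1 = Fin.last (m + 2) := by
  apply Fin.ext
  rw [Fin.coe_sub_one]
  simp

/-- boundary condition needed for the letter `0` -/
def Bd (j : Fin (m + 3)) (y : St m Q) : Prop := j = 0 → y (j - 1) (Fin.last Q) = 0

lemma H_zero {I : Fm m Q} {y : St m Q} (h : Fin.last Q ∈ I (Fin.last (m + 2)))
    (hy : y (Fin.last (m + 2)) (Fin.last Q) = 0) : H I y = 0 := by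
  unfold H
  apply mul_eq_zero_of_right
  apply Finset.prod_eq_zero (mem_univ (Fin.last (m + 2)))
  unfold vert
  rw [Finset.prod_eq_zero h]
  · simp
  · rw [hy]
    simp [ex]

lemma not_sub {I : Fm m Q} {j : Fin (m + 3)} (h : ¬ I (j - 1) ⊆ WW Q j) :
    j = 0 ∧ Fin.last Q ∈ I (Fin.last (m + 2)) := by
  unfold WW at h
  split_ifs at h with hj
  · refine ⟨hj, ?_⟩
    subst hj
    rw [zero_sub_one] at h
    by_contra h2
    apply h
    intro a ha
    simp only [mem_erase, mem_univ, and_true]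
    rintro rfl
    exact h2 ha
  · exact absurd (Finset.subset_univ _) h

lemma Bd_upY {j : Fin (m + 3)} {y : St m Q} (hb : Bd j y) (k : Fin (Q + 1)) :
    Bd j (upY j k y) := by
  intro hj
  rw [upY_ne _ _ (sub_one_ne j)]
  exact hb hj

/-- the commutator term -/
noncomputable def DD (j : Fin (m + 3)) (y : St m Q) (I : Fm m Q) (k : Fin (Q + 1)) : ℝ :=
  aw (WW Q j) (y (j - 1)) (y j) k * H I (upY j k y) -
    H I y * aw (WW Q j) (dnY I y (j - 1)) (dnY I y j) k

lemma DD_zero {j : Fin (m + 3)} {y : St m Q} {I : Fm m Q} (hb : Bd j y)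
    (h : ¬ I (j - 1) ⊆ WW Q j) (k : Fin (Q + 1)) : DD j y I k = 0 := by
  obtain ⟨hj, h2⟩ := not_sub h
  unfold DD
  have h3 := hb hj
  have h4 := Bd_upY hb k hj
  rw [hj, zero_sub_one] at h3
  rw [hj, zero_sub_one, ← hj] at h4
  rw [H_zero h2 h3, H_zero h2 h4]
  ring

lemma DD_off {j : Fin (m + 3)} {y : St m Q} {I : Fm m Q} (hb : Bd j y) {k : Fin (Q + 1)}
    (hk : k ∉ I j) : DD j y I k = 0 := by
  by_cases h : I (j - 1) ⊆ WW Q j
  · unfold DD
    rw [H_split j I y, H_split j I (upY j k y)]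
    have h1 : Rest j I (upY j k y) = Rest j I y :=
      Rest_congr j (fun _ _ => rfl) (fun i hi => upY_ne k y hi)
    rw [h1, upY_ne k y (sub_one_ne j), upY_ne k y (add_one_ne j), upY_same]
    have h2 := off_id (ex j) (L := I (j + 1)) (y (j - 1)) (y j) (y (j + 1)) hk h
    have h3 : dnY I y (j - 1) = dn (I (j - 1)) (y (j - 1)) := rfl
    have h4 : dnY I y j = dn (I j) (y j) := rfl
    rw [h3, h4]
    linear_combination Rest j I y * h2
  · exact DD_zero hb h k

/-- distinctness needed in class `j` -/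
def Ds (j : Fin (m + 3)) (y : St m Q) : Prop := ∀ a b, a ≠ b → y j a ≠ y j b ∧ y j a ≠ y j b - 1

lemma DD_diag {j : Fin (m + 3)} {y : St m Q} (hb : Bd j y) (hd : Ds j y) {s : ℕ} (hsQ : s ≤ Q)
    (hc : 1 ≤ csz m s j) {I : Fm m Q}
    (hI : I ∈ famc Q (Function.update (csz m s) j (csz m s j - 1))) :
    sg j * ∑ k ∈ (I j)ᶜ, DD j y (ins j k I) k =
      if 1 ≤ s ∧ (s - 1) % (m + 3) = j.val then H I y else 0 := by
  rw [mem_famc] at hI
  have c1 : #(I j) = csz m s j - 1 := by
    rw [hI j]; simp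
  have c2 : #(I (j - 1)) = csz m s (j - 1) := by
    rw [hI]; simp [Function.update_of_ne (sub_one_ne j)]
  have c3 : #(I (j + 1)) = csz m s (j + 1) := by
    rw [hI]; simp
  by_cases h : I (j - 1) ⊆ WW Q j
  · have h1 : ∀ k ∈ (I j)ᶜ, DD j y (ins j k I) k = Rest j I y *
      (aw (WW Q j) (y (j - 1)) (y j) k *
        phi (ex j) (I (j - 1)) (insert k (I j)) (I (j + 1)) (y (j - 1)) (up (y j) k) (y (j + 1)) -
      phi (ex j) (I (j - 1)) (insert k (I j)) (I (j + 1)) (y (j - 1)) (y j) (y (j + 1)) *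
        aw (WW Q j) (dn (I (j - 1)) (y (j - 1))) (dn (insert k (I j)) (y j)) k) := by
      intro k hk
      unfold DD
      rw [H_split j (ins j k I) y, H_split j (ins j k I) (upY j k y)]
      have h1 : Rest j (ins j k I) (upY j k y) = Rest j I y :=
        Rest_congr j (fun i hi => ins_ne k I hi) (fun i hi => upY_ne k y hi)
      have h2 : Rest j (ins j k I) y = Rest j I y :=
        Rest_congr j (fun i hi => ins_ne k I hi) (fun i hi => rfl)
      rw [h1, h2, upY_ne k y (sub_one_ne j), upY_ne k y (add_one_ne j), upY_same,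
        ins_ne k I (sub_one_ne j), ins_ne k I (add_one_ne j), ins_same]
      have h3 : dnY (ins j k I) y (j - 1) = dn (I (j - 1)) (y (j - 1)) := by
        unfold dnY
        rw [ins_ne k I (sub_one_ne j)]
      have h4 : dnY (ins j k I) y j = dn (insert k (I j)) (y j) := by
        unfold dnY
        rw [ins_same]
      rw [h3, h4]
      ring
    rw [Finset.sum_congr rfl h1, ← Finset.mul_sum]
    have hnum := num (Q := Q) j s hsQ hc
    have hcW : #(WW Q j \ I (j - 1)) = (if j = 0 then Q else Q + 1) - csz m s (j - 1) := by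
      rw [Finset.card_sdiff_of_subset h, card_WW, c2]
    have hcL : #(I (j + 1))ᶜ = Q + 1 - csz m s (j + 1) := by
      rw [Finset.card_compl, c3, Fintype.card_fin]
    have hcI : #(I j)ᶜ = Q + 1 - (csz m s j - 1) := by
      rw [Finset.card_compl, c1, Fintype.card_fin]
    rw [diag_sum (ex j) (I := I j) (L := I (j + 1)) (y (j - 1)) (y j) (y (j + 1)) hd h
      (by rw [hcW, hcL, hcI]; exact hnum.1)]
    rw [hcW, hcL, hcI, c1, c2, H_split j I y]
    by_cases hcond : 1 ≤ s ∧ (s - 1) % (m + 3) = j.val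
    · rw [if_pos hcond, if_pos (hnum.2.mpr hcond)]
      have h5 := (csz_pred j s hcond.1 hcond.2).2.2
      linear_combination (Rest j I y * phi (ex j) (I (j - 1)) (I j) (I (j + 1)) (y (j - 1)) (y j)
        (y (j + 1))) * h5
    · rw [if_neg hcond, if_neg (fun h => hcond (hnum.2.mp h))]
      ring
  · have h1 : ∀ k ∈ (I j)ᶜ, DD j y (ins j k I) k = 0 := by
      intro k _
      apply DD_zero hb
      rw [ins_ne k I (sub_one_ne j)]
      exact h
    rw [Finset.sum_eq_zero h1]
    obtain ⟨hj, h2⟩ := not_sub h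
    have h3 := hb hj
    rw [hj, zero_sub_one] at h3
    rw [H_zero h2 h3]
    simp

theorem AA_HS {j : Fin (m + 3)} {y : St m Q} (hb : Bd j y) (hd : Ds j y) {s : ℕ} (hsQ : s ≤ Q)
    (f : St m Q → ℝ) :
    AA j (HS s f) y = HS s (AA j f) y +
      if 1 ≤ s ∧ (s - 1) % (m + 3) = j.val then HS (s - 1) f y else 0 := by
  have e1 : AA j (HS s f) y - HS s (AA j f) y =
      sg j * ∑ I ∈ famc Q (csz m s), ∑ k, DD j y I k * f (upY j k (dnY I y)) := by
    unfold AA HS
    simp only [Finset.mul_sum]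
    rw [Finset.sum_comm, ← Finset.sum_sub_distrib]
    refine Finset.sum_congr rfl (fun I _ => ?_)
    rw [← Finset.sum_sub_distrib]
    refine Finset.sum_congr rfl (fun k _ => ?_)
    rw [dnY_upY]
    unfold DD
    ring
  have e2 : ∀ I : Fm m Q, ∑ k, DD j y I k * f (upY j k (dnY I y)) =
      ∑ k ∈ I j, DD j y I k * f (upY j k (dnY I y)) := by
    intro I
    symm
    apply Finset.sum_subset (Finset.subset_univ _)
    intro k _ hk
    rw [DD_off hb hk, zero_mul]
  rw [← sub_eq_iff_eq_add', e1]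
  rw [Finset.sum_congr rfl (fun I _ => e2 I)]
  by_cases hc : 1 ≤ csz m s j
  · rw [reidx j (csz m s) hc]
    rw [Finset.mul_sum]
    have e3 : ∀ I ∈ famc Q (Function.update (csz m s) j (csz m s j - 1)),
        sg j * ∑ k ∈ (I j)ᶜ, DD j y (ins j k I) k * f (upY j k (dnY (ins j k I) y)) =
        (if 1 ≤ s ∧ (s - 1) % (m + 3) = j.val then H I y else 0) * f (dnY I y) := by
      intro I hI
      rw [← DD_diag hb hd hsQ hc hI, mul_assoc, Finset.sum_mul]
      congr 1
      refine Finset.sum_congr rfl (fun k hk => ?_)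
      rw [upY_dnY_ins j y (by simpa using hk)]
    rw [Finset.sum_congr rfl e3]
    split_ifs with h
    · rw [(csz_pred j s h.1 h.2).2.1]
      rfl
    · simp
  · have hc0 : csz m s j = 0 := by omega
    have h1 : ¬ (1 ≤ s ∧ (s - 1) % (m + 3) = j.val) := fun h => hc (csz_pred j s h.1 h.2).1
    rw [if_neg h1]
    rw [Finset.sum_eq_zero, mul_zero]
    intro I hI
    rw [mem_famc] at hI
    have : I j = ∅ := by
      rw [← Finset.card_eq_zero, hI j, hc0]
    rw [this, Finset.sum_empty]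

end H553RK
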