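import Pool.Agent.Helper553_RK.OneClass

open Finset Polynomial

namespace H553RK

/-- states: `m + 3` classes, `Q + 1` columns -/
abbrev St (m Q : ℕ) := Fin (m + 3) → Fin (Q + 1) → ℝ

/-- families of lowered sets -/
abbrev Fm (m Q : ℕ) := Fin (m + 3) → Finset (Fin (Q + 1))

variable {m Q : ℕ}

/-- sizes of the sets lowered by a strip of size `s` -/
def csz (m s : ℕ) (i : Fin (m + 3)) : ℕ := s / (m + 3) + if i.val < s % (m + 3) then 1 else 0

/-- the families with given sizes -/
def famc (Q : ℕ) (c : Fin (m + 3) → ℕ) : Finset (Fm m Q) :=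
  Fintype.piFinset fun i => powersetCard (c i) univ

/-- exponent attached to a class -/
def ex (i : Fin (m + 3)) : ℕ := if i = Fin.last (m + 2) then 1 else 0

noncomputable def edge (I : Fm m Q) (y : St m Q) (i : Fin (m + 3)) : ℝ :=
  ∏ a ∈ I i, ∏ l ∈ (I (i + 1))ᶜ, (y i a - y (i + 1) l)

noncomputable def vert (I : Fm m Q) (y : St m Q) (i : Fin (m + 3)) : ℝ :=
  (∏ a ∈ I i, y i a ^ ex i) / ∏ a ∈ I i, ∏ l ∈ (I i)ᶜ, (y i a - y i l)

noncomputable def H (I : Fm m Q) (y : St m Q) : ℝ := (∏ i, edge I y i) * ∏ i, vert I y i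

noncomputable def upY (j : Fin (m + 3)) (k : Fin (Q + 1)) (y : St m Q) : St m Q :=
  Function.update y j (up (y j) k)

noncomputable def dnY (I : Fm m Q) (y : St m Q) : St m Q := fun i => dn (I i) (y i)

/-- the operator of removing a strip of size `s` -/
noncomputable def HS (s : ℕ) (f : St m Q → ℝ) (y : St m Q) : ℝ :=
  ∑ I ∈ famc Q (csz m s), H I y * f (dnY I y)

/-- the set of interpolation nodes used by letter `j` -/
def WW (Q : ℕ) (j : Fin (m + 3)) : Finset (Fin (Q + 1)) :=
  if j = 0 then univ.erase (Fin.last Q) else univ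

noncomputable def sg (j : Fin (m + 3)) : ℝ := if j = 0 then 1 else -1

/-- the letter operator on functions of the state -/
noncomputable def AA (j : Fin (m + 3)) (f : St m Q → ℝ) (y : St m Q) : ℝ :=
  sg j * ∑ k, aw (WW Q j) (y (j - 1)) (y j) k * f (upY j k y)

noncomputable def Rest (j : Fin (m + 3)) (I : Fm m Q) (y : St m Q) : ℝ :=
  (∏ i ∈ (univ.erase j).erase (j - 1), edge I y i) * ∏ i ∈ univ.erase j, vert I y i

lemma sub_one_ne (j : Fin (m + 3)) : j - 1 ≠ j := by
  intro h
  have : (1 : Fin (m + 3)) = 0 := by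
    exact sub_eq_self.mp h
  simp at this

lemma add_one_ne (j : Fin (m + 3)) : j + 1 ≠ j := by
  intro h
  simp at h

lemma H_split (j : Fin (m + 3)) (I : Fm m Q) (y : St m Q) :
    H I y = Rest j I y *
      phi (ex j) (I (j - 1)) (I j) (I (j + 1)) (y (j - 1)) (y j) (y (j + 1)) := by
  unfold H Rest
  rw [← Finset.mul_prod_erase univ (edge I y) (mem_univ j),
    ← Finset.mul_prod_erase (univ.erase j) (edge I y) (a := j - 1)
      (mem_erase.mpr ⟨sub_one_ne j, mem_univ _⟩),
    ← Finset.mul_prod_erase univ (vert I y) (mem_univ j)]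
  unfold phi edge vert
  rw [show j - 1 + 1 = j by abel]
  ring

lemma Rest_congr (j : Fin (m + 3)) {I I' : Fm m Q} {y y' : St m Q}
    (h1 : ∀ i, i ≠ j → I i = I' i) (h2 : ∀ i, i ≠ j → y i = y' i) :
    Rest j I y = Rest j I' y' := by
  unfold Rest
  congr 1
  · refine Finset.prod_congr rfl (fun i hi => ?_)
    simp only [mem_erase, mem_univ, and_true] at hi
    have h3 : i + 1 ≠ j := fun h => hi.1 (eq_sub_of_add_eq h)
    unfold edge
    rw [h1 i hi.2, h1 _ h3, h2 i hi.2, h2 _ h3]
  · refine Finset.prod_congr rfl (fun i hi => ?_)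
    simp only [mem_erase, mem_univ, and_true] at hi
    unfold vert
    rw [h1 i hi, h2 i hi]

lemma upY_same (j : Fin (m + 3)) (k : Fin (Q + 1)) (y : St m Q) : upY j k y j = up (y j) k := by
  simp [upY]

lemma upY_ne {j i : Fin (m + 3)} (k : Fin (Q + 1)) (y : St m Q) (h : i ≠ j) :
    upY j k y i = y i := by
  simp [upY, h]

lemma dnY_upY (j : Fin (m + 3)) (k : Fin (Q + 1)) (I : Fm m Q) (y : St m Q) :
    dnY I (upY j k y) = upY j k (dnY I y) := by
  funext i a
  by_cases hi : i = j
  · subst hi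
    simp only [dnY, upY_same]
    by_cases ha : a = k
    · subst ha
      rw [up_same]
      unfold dn
      rw [up_same]
      split_ifs <;> ring
    · rw [up_ne _ ha]
      unfold dn
      rw [up_ne _ ha]
  · rw [upY_ne k _ hi]
    unfold dnY
    rw [upY_ne k _ hi]

/-- insert `k` in the `j`-th set -/
def ins (j : Fin (m + 3)) (k : Fin (Q + 1)) (I : Fm m Q) : Fm m Q :=
  Function.update I j (insert k (I j))

lemma ins_same (j : Fin (m + 3)) (k : Fin (Q + 1)) (I : Fm m Q) :
    ins j k I j = insert k (I j) := by simp [ins]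

lemma ins_ne {j i : Fin (m + 3)} (k : Fin (Q + 1)) (I : Fm m Q) (h : i ≠ j) :
    ins j k I i = I i := by simp [ins, h]

lemma upY_dnY_ins (j : Fin (m + 3)) {k : Fin (Q + 1)} {I : Fm m Q} (y : St m Q) (hk : k ∉ I j) :
    upY j k (dnY (ins j k I) y) = dnY I y := by
  funext i a
  by_cases hi : i = j
  · subst hi
    rw [upY_same]
    by_cases ha : a = k
    · subst ha
      rw [up_same]
      unfold dnY
      rw [ins_same, dn_mem _ (by simp), dn_nmem _ hk]
      ring
    · rw [up_ne _ ha]
      unfold dnY dn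
      rw [ins_same]
      simp [ha]
  · rw [upY_ne k _ hi]
    unfold dnY
    rw [ins_ne k _ hi]

lemma mem_famc {c : Fin (m + 3) → ℕ} {I : Fm m Q} : I ∈ famc Q c ↔ ∀ i, #(I i) = c i := by
  simp [famc, Fintype.mem_piFinset, mem_powersetCard]

lemma reidx (j : Fin (m + 3)) (c : Fin (m + 3) → ℕ) (hc : 1 ≤ c j)
    (F : Fm m Q → Fin (Q + 1) → ℝ) :
    ∑ I ∈ famc Q c, ∑ k ∈ I j, F I k =
      ∑ I ∈ famc Q (Function.update c j (c j - 1)), ∑ k ∈ (I j)ᶜ, F (ins j k I) k := by
  rw [Finset.sum_sigma', Finset.sum_sigma']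
  refine Finset.sum_bij' (fun x _ => ⟨Function.update x.1 j ((x.1 j).erase x.2), x.2⟩)
    (fun x _ => ⟨ins j x.2 x.1, x.2⟩) ?_ ?_ ?_ ?_ ?_
  · rintro ⟨I, k⟩ h
    simp only [mem_sigma, mem_famc] at h ⊢
    refine ⟨fun i => ?_, by simp⟩
    by_cases hi : i = j
    · subst hi
      simp [Finset.card_erase_of_mem h.2, h.1 i]
    · simp [hi, h.1 i]
  · rintro ⟨I, k⟩ h
    simp only [mem_sigma, mem_famc, mem_compl] at h ⊢
    refine ⟨fun i => ?_, by simp [ins_same]⟩
    by_cases hi : i = j
    · subst hi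
      rw [ins_same, Finset.card_insert_of_notMem h.2]
      have := h.1 i
      simp only [Function.update_self] at this
      omega
    · rw [ins_ne _ _ hi]
      simpa [hi] using h.1 i
  · rintro ⟨I, k⟩ h
    simp only [mem_sigma, mem_famc] at h
    simp only [Sigma.mk.injEq, heq_eq_eq, and_true]
    funext i
    by_cases hi : i = j
    · subst hi
      rw [ins_same]
      simp [Finset.insert_erase h.2]
    · rw [ins_ne _ _ hi]
      simp [hi]
  · rintro ⟨I, k⟩ h
    simp only [mem_sigma, mem_famc, mem_compl] at h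
    simp only [Sigma.mk.injEq, heq_eq_eq, and_true]
    funext i
    by_cases hi : i = j
    · subst hi
      simp [ins_same, Finset.erase_insert h.2]
    · simp [hi, ins_ne _ _ hi]
  · rintro ⟨I, k⟩ h
    simp only [mem_sigma, mem_famc] at h
    have : ins j k (Function.update I j ((I j).erase k)) = I := by
      funext i
      by_cases hi : i = j
      · subst hi
        rw [ins_same]
        simp [Finset.insert_erase h.2]
      · rw [ins_ne _ _ hi]
        simp [hi]
    simp only [this]

lemma mod_cases (m s : ℕ) (hs : 1 ≤ s) :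
    (1 ≤ s % (m + 3) ∧ (s - 1) % (m + 3) = s % (m + 3) - 1 ∧ (s - 1) / (m + 3) = s / (m + 3)) ∨
    (s % (m + 3) = 0 ∧ 1 ≤ s / (m + 3) ∧ (s - 1) % (m + 3) = m + 2 ∧
      (s - 1) / (m + 3) = s / (m + 3) - 1) := by
  have hlt := Nat.mod_lt s (show 0 < m + 3 by omega)
  have hdm := Nat.div_add_mod s (m + 3)
  rcases Nat.eq_zero_or_pos (s % (m + 3)) with h | h
  · right
    have h1 : 1 ≤ s / (m + 3) := by
      rcases Nat.eq_zero_or_pos (s / (m + 3)) with h0 | h0
      · rw [h0, h] at hdm
        omega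
      · exact h0
    have h2 : s - 1 = (m + 2) + (m + 3) * (s / (m + 3) - 1) := by
      obtain ⟨t, ht⟩ : ∃ t, s / (m + 3) = t + 1 := ⟨s / (m + 3) - 1, by omega⟩
      rw [ht] at hdm ⊢
      simp only [Nat.add_sub_cancel]
      have : (m + 3) * (t + 1) = (m + 3) * t + (m + 3) := by ring
      omega
    refine ⟨h, h1, ?_, ?_⟩
    · rw [h2, Nat.add_mul_mod_self_left]
      exact Nat.mod_eq_of_lt (by omega)
    · rw [h2, Nat.add_mul_div_left _ _ (by omega), Nat.div_eq_of_lt (by omega)]
      omega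
  · left
    have h2 : s - 1 = (s % (m + 3) - 1) + (m + 3) * (s / (m + 3)) := by omega
    refine ⟨h, ?_, ?_⟩
    · conv_lhs => rw [h2]
      rw [Nat.add_mul_mod_self_left]
      exact Nat.mod_eq_of_lt (by omega)
    · conv_lhs => rw [h2]
      rw [Nat.add_mul_div_left _ _ (by omega), Nat.div_eq_of_lt (by omega)]
      omega

lemma csz_le {s : ℕ} (i : Fin (m + 3)) : csz m s i ≤ s := by
  unfold csz
  have hdm := Nat.div_add_mod s (m + 3)
  have : (m + 3) * (s / (m + 3)) = m * (s / (m + 3)) + 3 * (s / (m + 3)) := by ring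
  split_ifs
  · omega
  · omega

lemma val_sub_one (j : Fin (m + 3)) :
    (j = 0 ∧ (j - 1).val = m + 2) ∨ (j ≠ 0 ∧ 1 ≤ j.val ∧ (j - 1).val = j.val - 1) := by
  have h := Fin.coe_sub_one (n := m + 2) j
  by_cases hj : j = 0
  · left
    simp only [hj, if_true] at h
    exact ⟨hj, by rw [hj]; exact h⟩
  · right
    simp only [hj, if_false] at h
    refine ⟨hj, ?_, h⟩
    rcases Nat.eq_zero_or_pos j.val with h0 | h0
    · exact absurd (Fin.ext h0) hj
    · exact h0

lemma val_add_one (j : Fin (m + 3)) :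
    (j = Fin.last (m + 2) ∧ (j + 1).val = 0) ∨
      (j ≠ Fin.last (m + 2) ∧ j.val < m + 2 ∧ (j + 1).val = j.val + 1) := by
  have h := Fin.val_add_one (n := m + 2) j
  by_cases hj : j = Fin.last (m + 2)
  · left
    simp only [hj, if_true] at h
    exact ⟨hj, by rw [hj]; exact h⟩
  · right
    simp only [hj, if_false] at h
    refine ⟨hj, ?_, h⟩
    have := j.isLt
    by_contra h0
    exact hj (Fin.ext (by simp only [Fin.val_last]; omega))

lemma eq_zero_iff_val (j : Fin (m + 3)) : j = 0 ↔ j.val = 0 :=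
  ⟨fun h => by rw [h]; rfl, fun h => Fin.ext h⟩

lemma eq_last_iff_val (j : Fin (m + 3)) : j = Fin.last (m + 2) ↔ j.val = m + 2 :=
  ⟨fun h => by rw [h]; rfl, fun h => Fin.ext h⟩

lemma ite01 (v b : ℕ) : (v < b ∧ (if v < b then 1 else 0) = 1) ∨
    (b ≤ v ∧ (if v < b then 1 else 0) = 0) := by
  by_cases h : v < b
  · exact Or.inl ⟨h, if_pos h⟩
  · exact Or.inr ⟨by omega, if_neg h⟩

lemma num (j : Fin (m + 3)) (s : ℕ) (hsQ : s ≤ Q) (hc : 1 ≤ csz m s j) :
    (ex j + ((if j = 0 then Q else Q + 1) - csz m s (j - 1)) + (Q + 1 - csz m s (j + 1)) + 1 ≤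
      (Q + 1 - (csz m s j - 1)) + (Q + 1 - (csz m s j - 1))) ∧
    ((ex j + ((if j = 0 then Q else Q + 1) - csz m s (j - 1)) + (Q + 1 - csz m s (j + 1)) + 1 =
      (Q + 1 - (csz m s j - 1)) + (Q + 1 - (csz m s j - 1))) ↔
      (1 ≤ s ∧ (s - 1) % (m + 3) = j.val)) := by
  have hs : 1 ≤ s := le_trans hc (csz_le j)
  have h1 := val_sub_one j
  have h2 := val_add_one j
  have h3 := mod_cases m s hs
  have b1 := csz_le (m := m) (s := s) j
  have b2 := csz_le (m := m) (s := s) (j - 1)
  have b3 := csz_le (m := m) (s := s) (j + 1)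
  have hlt := Nat.mod_lt s (show 0 < m + 3 by omega)
  have hj := j.isLt
  have e0 : ex j = if j.val = m + 2 then 1 else 0 := by
    unfold ex
    simp only [eq_last_iff_val]
  have e1 : (if j = 0 then Q else Q + 1) = if j.val = 0 then Q else Q + 1 := by
    simp only [eq_zero_iff_val]
  rw [e0, e1]
  have h1' : (j.val = 0 ∧ (j - 1).val = m + 2) ∨ (1 ≤ j.val ∧ (j - 1).val = j.val - 1) := by
    rcases h1 with h | h
    · exact Or.inl ⟨by rw [h.1]; rfl, h.2⟩
    · exact Or.inr ⟨h.2.1, h.2.2⟩
  have h2' : (j.val = m + 2 ∧ (j + 1).val = 0) ∨ (j.val < m + 2 ∧ (j + 1).val = j.val + 1) := by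
    rcases h2 with h | h
    · exact Or.inl ⟨by rw [h.1]; rfl, h.2⟩
    · exact Or.inr ⟨h.2.1, h.2.2⟩
  clear h1 h2 e0 e1
  unfold csz at *
  generalize (j - 1).val = vm at *
  generalize (j + 1).val = vp at *
  generalize j.val = v at *
  generalize s / (m + 3) = a at *
  generalize s % (m + 3) = b at *
  generalize (s - 1) % (m + 3) = b' at *
  generalize (s - 1) / (m + 3) = a' at *
  have k1 := ite01 v b
  have k2 := ite01 vm b
  have k3 := ite01 vp b
  have k4 : (v = m + 2 ∧ (if v = m + 2 then 1 else 0) = 1) ∨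
      (v ≠ m + 2 ∧ (if v = m + 2 then 1 else 0) = 0) := by
    by_cases h : v = m + 2
    · exact Or.inl ⟨h, if_pos h⟩
    · exact Or.inr ⟨h, if_neg h⟩
  have k5 : (v = 0 ∧ (if v = 0 then Q else Q + 1) = Q) ∨
      (v ≠ 0 ∧ (if v = 0 then Q else Q + 1) = Q + 1) := by
    by_cases h : v = 0
    · exact Or.inl ⟨h, if_pos h⟩
    · exact Or.inr ⟨h, if_neg h⟩
  generalize (if v < b then 1 else 0) = x1 at *
  generalize (if vm < b then 1 else 0) = x2 at *
  generalize (if vp < b then 1 else 0) = x3 at *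
  generalize (if v = m + 2 then 1 else 0) = x4 at *
  generalize (if v = 0 then Q else Q + 1) = x5 at *
  rcases h1' with h1 | h1 <;> rcases h2' with h2 | h2 <;> rcases h3 with h3 | h3 <;>
    rcases k1 with k1 | k1 <;> rcases k2 with k2 | k2 <;> rcases k3 with k3 | k3 <;>
    constructor <;> omega

lemma csz_pred (j : Fin (m + 3)) (s : ℕ) (hs : 1 ≤ s) (hj : (s - 1) % (m + 3) = j.val) :
    1 ≤ csz m s j ∧ Function.update (csz m s) j (csz m s j - 1) = csz m (s - 1) ∧
      sg j * (-1) ^ ((csz m s j - 1) + csz m s (j - 1)) = 1 := by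
  have h1 := val_sub_one j
  have h3 := mod_cases m s hs
  have hlt := Nat.mod_lt s (show 0 < m + 3 by omega)
  have hjl := j.isLt
  refine ⟨?_, ?_, ?_⟩
  · unfold csz
    generalize s / (m + 3) = a at *
    generalize s % (m + 3) = b at *
    rcases h3 with h3 | h3
    · rw [if_pos (by omega)]
      omega
    · omega
  · funext i
    have hil := i.isLt
    by_cases hi : i = j
    · subst hi
      simp only [Function.update_self]
      unfold csz
      generalize s / (m + 3) = a at *
      generalize s % (m + 3) = b at *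
      rcases h3 with h3 | h3
      · rw [if_pos (by omega), if_neg (by omega)]
        omega
      · rw [if_neg (by omega), if_neg (by omega)]
        omega
    · have hv : i.val ≠ j.val := fun h => hi (Fin.ext h)
      simp only [Function.update_of_ne hi]
      unfold csz
      rcases h3 with h3 | h3
      · rw [h3.2.1, h3.2.2]
        congr 1
        split_ifs <;> omega
      · rw [if_neg (by omega), if_pos (by omega)]
        omega
  · have e1 : sg j = if j.val = 0 then (1 : ℝ) else -1 := by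
      unfold sg
      simp only [eq_zero_iff_val]
    rw [e1]
    have h1' : (j.val = 0 ∧ (j - 1).val = m + 2) ∨ (1 ≤ j.val ∧ (j - 1).val = j.val - 1) := by
      rcases h1 with h | h
      · exact Or.inl ⟨by rw [h.1]; rfl, h.2⟩
      · exact Or.inr ⟨h.2.1, h.2.2⟩
    unfold csz
    generalize s / (m + 3) = a at *
    generalize s % (m + 3) = b at *
    rcases h1' with h1 | h1
    · rw [if_pos h1.1, one_mul]
      apply Even.neg_one_pow
      rcases h3 with h3 | h3
      · rw [if_pos (by omega), if_neg (by omega)]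
        exact ⟨a, by omega⟩
      · omega
    · rw [if_neg (by omega), neg_one_mul]
      have : Odd ((a + if j.val < b then 1 else 0) - 1 +
          (a + if (j - 1).val < b then 1 else 0)) := by
        rcases h3 with h3 | h3
        · rw [if_pos (by omega), if_pos (by omega)]
          exact ⟨a, by omega⟩
        · rw [if_neg (by omega), if_neg (by omega)]
          exact ⟨a - 1, by omega⟩
      rw [this.neg_one_pow]
      norm_num

lemma card_WW (j : Fin (m + 3)) : #(WW Q j) = if j = 0 then Q else Q + 1 := by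
  unfold WW
  split_ifs <;> simp

end H553RK
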