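import Pool.Agent.Helper553_RK.Integral

open Finset

namespace H553RK

lemma filter_prod {σ R : Type*} [Fintype σ] [CommSemiring R] (l : Multiset ℕ) :
    (Multiset.map (MvPolynomial.esymm σ R) (Multiset.filter (fun x => x ≠ 0) l)).prod =
      (Multiset.map (MvPolynomial.esymm σ R) l).prod := by
  induction l using Multiset.induction_on with
  | empty => simp
  | cons a l ih =>
    by_cases ha : a = 0
    · subst ha
      rw [Multiset.filter_cons_of_neg _ (by simp), ih]
      simp
    · rw [Multiset.filter_cons_of_pos (p := fun x => x ≠ 0) _ ha, Multiset.map_cons,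
        Multiset.prod_cons, ih, Multiset.map_cons, Multiset.prod_cons]

theorem real_pos' {k : ℕ} (hk : 1 ≤ k) (n : ℕ) (μ : (k * n).Partition) :
    ∃ d : n.Partition → ℝ, (∀ l, 0 ≤ d l) ∧ ∀ (N : ℕ) (ν : Fin N →₀ ℕ), ∑ i, ν i = n →
      MvPolynomial.coeff (k • ν) (MvPolynomial.esymmPart (Fin N) ℝ μ) =
        ∑ l, d l * MvPolynomial.coeff ν (MvPolynomial.esymmPart (Fin N) ℝ l) := by
  classical
  by_cases hk2 : 2 ≤ k
  · obtain ⟨d, hd0, hd⟩ := real_pos hk2 n μ.parts.toList (toList_sum μ)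
    refine ⟨d, hd0, fun N ν hν => ?_⟩
    rw [esymmPart_toList]
    exact hd N ν hν
  · have h1 : k = 1 := by omega
    subst h1
    have hs : μ.parts.sum = n := by rw [μ.parts_sum, one_mul]
    refine ⟨fun l => if l = Nat.Partition.ofSums n μ.parts hs then 1 else 0, ?_, ?_⟩
    · intro l
      simp only
      split_ifs
      · exact zero_le_one
      · exact le_rfl
    · intro N ν _
      simp only [ite_mul, one_mul, zero_mul, Finset.sum_ite_eq', mem_univ, if_true, one_smul]
      congr 1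
      unfold MvPolynomial.esymmPart
      simp only [Nat.Partition.ofSums_parts]
      exact (filter_prod μ.parts).symm

/-- the identity of coefficients in finitely many variables -/
theorem fin_main {k : ℕ} (hk : 1 ≤ k) (n : ℕ) (μ : (k * n).Partition) :
    ∃ c : n.Partition → ℕ, ∀ (N : ℕ) (ν : Fin N →₀ ℕ),
      MvPolynomial.coeff (k • ν) (MvPolynomial.esymmPart (Fin N) ℤ μ) =
        ∑ l, (c l : ℤ) * MvPolynomial.coeff ν (MvPolynomial.esymmPart (Fin N) ℤ l) := by
  obtain ⟨d, hd0, hd⟩ := real_pos' hk n μ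
  have hz1 : ∀ (N : ℕ) (ν : Fin N →₀ ℕ), ∑ i, ν i ≠ n → ∀ {R : Type} [CommSemiring R],
      MvPolynomial.coeff (k • ν) (MvPolynomial.esymmPart (Fin N) R μ) = 0 := by
    intro N ν hν R _
    rw [esymmPart_toList]
    apply coeff_zero_of_sum
    rw [toList_sum]
    simp only [Finsupp.smul_apply, smul_eq_mul]
    rw [← Finset.mul_sum]
    intro h
    exact hν (Nat.eq_of_mul_eq_mul_left hk h)
  have hz2 : ∀ (N : ℕ) (ν : Fin N →₀ ℕ), ∑ i, ν i ≠ n → ∀ {R : Type} [CommSemiring R]
      (l : n.Partition), MvPolynomial.coeff ν (MvPolynomial.esymmPart (Fin N) R l) = 0 := by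
    intro N ν hν R _ l
    rw [esymmPart_toList]
    apply coeff_zero_of_sum
    rw [toList_sum]
    exact hν
  have hall : ∀ (N : ℕ) (ν : Fin N →₀ ℕ),
      MvPolynomial.coeff (k • ν) (MvPolynomial.esymmPart (Fin N) ℝ μ) =
        ∑ l, d l * MvPolynomial.coeff ν (MvPolynomial.esymmPart (Fin N) ℝ l) := by
    intro N ν
    by_cases hν : ∑ i, ν i = n
    · exact hd N ν hν
    · rw [hz1 N ν hν]
      symm
      apply Finset.sum_eq_zero
      intro l _
      rw [hz2 N ν hν l, mul_zero]
  have hint := integral_coeff (contr k (MvPolynomial.esymmPart (Fin n) ℤ μ))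
    (contr_symm hk (esymmPart_symm μ)) d (by
      ext ν
      rw [MvPolynomial.coeff_map, coeff_contr hk, MvPolynomial.coeff_sum]
      have h1 := hall n ν
      rw [← map_esymmPart (Int.castRingHom ℝ) μ, MvPolynomial.coeff_map] at h1
      rw [h1]
      refine Finset.sum_congr rfl (fun l _ => ?_)
      rw [MvPolynomial.coeff_smul, smul_eq_mul])
  have hnat : ∀ l, ∃ c : ℕ, d l = c := by
    intro l
    obtain ⟨z, hz⟩ := hint l
    have h0 := hd0 l
    rw [hz] at h0
    have h1 : 0 ≤ z := by exact_mod_cast h0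
    refine ⟨z.toNat, ?_⟩
    rw [hz]
    have h2 : ((z.toNat : ℤ) : ℝ) = (z : ℝ) := by rw [Int.toNat_of_nonneg h1]
    rw [← h2]
    norm_cast
  choose c hc using hnat
  refine ⟨c, fun N ν => ?_⟩
  have h1 := hall N ν
  rw [← map_esymmPart (Int.castRingHom ℝ) μ, MvPolynomial.coeff_map] at h1
  have h2 : ∀ l, d l * MvPolynomial.coeff ν (MvPolynomial.esymmPart (Fin N) ℝ l) =
      (((c l : ℤ) * MvPolynomial.coeff ν (MvPolynomial.esymmPart (Fin N) ℤ l) : ℤ) : ℝ) := by
    intro l
    rw [← map_esymmPart (Int.castRingHom ℝ) l, MvPolynomial.coeff_map, hc l]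
    push_cast
    rfl
  rw [Finset.sum_congr rfl (fun l _ => h2 l), ← Int.cast_sum, eq_intCast] at h1
  exact_mod_cast h1

end H553RK
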