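import Pool.Agent.Helper553_RK.Comm

open Finset Polynomial

namespace H553RK

variable {m Q : ℕ}

/-- the iterated removal function -/
noncomputable def fpi : List ℕ → St m Q → ℝ
  | [] => fun _ => 1
  | s :: π => HS s (fpi π)

/-- the part-lowering sum attached to the letter `j` -/
noncomputable def dsum (m : ℕ) (j : ℕ) : (List ℕ → ℝ) → List ℕ → ℝ
  | _, [] => 0
  | g, s :: π => (if 1 ≤ s ∧ (s - 1) % (m + 3) = j then g ((s - 1) :: π) else 0) +
      dsum m j (fun π' => g (s :: π')) π

/-- generic states -/
def Gen (y : St m Q) : Prop := ∀ i a b, a ≠ b → ∀ n : ℤ, y i a - y i b ≠ n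

/-- the scalar correction, the list-dependent part -/
noncomputable def kl (j : Fin (m + 3)) : List ℕ → ℝ
  | [] => 0
  | s :: π => kl j π + ((csz m s (j - 1) : ℝ) - csz m s j)

/-- the scalar correction in terms of class sums -/
noncomputable def kap (j : Fin (m + 3)) (π : List ℕ) (u v : ℝ) : ℝ :=
  if j = 0 then 1 else u - v - kl j π

lemma dsum_sum {ι : Type*} (j : ℕ) (S : Finset ι) (c : ι → ℝ) (π : List ℕ) :
    ∀ g : ι → List ℕ → ℝ,
    dsum m j (fun π' => ∑ i ∈ S, c i * g i π') π = ∑ i ∈ S, c i * dsum m j (g i) π := by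
  induction π with
  | nil => intro g; simp [dsum]
  | cons s π ih =>
    intro g
    simp only [dsum]
    rw [ih (fun i π' => g i (s :: π'))]
    simp only [mul_add, Finset.sum_add_distrib]
    congr 1
    split_ifs <;> simp

lemma Gen_dnY {y : St m Q} (hy : Gen y) (I : Fm m Q) : Gen (dnY I y) := by
  intro i a b hab n h
  unfold dnY dn at h
  split_ifs at h
  · exact hy i a b hab n (by linarith)
  · exact hy i a b hab (n + 1) (by push_cast; linarith)
  · exact hy i a b hab (n - 1) (by push_cast; linarith)
  · exact hy i a b hab n (by linarith)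

lemma Gen_Ds {y : St m Q} (hy : Gen y) (j : Fin (m + 3)) : Ds j y := by
  intro a b hab
  constructor
  · intro h
    exact hy j a b hab 0 (by push_cast; linarith)
  · intro h
    exact hy j a b hab (-1) (by push_cast; linarith)

lemma sum_dn (I : Finset (Fin (Q + 1))) (y : Fin (Q + 1) → ℝ) :
    ∑ a, dn I y a = (∑ a, y a) - #I := by
  have : ∀ a, dn I y a = y a - if a ∈ I then 1 else 0 := by
    intro a
    unfold dn
    split_ifs <;> ring
  rw [Finset.sum_congr rfl (fun a _ => this a), Finset.sum_sub_distrib]
  congr 1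
  simp

lemma AA_one {j : Fin (m + 3)} {y : St m Q} (hy : Gen y) :
    AA j (fun _ => 1) y = kap j [] (∑ a, y (j - 1) a) (∑ a, y j a) := by
  have hd : ∀ a b, a ≠ b → y j a ≠ y j b := fun a b hab => (Gen_Ds hy j a b hab).1
  unfold AA kap WW sg
  split_ifs with h
  · simp only [mul_one, one_mul]
    exact aw_sum_one _ _ hd (by simp)
  · simp only [mul_one]
    rw [aw_sum_diff _ _ hd]
    simp only [kl]
    ring

theorem AA_fpi {j : Fin (m + 3)} : ∀ (π : List ℕ), (∀ s ∈ π, s ≤ Q) → ∀ y : St m Q, Gen y →
    Bd j y → AA j (fpi π) y = dsum m j.val (fun π' => fpi π' y) π +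
      kap j π (∑ a, y (j - 1) a) (∑ a, y j a) * fpi π y := by
  intro π
  induction π with
  | nil =>
    intro _ y hy _
    simp only [fpi, dsum, mul_one, zero_add]
    exact AA_one hy
  | cons s π ih =>
    intro hπ y hy hb
    have hsQ : s ≤ Q := hπ s (by simp)
    have hπ' : ∀ t ∈ π, t ≤ Q := fun t ht => hπ t (by simp [ht])
    simp only [fpi, dsum]
    rw [AA_HS hb (Gen_Ds hy j) hsQ]
    have e1 : HS s (AA j (fpi π)) y = dsum m j.val (fun π' => HS s (fpi π') y) π +
        kap j (s :: π) (∑ a, y (j - 1) a) (∑ a, y j a) * HS s (fpi π) y := by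
      unfold HS
      rw [dsum_sum, Finset.mul_sum, ← Finset.sum_add_distrib]
      refine Finset.sum_congr rfl (fun I hI => ?_)
      by_cases hH : H I y = 0
      · rw [hH]; ring
      · have hb' : Bd j (dnY I y) := by
          intro hj
          have h3 := hb hj
          rw [hj, zero_sub_one] at h3 ⊢
          by_cases hl : Fin.last Q ∈ I (Fin.last (m + 2))
          · exact absurd (H_zero hl h3) hH
          · unfold dnY
            rw [dn_nmem _ hl, h3]
        rw [ih hπ' _ (Gen_dnY hy I) hb']
        have hk : kap j π (∑ a, dnY I y (j - 1) a) (∑ a, dnY I y j a) =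
            kap j (s :: π) (∑ a, y (j - 1) a) (∑ a, y j a) := by
          unfold kap
          split_ifs
          · rfl
          · unfold dnY
            rw [sum_dn, sum_dn]
            rw [mem_famc] at hI
            rw [hI, hI]
            simp only [kl]
            ring
        rw [hk]
        ring
    rw [e1]
    split_ifs <;> ring

end H553RK
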