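import Pool.Agent.Helper553_RK.Pattern

open Finset

namespace H553RK

/-- multiplicity vector of a partition -/
noncomputable def mult {n : ℕ} (l : n.Partition) : Fin n →₀ ℕ :=
  Finsupp.equivFunOnFinite.symm (fun i => l.parts.count (i.val + 1))

lemma mult_apply {n : ℕ} (l : n.Partition) (i : Fin n) :
    mult l i = l.parts.count (i.val + 1) := rfl

lemma mult_injective {n : ℕ} : Function.Injective (mult : n.Partition → Fin n →₀ ℕ) := by
  intro l l' h
  apply Nat.Partition.ext
  apply Multiset.ext.mpr
  intro x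
  rcases Nat.eq_zero_or_pos x with hx | hx
  · subst hx
    rw [Multiset.count_eq_zero_of_notMem, Multiset.count_eq_zero_of_notMem]
    · intro h0
      exact absurd (l'.parts_pos h0) (lt_irrefl 0)
    · intro h0
      exact absurd (l.parts_pos h0) (lt_irrefl 0)
  · by_cases hxn : x ≤ n
    · have h1 := DFunLike.congr_fun h (⟨x - 1, by omega⟩ : Fin n)
      rw [mult_apply, mult_apply] at h1
      simpa [Nat.sub_add_cancel hx] using h1
    · rw [Multiset.count_eq_zero_of_notMem, Multiset.count_eq_zero_of_notMem]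
      · intro h0
        exact hxn (l'.le_of_mem_parts h0)
      · intro h0
        exact hxn (l.le_of_mem_parts h0)

lemma esymmPart_eq {R : Type*} [CommRing R] {n : ℕ} (l : n.Partition) :
    MvPolynomial.esymmPart (Fin n) R l =
      (MvPolynomial.esymmAlgHom (Fin n) R n (MvPolynomial.monomial (mult l) 1)).val := by
  rw [MvPolynomial.esymmAlgHom_apply, MvPolynomial.aeval_monomial, map_one, one_mul,
    Finsupp.prod_fintype _ _ (fun i => pow_zero _)]
  unfold MvPolynomial.esymmPart
  rw [Finset.prod_multiset_map_count]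
  have h1 : l.parts.toFinset ⊆ (univ : Finset (Fin n)).image (fun i => i.val + 1) := by
    intro x hx
    rw [Multiset.mem_toFinset] at hx
    have hp := l.parts_pos hx
    have hle := l.le_of_mem_parts hx
    rw [mem_image]
    exact ⟨⟨x - 1, by omega⟩, mem_univ _, by simp only; omega⟩
  rw [Finset.prod_subset h1, Finset.prod_image]
  · rfl
  · intro i _ j _ hij
    apply Fin.ext
    simpa using hij
  · intro x _ hx
    rw [Multiset.mem_toFinset] at hx
    rw [Multiset.count_eq_zero_of_notMem hx, pow_zero]

lemma sum_esymmPart {R : Type*} [CommRing R] {n : ℕ} (c : n.Partition → R) :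
    ∑ l, c l • MvPolynomial.esymmPart (Fin n) R l =
      (MvPolynomial.esymmAlgHom (Fin n) R n (∑ l, MvPolynomial.monomial (mult l) (c l))).val := by
  rw [map_sum, AddSubmonoidClass.coe_finsetSum]
  refine Finset.sum_congr rfl (fun l _ => ?_)
  rw [esymmPart_eq]
  have : (MvPolynomial.monomial (mult l) (c l) : MvPolynomial (Fin n) R) =
      c l • MvPolynomial.monomial (mult l) 1 := by
    rw [MvPolynomial.smul_monomial]
    simp
  rw [this, map_smul]
  rfl

lemma coeff_mult_sum {R : Type*} [CommRing R] {n : ℕ} (c : n.Partition → R) (l : n.Partition) :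
    MvPolynomial.coeff (mult l) (∑ l', MvPolynomial.monomial (mult l') (c l')) = c l := by
  rw [MvPolynomial.coeff_sum, Finset.sum_eq_single l]
  · simp
  · intro l' _ hne
    rw [MvPolynomial.coeff_monomial, if_neg (fun h => hne (mult_injective h))]
  · simp

theorem indep {R : Type*} [CommRing R] {n : ℕ} (c c' : n.Partition → R)
    (h : ∑ l, c l • MvPolynomial.esymmPart (Fin n) R l =
      ∑ l, c' l • MvPolynomial.esymmPart (Fin n) R l) : ∀ l, c l = c' l := by
  rw [sum_esymmPart, sum_esymmPart] at h
  have h1 := MvPolynomial.esymmAlgHom_fin_injective R (le_refl n) (Subtype.ext h)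
  intro l
  rw [← coeff_mult_sum c l, h1, coeff_mult_sum]

theorem integral_coeff {n : ℕ} (F : MvPolynomial (Fin n) ℤ) (hF : F.IsSymmetric)
    (d : n.Partition → ℝ) (hd : MvPolynomial.map (Int.castRingHom ℝ) F =
      ∑ l, d l • MvPolynomial.esymmPart (Fin n) ℝ l) : ∀ l, ∃ z : ℤ, d l = z := by
  obtain ⟨P, hP⟩ := MvPolynomial.esymmAlgHom_fin_surjective ℤ (le_refl n)
    (⟨F, hF⟩ : MvPolynomial.symmetricSubalgebra (Fin n) ℤ)
  have h1 : (MvPolynomial.esymmAlgHom (Fin n) ℝ n (MvPolynomial.map (Int.castRingHom ℝ) P)).val =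
      MvPolynomial.map (Int.castRingHom ℝ) F := by
    have h2 : (MvPolynomial.esymmAlgHom (Fin n) ℤ n P).val = F := by rw [hP]
    rw [← h2, MvPolynomial.esymmAlgHom_apply, MvPolynomial.esymmAlgHom_apply]
    rw [MvPolynomial.aeval_def, MvPolynomial.aeval_def, MvPolynomial.algebraMap_eq,
      MvPolynomial.algebraMap_eq, MvPolynomial.map_eval₂]
    congr 1
    funext i
    simp only [Function.comp]
    rw [MvPolynomial.map_esymm]
  rw [hd, sum_esymmPart] at h1
  have h3 := MvPolynomial.esymmAlgHom_fin_injective ℝ (le_refl n) (Subtype.ext h1)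
  intro l
  refine ⟨MvPolynomial.coeff (mult l) P, ?_⟩
  rw [← coeff_mult_sum d l, ← h3, MvPolynomial.coeff_map]
  rfl

lemma ind_sum {σ : Type*} [Fintype σ] [DecidableEq σ] (M : Finset σ) : ∑ a, ind M a = #M := by
  rw [Finset.sum_congr rfl (fun a _ => ind_apply M a)]
  simp

lemma coeff_zero_of_sum {σ R : Type*} [Fintype σ] [DecidableEq σ] [CommSemiring R] (μ : List ℕ) :
    ∀ z : σ →₀ ℕ, ∑ a, z a ≠ μ.sum →
      MvPolynomial.coeff z ((μ.map (fun c => MvPolynomial.esymm σ R c)).prod) = 0 := by
  induction μ with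
  | nil =>
    intro z hz
    simp only [List.map_nil, List.prod_nil, List.sum_nil] at hz ⊢
    rw [MvPolynomial.coeff_one, if_neg]
    rintro rfl
    simp at hz
  | cons c μ ih =>
    intro z hz
    simp only [List.map_cons, List.prod_cons, List.sum_cons] at hz ⊢
    rw [coeff_esymm_mul]
    apply Finset.sum_eq_zero
    intro M hM
    rw [mem_powersetCard] at hM
    split_ifs with hle
    · apply ih
      intro h
      apply hz
      have e3 : ∑ a, (z - ind M) a + ∑ a, ind M a = ∑ a, z a := by
        rw [← Finset.sum_add_distrib]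
        refine Finset.sum_congr rfl (fun a _ => ?_)
        rw [Finsupp.tsub_apply]
        exact Nat.sub_add_cancel (hle a)
      rw [ind_sum, hM.2, h] at e3
      omega
    · rfl

lemma esymmPart_toList {σ R : Type*} [Fintype σ] [CommSemiring R] {n : ℕ} (l : n.Partition) :
    MvPolynomial.esymmPart σ R l = (l.parts.toList.map (fun c => MvPolynomial.esymm σ R c)).prod := by
  unfold MvPolynomial.esymmPart
  conv_lhs => rw [← Multiset.coe_toList l.parts]
  rw [Multiset.map_coe, Multiset.prod_coe]

lemma toList_sum {n : ℕ} (l : n.Partition) : l.parts.toList.sum = n := by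
  rw [← Multiset.sum_coe, Multiset.coe_toList, l.parts_sum]

lemma map_esymmPart {R S : Type*} [CommSemiring R] [CommSemiring S] (f : R →+* S) {σ : Type*}
    [Fintype σ] {n : ℕ} (l : n.Partition) : MvPolynomial.map f (MvPolynomial.esymmPart σ R l) =
      MvPolynomial.esymmPart σ S l := by
  unfold MvPolynomial.esymmPart
  rw [map_multiset_prod, Multiset.map_map]
  congr 1
  apply Multiset.map_congr rfl
  intro x _
  exact MvPolynomial.map_esymm σ R x f

open Classical in
/-- the coefficient division map on polynomials -/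
noncomputable def contr {σ R : Type*} [CommSemiring R] [DecidableEq σ] (k : ℕ)
    (p : MvPolynomial σ R) : MvPolynomial σ R :=
  ∑ d ∈ p.support.filter (fun d => ∃ e : σ →₀ ℕ, d = k • e),
    MvPolynomial.monomial (d.mapRange (fun x => x / k) (Nat.zero_div k)) (MvPolynomial.coeff d p)

lemma coeff_contr {σ R : Type*} [CommSemiring R] [DecidableEq σ] {k : ℕ} (hk : 1 ≤ k)
    (p : MvPolynomial σ R) (ν : σ →₀ ℕ) :
    MvPolynomial.coeff ν (contr k p) = MvPolynomial.coeff (k • ν) p := by
  classical
  unfold contr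
  rw [MvPolynomial.coeff_sum]
  have hdiv : ∀ e : σ →₀ ℕ, (k • e).mapRange (fun x => x / k) (Nat.zero_div k) = e := by
    intro e
    ext i
    simp [Nat.mul_div_cancel_left _ hk]
  by_cases h : MvPolynomial.coeff (k • ν) p = 0
  · rw [h]
    apply Finset.sum_eq_zero
    intro d hd
    rw [mem_filter] at hd
    obtain ⟨hd1, e, rfl⟩ := hd
    rw [hdiv, MvPolynomial.coeff_monomial]
    split_ifs with he
    · rw [he, h]
    · rfl
  · rw [Finset.sum_eq_single (k • ν)]
    · rw [hdiv, MvPolynomial.coeff_monomial, if_pos rfl]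
    · intro d hd hne
      rw [mem_filter] at hd
      obtain ⟨hd1, e, rfl⟩ := hd
      rw [hdiv, MvPolynomial.coeff_monomial, if_neg]
      rintro rfl
      exact hne rfl
    · intro hn
      exfalso
      apply hn
      rw [mem_filter, MvPolynomial.mem_support_iff]
      exact ⟨h, ν, rfl⟩

lemma contr_symm {σ R : Type*} [CommSemiring R] [DecidableEq σ] {k : ℕ} (hk : 1 ≤ k)
    {p : MvPolynomial σ R} (hp : p.IsSymmetric) : (contr k p).IsSymmetric := by
  intro e
  ext d
  obtain ⟨d', rfl⟩ : ∃ d', d = Finsupp.mapDomain e d' :=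
    ⟨Finsupp.mapDomain e.symm d, by
      rw [← Finsupp.mapDomain_comp]
      simp [Finsupp.mapDomain_id]⟩
  rw [MvPolynomial.coeff_rename_mapDomain e e.injective, coeff_contr hk, coeff_contr hk]
  have h1 := hp e
  have h2 := MvPolynomial.coeff_rename_mapDomain e e.injective p (k • d')
  rw [h1, Finsupp.mapDomain_smul] at h2
  exact h2.symm

lemma esymmPart_symm {σ R : Type*} [Fintype σ] [CommSemiring R] {n : ℕ} (l : n.Partition) :
    (MvPolynomial.esymmPart σ R l).IsSymmetric := by
  rw [esymmPart_toList]
  generalize l.parts.toList = L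
  induction L with
  | nil => simpa using MvPolynomial.IsSymmetric.one
  | cons c L ih =>
    rw [List.map_cons, List.prod_cons]
    exact (MvPolynomial.esymm_isSymmetric σ R c).mul ih

end H553RK
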