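import Pool.Agent.Helper553_RK.Closed2

open Finset

namespace H553RK

variable {m Q : ℕ}

/-- integral states -/
abbrev NSt (m Q : ℕ) := Fin (m + 3) → Fin (Q + 1) → ℕ

/-- value at the predecessor position -/
def prd (r : NSt m Q) (j : Fin (m + 3)) (k : Fin (Q + 1)) : ℕ :=
  if j = 0 then (if k = 0 then r 0 0 + 2 else r (Fin.last (m + 2)) (k - 1)) else r (j - 1) k

/-- legal states -/
def Leg (r : NSt m Q) : Prop := ∀ j k, r j k ≤ prd r j k

/-- raise one entry -/
def bump (r : NSt m Q) (j : Fin (m + 3)) (k : Fin (Q + 1)) : NSt m Q :=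
  Function.update r j (Function.update (r j) k (r j k + 1))

/-- cast of an integral state -/
def castS (r : NSt m Q) : St m Q := fun i a => (r i a : ℝ)

lemma bump_same (r : NSt m Q) (j : Fin (m + 3)) (k : Fin (Q + 1)) :
    bump r j k j k = r j k + 1 := by simp [bump]

lemma bump_ne (r : NSt m Q) {j i : Fin (m + 3)} {k a : Fin (Q + 1)} (h : ¬ (i = j ∧ a = k)) :
    bump r j k i a = r i a := by
  unfold bump
  by_cases hi : i = j
  · subst hi
    have ha : a ≠ k := fun ha => h ⟨rfl, ha⟩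
    simp [ha]
  · simp [hi]

lemma le_bump (r : NSt m Q) (j : Fin (m + 3)) (k : Fin (Q + 1)) (i : Fin (m + 3))
    (a : Fin (Q + 1)) : r i a ≤ bump r j k i a := by
  by_cases h : i = j ∧ a = k
  · rw [h.1, h.2, bump_same]
    omega
  · rw [bump_ne r h]

lemma castS_bump (r : NSt m Q) (j : Fin (m + 3)) (k : Fin (Q + 1)) :
    castS (bump r j k) = upY j k (castS r) := by
  funext i a
  unfold castS bump upY up
  by_cases hi : i = j
  · subst hi
    by_cases ha : a = k
    · subst ha
      simp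
    · simp [ha]
  · simp [hi]

lemma prd_mono {r r' : NSt m Q} (h : ∀ i a, r i a ≤ r' i a) (j : Fin (m + 3))
    (k : Fin (Q + 1)) : prd r j k ≤ prd r' j k := by
  unfold prd
  split_ifs
  · have := h 0 0
    omega
  · exact h _ _
  · exact h _ _

lemma Leg_bump {r : NSt m Q} (h : Leg r) {j : Fin (m + 3)} {k : Fin (Q + 1)}
    (hk : r j k < prd r j k) : Leg (bump r j k) := by
  intro i a
  have h1 := prd_mono (le_bump r j k) i a
  by_cases hia : i = j ∧ a = k
  · obtain ⟨rfl, rfl⟩ := hia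
    rw [bump_same]
    omega
  · rw [bump_ne r hia]
    exact (h i a).trans h1

lemma val_sub_one' {k : Fin (Q + 1)} (hk : k ≠ 0) : 1 ≤ k.val ∧ (k - 1).val = k.val - 1 := by
  have h := Fin.coe_sub_one (n := Q) k
  rw [if_neg hk] at h
  refine ⟨?_, h⟩
  rcases Nat.eq_zero_or_pos k.val with h0 | h0
  · exact absurd (Fin.ext h0) hk
  · exact h0

theorem Leg_mono {r : NSt m Q} (h : Leg r) : ∀ (n : ℕ) (i : Fin (m + 3)) (a : Fin (Q + 1))
    (i' : Fin (m + 3)) (a' : Fin (Q + 1)),
    a'.val * (m + 3) + i'.val = a.val * (m + 3) + i.val + n → r i' a' ≤ r i a := by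
  intro n
  induction n with
  | zero =>
    intro i a i' a' hp
    have hi := i.isLt
    have hi' := i'.isLt
    rcases lt_trichotomy a.val a'.val with h1 | h1 | h1
    · have h2 : (a.val + 1) * (m + 3) ≤ a'.val * (m + 3) := Nat.mul_le_mul_right _ h1
      have h3 : (a.val + 1) * (m + 3) = a.val * (m + 3) + (m + 3) := by ring
      omega
    · have h2 : a = a' := Fin.ext h1
      have h3 : i = i' := Fin.ext (by rw [h1] at hp; omega)
      rw [h2, h3]
    · have h2 : (a'.val + 1) * (m + 3) ≤ a.val * (m + 3) := Nat.mul_le_mul_right _ h1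
      have h3 : (a'.val + 1) * (m + 3) = a'.val * (m + 3) + (m + 3) := by ring
      omega
  | succ n ih =>
    intro i a i' a' hp
    have hL := h i' a'
    unfold prd at hL
    rcases val_sub_one i' with h1 | h1
    · rw [if_pos h1.1] at hL
      by_cases ha : a' = 0
      · rw [h1.1, ha] at hp
        simp only [Fin.val_zero] at hp
        omega
      · rw [if_neg ha] at hL
        have h2 := val_sub_one' ha
        refine hL.trans (ih i a _ _ ?_)
        rw [h2.2, Fin.val_last]
        obtain ⟨b, hb⟩ : ∃ b, a'.val = b + 1 := ⟨a'.val - 1, by omega⟩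
        rw [hb, h1.1] at hp
        simp only [Fin.val_zero] at hp
        rw [hb, Nat.add_sub_cancel]
        have h3 : (b + 1) * (m + 3) = b * (m + 3) + (m + 3) := by ring
        omega
    · rw [if_neg h1.1] at hL
      refine hL.trans (ih i a _ _ ?_)
      rw [h1.2.2]
      omega

lemma prd_le {r : NSt m Q} (h : Leg r) (j : Fin (m + 3)) {k l : Fin (Q + 1)} (hkl : k < l) :
    prd r j l ≤ r j k := by
  have hkl' : k.val < l.val := hkl
  unfold prd
  have hj := j.isLt
  have h2 : (k.val + 1) * (m + 3) ≤ l.val * (m + 3) := Nat.mul_le_mul_right _ hkl'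
  have h3 : (k.val + 1) * (m + 3) = k.val * (m + 3) + (m + 3) := by ring
  rcases val_sub_one j with h1 | h1
  · have hl : l ≠ 0 := by
      rintro rfl
      simp at hkl'
    rw [if_pos h1.1, if_neg hl]
    have h4 := val_sub_one' hl
    obtain ⟨b, hb⟩ : ∃ b, l.val = b + 1 := ⟨l.val - 1, by omega⟩
    apply Leg_mono h (b * (m + 3) + (m + 2) - k.val * (m + 3))
    rw [h4.2, Fin.val_last, h1.1, hb, Nat.add_sub_cancel]
    simp only [Fin.val_zero]
    have h5 : (b + 1) * (m + 3) = b * (m + 3) + (m + 3) := by ring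
    rw [hb] at h2
    omega
  · rw [if_neg h1.1]
    apply Leg_mono h (l.val * (m + 3) + (j.val - 1) - (k.val * (m + 3) + j.val))
    rw [h1.2.2]
    omega

/-- core positivity and bound -/
theorem core {w y : Fin (Q + 1) → ℝ} {t C : ℝ} (ht : 0 < t) (h1 : ∀ k, y k < w k)
    (h2 : ∀ k l, k < l → w l < y k) (h3 : ∀ k l, k ≠ l → t ≤ |y k - y l|)
    (h4 : ∀ k l, |y k - w l| ≤ C) (k : Fin (Q + 1)) :
    0 ≤ -aw univ w y k ∧ -aw univ w y k ≤ (w k - y k) * (C / t) ^ Q := by
  have e : -aw univ w y k = (w k - y k) * ∏ l ∈ univ.erase k, ((y k - w l) / (y k - y l)) := by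
    unfold aw
    rw [Finset.prod_div_distrib, ← Finset.mul_prod_erase univ (fun l => y k - w l) (mem_univ k)]
    ring
  have hpos : ∀ l ∈ univ.erase k, 0 < (y k - w l) / (y k - y l) := by
    intro l hl
    simp only [mem_erase, mem_univ, and_true] at hl
    rcases lt_or_gt_of_ne hl with h | h
    · have a1 := h2 l k h
      have a2 := h1 k
      have a3 := h1 l
      exact div_pos_of_neg_of_neg (by linarith) (by linarith)
    · have a1 := h2 k l h
      have a3 := h1 l
      exact div_pos (by linarith) (by linarith)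
  rw [e]
  have hk := h1 k
  refine ⟨mul_nonneg (by linarith) (Finset.prod_nonneg (fun l hl => (hpos l hl).le)), ?_⟩
  apply mul_le_mul_of_nonneg_left _ (by linarith)
  have hcard : #(univ.erase k) = Q := by simp
  calc ∏ l ∈ univ.erase k, ((y k - w l) / (y k - y l))
      ≤ ∏ l ∈ univ.erase k, (C / t) := by
        apply Finset.prod_le_prod (fun l hl => (hpos l hl).le)
        intro l hl
        have h5 := hpos l hl
        simp only [mem_erase, mem_univ, and_true] at hl
        rw [← abs_of_pos h5, abs_div]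
        exact div_le_div₀ (le_trans (abs_nonneg _) (h4 k l)) (h4 k l) ht (h3 k l (Ne.symm hl))
    _ = (C / t) ^ Q := by rw [Finset.prod_const, hcard]

/-- perturbation amounts -/
noncomputable def dd (Q : ℕ) (j : Fin (m + 3)) (t : ℝ) (i : Fin (m + 3)) (a : Fin (Q + 1)) : ℝ :=
  if i = j - 1 then
    (if j = 0 then (if a = Fin.last Q then 0 else t * ((Q : ℝ) - a.val - 1) + t ^ (Q + 3))
      else t * ((Q : ℝ) - a.val) + t ^ (Q + 3))
  else t * ((Q : ℝ) - a.val)

/-- perturbed state -/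
noncomputable def pert (j : Fin (m + 3)) (r : NSt m Q) (t : ℝ) : St m Q :=
  fun i a => (r i a : ℝ) + dd Q j t i a

lemma tau_lt {t : ℝ} (h0 : 0 < t) (h1 : t * ((Q : ℝ) + 1) < 1) : t ^ (Q + 3) < t := by
  have ht : t < 1 := by
    have : (0 : ℝ) ≤ Q := by positivity
    nlinarith
  calc t ^ (Q + 3) < t ^ 1 := pow_lt_pow_right_of_lt_one₀ h0 ht (by omega)
    _ = t := pow_one t

lemma Gen_pertS (j : Fin (m + 3)) (r : NSt m Q) {t : ℝ} (h0 : 0 < t)
    (h1 : t * ((Q : ℝ) + 1) < 1) : Gen (pert j r t) := by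
  have htau := tau_lt h0 h1
  have htau0 : 0 < t ^ (Q + 3) := by positivity
  have := Gen_pert (r := fun i a => (r i a : ℤ)) (d := dd Q j t) (m := m) ?_ ?_
  · unfold pert
    simpa using this
  · intro i a b hab
    have hab' : (a.val : ℝ) + 1 ≤ b.val := by exact_mod_cast hab
    have hb : (b.val : ℝ) ≤ Q := by exact_mod_cast (by omega : b.val ≤ Q)
    have hal : a ≠ Fin.last Q := (lt_of_lt_of_le hab (Fin.le_last b)).ne
    unfold dd
    rw [if_neg hal]
    split_ifs
    · nlinarith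
    · nlinarith
    · nlinarith
    · nlinarith
  · intro i a b hab
    have hab' : (a.val : ℝ) + 1 ≤ b.val := by exact_mod_cast hab
    have ha : (0 : ℝ) ≤ a.val := by positivity
    have hb : (b.val : ℝ) ≤ Q := by exact_mod_cast (by omega : b.val ≤ Q)
    have hal : a ≠ Fin.last Q := (lt_of_lt_of_le hab (Fin.le_last b)).ne
    unfold dd
    rw [if_neg hal]
    split_ifs
    · nlinarith
    · nlinarith
    · nlinarith
    · nlinarith

lemma erase_last_prod (f : Fin (Q + 1) → ℝ) :
    ∏ l ∈ univ.erase (Fin.last Q), f l = ∏ l : Fin Q, f l.castSucc := by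
  have h1 : ∏ l ∈ univ.erase (Fin.last Q), f l =
      ∏ l ∈ univ.erase (Fin.last Q), (if l = Fin.last Q then 1 else f l) := by
    refine Finset.prod_congr rfl (fun l hl => ?_)
    simp only [mem_erase, mem_univ, and_true] at hl
    rw [if_neg hl]
  rw [h1, Finset.prod_erase _ (by simp), Fin.prod_univ_castSucc]
  simp only [if_true, mul_one]
  refine Finset.prod_congr rfl (fun l _ => ?_)
  rw [if_neg (Fin.castSucc_lt_last l).ne]

/-- the two shifted sequences -/
noncomputable def wt (r : NSt m Q) (j : Fin (m + 3)) (t : ℝ) (k : Fin (Q + 1)) : ℝ :=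
  (prd r j k : ℝ) + t * ((Q : ℝ) - k.val) + t ^ (Q + 3)

noncomputable def yt (r : NSt m Q) (j : Fin (m + 3)) (t : ℝ) (k : Fin (Q + 1)) : ℝ :=
  (r j k : ℝ) + t * ((Q : ℝ) - k.val)

lemma pert_self (j : Fin (m + 3)) (r : NSt m Q) (t : ℝ) : pert j r t j = yt r j t := by
  funext k
  unfold pert dd yt
  rw [if_neg (sub_one_ne j).symm]

lemma pert_pred (j : Fin (m + 3)) (hj : j ≠ 0) (r : NSt m Q) (t : ℝ) :
    pert j r t (j - 1) = wt r j t := by
  funext k
  unfold pert dd wt prd
  rw [if_pos rfl, if_neg hj, if_neg hj]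
  ring

lemma pert_pred0 (r : NSt m Q) (t : ℝ) (l : Fin Q) :
    pert 0 r t (0 - 1) l.castSucc = wt r 0 t l.succ := by
  unfold pert dd wt prd
  rw [if_pos rfl, if_pos rfl, if_neg (Fin.castSucc_lt_last l).ne, if_pos rfl,
    if_neg (Fin.succ_ne_zero l), zero_sub_one]
  have e : l.succ - 1 = l.castSucc := by
    rw [← Fin.coeSucc_eq_succ, add_sub_cancel_right]
  rw [e]
  simp only [Fin.val_castSucc, Fin.val_succ]
  push_cast
  ring

lemma yt_lt_wt {r : NSt m Q} (hL : Leg r) (j : Fin (m + 3)) {t : ℝ} (h0 : 0 < t)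
    (k : Fin (Q + 1)) : yt r j t k < wt r j t k := by
  unfold yt wt
  have h := hL j k
  have h' : (r j k : ℝ) ≤ prd r j k := by exact_mod_cast h
  have : 0 < t ^ (Q + 3) := by positivity
  linarith

lemma wt_lt_yt {r : NSt m Q} (hL : Leg r) (j : Fin (m + 3)) {t : ℝ} (h0 : 0 < t)
    (h1 : t * ((Q : ℝ) + 1) < 1) {k l : Fin (Q + 1)} (hkl : k < l) : wt r j t l < yt r j t k := by
  unfold yt wt
  have h := prd_le hL j hkl
  have h' : (prd r j l : ℝ) ≤ r j k := by exact_mod_cast h
  have htau := tau_lt h0 h1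
  have hkl' : (k.val : ℝ) + 1 ≤ l.val := by exact_mod_cast hkl
  nlinarith

lemma yt_gap {r : NSt m Q} (hL : Leg r) (j : Fin (m + 3)) {t : ℝ} (h0 : 0 < t)
    {k l : Fin (Q + 1)} (hkl : k ≠ l) : t ≤ |yt r j t k - yt r j t l| := by
  have key : ∀ k l : Fin (Q + 1), k < l → t ≤ yt r j t k - yt r j t l := by
    intro k l hkl
    unfold yt
    have h := (hL j l).trans (prd_le hL j hkl)
    have h' : (r j l : ℝ) ≤ r j k := by exact_mod_cast h
    have hkl' : (k.val : ℝ) + 1 ≤ l.val := by exact_mod_cast hkl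
    nlinarith
  rcases lt_or_gt_of_ne hkl with h | h
  · exact (key k l h).trans (le_abs_self _)
  · rw [abs_sub_comm]
    exact (key l k h).trans (le_abs_self _)

/-- a bound for all the numerators -/
noncomputable def CC (r : NSt m Q) (j : Fin (m + 3)) : ℝ :=
  (∑ a, (r j a : ℝ)) + (∑ a, (prd r j a : ℝ)) + 3

lemma ytwt_bound {r : NSt m Q} (j : Fin (m + 3)) {t : ℝ} (h0 : 0 < t)
    (h1 : t * ((Q : ℝ) + 1) < 1) (k l : Fin (Q + 1)) : |yt r j t k - wt r j t l| ≤ CC r j := by
  have htau := tau_lt h0 h1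
  have htau0 : 0 < t ^ (Q + 3) := by positivity
  have b1 : (r j k : ℝ) ≤ ∑ a, (r j a : ℝ) :=
    Finset.single_le_sum (f := fun a => (r j a : ℝ)) (fun a _ => by positivity) (mem_univ k)
  have b2 : (prd r j l : ℝ) ≤ ∑ a, (prd r j a : ℝ) :=
    Finset.single_le_sum (f := fun a => (prd r j a : ℝ)) (fun a _ => by positivity) (mem_univ l)
  have n1 : (0 : ℝ) ≤ r j k := by positivity
  have n2 : (0 : ℝ) ≤ prd r j l := by positivity
  have hk : (k.val : ℝ) ≤ Q := by exact_mod_cast (by omega : k.val ≤ Q)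
  have hl : (l.val : ℝ) ≤ Q := by exact_mod_cast (by omega : l.val ≤ Q)
  have hk0 : (0 : ℝ) ≤ k.val := by positivity
  have hl0 : (0 : ℝ) ≤ l.val := by positivity
  have a1 : 0 ≤ t * ((Q : ℝ) - k.val) := mul_nonneg h0.le (by linarith)
  have a2 : t * ((Q : ℝ) - k.val) ≤ 1 := by nlinarith
  have a3 : 0 ≤ t * ((Q : ℝ) - l.val) := mul_nonneg h0.le (by linarith)
  have a4 : t * ((Q : ℝ) - l.val) ≤ 1 := by nlinarith
  have a5 : t ≤ 1 := by
    have : (0 : ℝ) ≤ Q := by positivity
    nlinarith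
  unfold yt wt CC
  rw [abs_le]
  constructor <;> linarith

/-- limiting weights for letter `j` -/
noncomputable def Wt (j : Fin (m + 3)) (r : NSt m Q) (t : ℝ) (k : Fin (Q + 1)) : ℝ :=
  sg j * aw (WW Q j) (pert j r t (j - 1)) (pert j r t j) k

theorem Wt_bound {r : NSt m Q} (hL : Leg r) (j : Fin (m + 3)) {t : ℝ} (h0 : 0 < t)
    (h1 : t * ((Q : ℝ) + 1) < 1) (k : Fin (Q + 1)) :
    0 ≤ Wt j r t k ∧ Wt j r t k ≤ (wt r j t k - yt r j t k) * (CC r j / t) ^ Q := by
  have hc := core h0 (yt_lt_wt hL j h0) (fun k l hkl => wt_lt_yt hL j h0 h1 hkl)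
    (fun k l hkl => yt_gap hL j h0 hkl) (ytwt_bound j h0 h1) k
  unfold Wt sg WW
  rw [pert_self]
  by_cases hj : j = 0
  · subst hj
    rw [if_pos rfl, if_pos rfl, one_mul]
    have hM : 1 ≤ wt r 0 t 0 - yt r 0 t k := by
      unfold wt yt prd
      rw [if_pos rfl, if_pos rfl]
      have hk : r 0 k ≤ r 0 0 := by
        apply Leg_mono hL (k.val * (m + 3))
        simp
      have hk' : (r 0 k : ℝ) ≤ r 0 0 := by exact_mod_cast hk
      have : 0 < t ^ (Q + 3) := by positivity
      have hk0 : (0 : ℝ) ≤ k.val := by positivity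
      push_cast
      simp only [Fin.val_zero, Nat.cast_zero]
      nlinarith
    have e : aw (univ.erase (Fin.last Q)) (pert 0 r t (0 - 1)) (yt r 0 t) k =
        (-aw univ (wt r 0 t) (yt r 0 t) k) / (wt r 0 t 0 - yt r 0 t k) := by
      rw [eq_div_iff (by linarith)]
      unfold aw
      rw [erase_last_prod, Fin.prod_univ_succ (fun l => yt r 0 t k - wt r 0 t l)]
      have : ∀ l : Fin Q, yt r 0 t k - pert 0 r t (0 - 1) l.castSucc =
          yt r 0 t k - wt r 0 t l.succ := fun l => by rw [pert_pred0]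
      rw [Finset.prod_congr rfl (fun l _ => this l)]
      ring
    rw [e]
    refine ⟨div_nonneg hc.1 (by linarith), le_trans ?_ hc.2⟩
    exact div_le_self hc.1 hM
  · rw [if_neg hj, if_neg hj, pert_pred j hj, neg_one_mul]
    exact hc

lemma Bd_pert (j : Fin (m + 3)) {r : NSt m Q} (hj : j = 0 → r (Fin.last (m + 2)) (Fin.last Q) = 0)
    (t : ℝ) : Bd j (pert j r t) := by
  intro h
  subst h
  unfold pert dd
  rw [if_pos rfl, if_pos rfl, if_pos rfl, zero_sub_one, hj rfl]
  simp

lemma Wt_sum {r : NSt m Q} (j : Fin (m + 3)) {t : ℝ} (h0 : 0 < t)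
    (h1 : t * ((Q : ℝ) + 1) < 1) :
    ∑ k, Wt j r t k = kap j [] (∑ a, pert j r t (j - 1) a) (∑ a, pert j r t j a) := by
  rw [← AA_one (Gen_pertS j r h0 h1)]
  unfold AA Wt
  rw [Finset.mul_sum]
  refine Finset.sum_congr rfl (fun k _ => ?_)
  ring

lemma kap_bound {r : NSt m Q} (j : Fin (m + 3)) {t : ℝ} (h0 : 0 < t)
    (h1 : t * ((Q : ℝ) + 1) < 1) :
    kap j [] (∑ a, pert j r t (j - 1) a) (∑ a, pert j r t j a) ≤
      (∑ a, (prd r j a : ℝ)) + 3 * ((Q : ℝ) + 1) := by
  have n0 : (0 : ℝ) ≤ ∑ a, (prd r j a : ℝ) := Finset.sum_nonneg (fun a _ => by positivity)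
  have hQ : (0 : ℝ) ≤ Q := by positivity
  unfold kap
  split_ifs with hj
  · linarith
  · simp only [kl, sub_zero]
    rw [pert_self, pert_pred j hj]
    have htau := tau_lt h0 h1
    have e1 : ∑ a, wt r j t a ≤ ∑ a, ((prd r j a : ℝ) + 3) := by
      apply Finset.sum_le_sum
      intro a _
      unfold wt
      have ha : (a.val : ℝ) ≤ Q := by exact_mod_cast (by omega : a.val ≤ Q)
      have ha0 : (0 : ℝ) ≤ a.val := by positivity
      have a5 : t ≤ 1 := by nlinarith
      nlinarith
    have e2 : 0 ≤ ∑ a, yt r j t a := by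
      apply Finset.sum_nonneg
      intro a _
      unfold yt
      have ha : (a.val : ℝ) ≤ Q := by exact_mod_cast (by omega : a.val ≤ Q)
      have : 0 ≤ t * ((Q : ℝ) - a.val) := mul_nonneg h0.le (by linarith)
      positivity
    rw [Finset.sum_add_distrib] at e1
    simp only [sum_const, card_univ, Fintype.card_fin, nsmul_eq_mul] at e1
    push_cast at e1
    linarith

end H553RK
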