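import Mathlib

open Finset Polynomial

namespace H553RK

variable {q : ℕ}

/-- raise coordinate `k` by one -/
noncomputable def up (y : Fin q → ℝ) (k : Fin q) : Fin q → ℝ := Function.update y k (y k + 1)

/-- lower the coordinates in `I` by one -/
noncomputable def dn (I : Finset (Fin q)) (y : Fin q → ℝ) : Fin q → ℝ :=
  fun a => if a ∈ I then y a - 1 else y a

/-- the interpolation weight -/
noncomputable def aw (Ws : Finset (Fin q)) (w y : Fin q → ℝ) (k : Fin q) : ℝ :=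
  (∏ l ∈ Ws, (y k - w l)) / ∏ l ∈ univ.erase k, (y k - y l)

/-- the part of the removal weight that involves one given class -/
noncomputable def phi (ex : ℕ) (J I L : Finset (Fin q)) (w y z : Fin q → ℝ) : ℝ :=
  ((∏ a ∈ J, ∏ l ∈ Iᶜ, (w a - y l)) * (∏ a ∈ I, ∏ l ∈ Lᶜ, (y a - z l)) * ∏ a ∈ I, (y a) ^ ex) /
    ∏ a ∈ I, ∏ l ∈ Iᶜ, (y a - y l)

lemma up_same (y : Fin q → ℝ) (k : Fin q) : up y k k = y k + 1 := by simp [up]

lemma up_ne (y : Fin q → ℝ) {k a : Fin q} (h : a ≠ k) : up y k a = y a := by simp [up, h]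

lemma dn_mem {I : Finset (Fin q)} (y : Fin q → ℝ) {a : Fin q} (h : a ∈ I) :
    dn I y a = y a - 1 := by simp [dn, h]

lemma dn_nmem {I : Finset (Fin q)} (y : Fin q → ℝ) {a : Fin q} (h : a ∉ I) :
    dn I y a = y a := by simp [dn, h]

lemma erase_split (I : Finset (Fin q)) {k : Fin q} (hk : k ∉ I) (g : Fin q → ℝ) :
    ∏ l ∈ univ.erase k, g l = (∏ l ∈ I, g l) * ∏ l ∈ Iᶜ.erase k, g l := by
  rw [← Finset.prod_union]
  · congr 1
    ext a
    simp only [mem_erase, mem_univ, and_true, mem_union, mem_compl]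
    constructor
    · intro h
      by_cases ha : a ∈ I
      · exact Or.inl ha
      · exact Or.inr ⟨h, ha⟩
    · rintro (h | h)
      · rintro rfl
        exact hk h
      · exact h.1
  · rw [Finset.disjoint_left]
    intro a ha hb
    simp only [mem_erase, mem_compl] at hb
    exact hb.2 ha

lemma compl_split (I : Finset (Fin q)) {k : Fin q} (hk : k ∉ I) (g : Fin q → ℝ) :
    ∏ l ∈ Iᶜ, g l = g k * ∏ l ∈ Iᶜ.erase k, g l := by
  rw [Finset.mul_prod_erase]
  simpa using hk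

theorem off_id (ex : ℕ) {Ws J I L : Finset (Fin q)} (w y z : Fin q → ℝ) {k : Fin q}
    (hk : k ∉ I) (hJ : J ⊆ Ws) :
    aw Ws w y k * phi ex J I L w (up y k) z =
      phi ex J I L w y z * aw Ws (dn J w) (dn I y) k := by
  have e1 : ∀ a ∈ I, up y k a = y a := fun a ha => up_ne y (fun h => hk (h ▸ ha))
  have e2 : dn I y k = y k := dn_nmem y hk
  have e3 : ∀ l ∈ Iᶜ.erase k, up y k l = y l := fun l hl => up_ne y (by
    simp only [mem_erase] at hl; exact hl.1)
  have e4 : ∀ l ∈ Iᶜ.erase k, dn I y l = y l := fun l hl => dn_nmem y (by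
    simp only [mem_erase, mem_compl] at hl; exact hl.2)
  unfold aw phi
  rw [div_mul_div_comm, div_mul_div_comm]
  congr 1
  · -- numerators
    rw [Finset.prod_congr rfl (fun a ha => by rw [e1 a ha] : ∀ a ∈ I, up y k a ^ ex = y a ^ ex)]
    rw [Finset.prod_congr rfl (fun a ha => by rw [e1 a ha] :
      ∀ a ∈ I, ∏ l ∈ Lᶜ, (up y k a - z l) = ∏ l ∈ Lᶜ, (y a - z l))]
    have h1 : ∀ a ∈ J, ∏ l ∈ Iᶜ, (w a - up y k l) =
        (w a - (y k + 1)) * ∏ l ∈ Iᶜ.erase k, (w a - y l) := by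
      intro a _
      rw [compl_split I hk, up_same]
      congr 1
      exact Finset.prod_congr rfl (fun l hl => by rw [e3 l hl])
    have h2 : ∀ a ∈ J, ∏ l ∈ Iᶜ, (w a - y l) =
        (w a - y k) * ∏ l ∈ Iᶜ.erase k, (w a - y l) := by
      intro a _
      rw [compl_split I hk]
    rw [Finset.prod_congr rfl h1, Finset.prod_congr rfl h2]
    rw [Finset.prod_mul_distrib, Finset.prod_mul_distrib]
    rw [← Finset.prod_sdiff hJ, ← Finset.prod_sdiff hJ]
    rw [e2]
    have h3 : ∏ l ∈ Ws \ J, (y k - dn J w l) = ∏ l ∈ Ws \ J, (y k - w l) :=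
      Finset.prod_congr rfl (fun l hl => by
        rw [dn_nmem w (by simp only [mem_sdiff] at hl; exact hl.2)])
    have h4 : ∏ l ∈ J, (y k - dn J w l) = ∏ l ∈ J, (y k - (w l - 1)) :=
      Finset.prod_congr rfl (fun l hl => by rw [dn_mem w hl])
    rw [h3, h4]
    have h5 : (∏ l ∈ J, (y k - w l)) * ∏ a ∈ J, (w a - (y k + 1)) =
        (∏ a ∈ J, (w a - y k)) * ∏ l ∈ J, (y k - (w l - 1)) := by
      rw [← Finset.prod_mul_distrib, ← Finset.prod_mul_distrib]
      exact Finset.prod_congr rfl (fun a _ => by ring)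
    linear_combination (∏ l ∈ Ws \ J, (y k - w l)) * (∏ a ∈ J, ∏ l ∈ Iᶜ.erase k, (w a - y l)) *
      (∏ a ∈ I, ∏ l ∈ Lᶜ, (y a - z l)) * (∏ a ∈ I, y a ^ ex) * h5
  · -- denominators
    have h1 : ∀ a ∈ I, ∏ l ∈ Iᶜ, (up y k a - up y k l) =
        (y a - (y k + 1)) * ∏ l ∈ Iᶜ.erase k, (y a - y l) := by
      intro a ha
      rw [compl_split I hk, up_same, e1 a ha]
      congr 1
      exact Finset.prod_congr rfl (fun l hl => by rw [e3 l hl])
    have h2 : ∀ a ∈ I, ∏ l ∈ Iᶜ, (y a - y l) =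
        (y a - y k) * ∏ l ∈ Iᶜ.erase k, (y a - y l) := by
      intro a _
      rw [compl_split I hk]
    rw [Finset.prod_congr rfl h1, Finset.prod_congr rfl h2]
    rw [Finset.prod_mul_distrib, Finset.prod_mul_distrib]
    rw [erase_split I hk, erase_split I hk, e2]
    have h3 : ∏ l ∈ Iᶜ.erase k, (y k - dn I y l) = ∏ l ∈ Iᶜ.erase k, (y k - y l) :=
      Finset.prod_congr rfl (fun l hl => by rw [e4 l hl])
    have h4 : ∏ l ∈ I, (y k - dn I y l) = ∏ l ∈ I, (y k - (y l - 1)) :=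
      Finset.prod_congr rfl (fun l hl => by rw [dn_mem y hl])
    rw [h3, h4]
    have h5 : (∏ l ∈ I, (y k - y l)) * ∏ a ∈ I, (y a - (y k + 1)) =
        (∏ a ∈ I, (y a - y k)) * ∏ l ∈ I, (y k - (y l - 1)) := by
      rw [← Finset.prod_mul_distrib, ← Finset.prod_mul_distrib]
      exact Finset.prod_congr rfl (fun a _ => by ring)
    linear_combination (∏ l ∈ Iᶜ.erase k, (y k - y l)) *
      (∏ a ∈ I, ∏ l ∈ Iᶜ.erase k, (y a - y l)) * h5

/-- the numerator polynomial of the diagonal terms -/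
noncomputable def NN (ex : ℕ) (Ws J L : Finset (Fin q)) (w z : Fin q → ℝ) : ℝ[X] :=
  (X - C (-1)) ^ ex * (∏ l ∈ Ws \ J, (X - C (w l))) * ∏ l ∈ Lᶜ, (X - C (z l - 1))

lemma neg_one_frac {a b c d e f : ℝ} {m n : ℕ} (h1 : a = (-1) ^ m * (c * e))
    (h2 : b = (-1) ^ n * (d * f)) :
    a / b = (-1) ^ (n + m) * (c / d) * (e / f) := by
  subst h1 h2
  have : ((-1 : ℝ) ^ n) ≠ 0 := by positivity
  have h : ((-1 : ℝ) ^ n)⁻¹ = (-1) ^ n := by
    rw [← inv_pow]; norm_num
  rw [mul_div_mul_comm, pow_add, div_eq_mul_inv ((-1:ℝ) ^ m), h, mul_assoc _ (c / d),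
    div_mul_div_comm]
  ring

theorem diag1 (ex : ℕ) {Ws J I L : Finset (Fin q)} (w y z : Fin q → ℝ) {k : Fin q}
    (hk : k ∉ I) (hJ : J ⊆ Ws) :
    aw Ws w y k * phi ex J (insert k I) L w (up y k) z =
      (-1) ^ (#I + #J) * phi ex J I L w y z *
        ((NN ex Ws J L w z).eval (y k) /
          ((∏ l ∈ Iᶜ.erase k, (y k - y l)) * ∏ l ∈ Iᶜ, (y k - (y l - 1)))) := by
  have e1 : ∀ a ∈ I, up y k a = y a := fun a ha => up_ne y (fun h => hk (h ▸ ha))
  have e3 : ∀ l ∈ Iᶜ.erase k, up y k l = y l := fun l hl => up_ne y (by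
    simp only [mem_erase] at hl; exact hl.1)
  unfold aw phi
  rw [div_mul_div_comm]
  apply neg_one_frac
  · rw [Finset.compl_insert, Finset.prod_insert hk, Finset.prod_insert hk, up_same]
    have h1 : ∏ a ∈ J, ∏ l ∈ Iᶜ.erase k, (w a - up y k l) =
        ∏ a ∈ J, ∏ l ∈ Iᶜ.erase k, (w a - y l) :=
      Finset.prod_congr rfl (fun a _ => Finset.prod_congr rfl (fun l hl => by rw [e3 l hl]))
    have h2 : ∏ a ∈ J, ∏ l ∈ Iᶜ, (w a - y l) =
        (∏ a ∈ J, (w a - y k)) * ∏ a ∈ J, ∏ l ∈ Iᶜ.erase k, (w a - y l) := by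
      rw [← Finset.prod_mul_distrib]
      exact Finset.prod_congr rfl (fun a _ => compl_split I hk _)
    have h3 : ∏ a ∈ I, ∏ l ∈ Lᶜ, (up y k a - z l) = ∏ a ∈ I, ∏ l ∈ Lᶜ, (y a - z l) :=
      Finset.prod_congr rfl (fun a ha => by rw [e1 a ha])
    have h4 : ∏ a ∈ I, up y k a ^ ex = ∏ a ∈ I, y a ^ ex :=
      Finset.prod_congr rfl (fun a ha => by rw [e1 a ha])
    rw [h1, h2, h3, h4, ← Finset.prod_sdiff hJ]
    have h5 : ∏ l ∈ J, (y k - w l) = (-1) ^ #J * ∏ l ∈ J, (w l - y k) := by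
      rw [← Finset.prod_const, ← Finset.prod_mul_distrib]
      exact Finset.prod_congr rfl (fun a _ => by ring)
    have h6 : (NN ex Ws J L w z).eval (y k) =
        (y k + 1) ^ ex * (∏ l ∈ Ws \ J, (y k - w l)) * ∏ l ∈ Lᶜ, (y k + 1 - z l) := by
      unfold NN
      rw [eval_mul, eval_mul, eval_prod, eval_prod, eval_pow]
      simp only [eval_sub, eval_X, eval_C]
      congr 1
      · congr 1
        ring
      · exact Finset.prod_congr rfl (fun a _ => by ring)
    rw [h5, h6]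
    ring
  · rw [Finset.compl_insert, Finset.prod_insert hk, up_same]
    have h1 : ∏ l ∈ Iᶜ.erase k, (y k + 1 - up y k l) = ∏ l ∈ Iᶜ.erase k, (y k + 1 - y l) :=
      Finset.prod_congr rfl (fun l hl => by rw [e3 l hl])
    have h2 : ∏ a ∈ I, ∏ l ∈ Iᶜ.erase k, (up y k a - up y k l) =
        ∏ a ∈ I, ∏ l ∈ Iᶜ.erase k, (y a - y l) :=
      Finset.prod_congr rfl (fun a ha => Finset.prod_congr rfl (fun l hl => by
        rw [e3 l hl, e1 a ha]))
    have h3 : ∏ a ∈ I, ∏ l ∈ Iᶜ, (y a - y l) =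
        (∏ a ∈ I, (y a - y k)) * ∏ a ∈ I, ∏ l ∈ Iᶜ.erase k, (y a - y l) := by
      rw [← Finset.prod_mul_distrib]
      exact Finset.prod_congr rfl (fun a _ => compl_split I hk _)
    have h4 : ∏ l ∈ Iᶜ, (y k - (y l - 1)) = ∏ l ∈ Iᶜ.erase k, (y k + 1 - y l) := by
      rw [compl_split I hk]
      rw [show y k - (y k - 1) = 1 by ring, one_mul]
      exact Finset.prod_congr rfl (fun a _ => by ring)
    have h5 : ∏ l ∈ I, (y k - y l) = (-1) ^ #I * ∏ l ∈ I, (y l - y k) := by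
      rw [← Finset.prod_const, ← Finset.prod_mul_distrib]
      exact Finset.prod_congr rfl (fun a _ => by ring)
    rw [erase_split I hk, h1, h2, h3, h4, h5]
    ring

theorem diag2 (ex : ℕ) {Ws J I L : Finset (Fin q)} (w y z : Fin q → ℝ) {k : Fin q}
    (hk : k ∉ I) (hJ : J ⊆ Ws) :
    phi ex J (insert k I) L w y z * aw Ws (dn J w) (dn (insert k I) y) k =
      - ((-1) ^ (#I + #J) * phi ex J I L w y z *
        ((NN ex Ws J L w z).eval (y k - 1) /
          ((∏ l ∈ Iᶜ, (y k - 1 - y l)) * ∏ l ∈ Iᶜ.erase k, (y k - 1 - (y l - 1))))) := by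
  have e2 : dn (insert k I) y k = y k - 1 := dn_mem y (by simp)
  have e3 : ∀ l ∈ Iᶜ.erase k, dn (insert k I) y l = y l := fun l hl => dn_nmem y (by
    simp only [mem_erase, mem_compl] at hl; simp [hl.1, hl.2])
  have e4 : ∀ l ∈ I, dn (insert k I) y l = y l - 1 := fun l hl => dn_mem y (by simp [hl])
  unfold aw phi
  rw [div_mul_div_comm, ← neg_mul, ← neg_mul]
  rw [show (-(-1 : ℝ) ^ (#I + #J)) = (-1) ^ ((#I + 1) + #J) by ring]
  apply neg_one_frac
  · rw [Finset.compl_insert, Finset.prod_insert hk, Finset.prod_insert hk, e2]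
    have h2 : ∏ a ∈ J, ∏ l ∈ Iᶜ, (w a - y l) =
        (∏ a ∈ J, (w a - y k)) * ∏ a ∈ J, ∏ l ∈ Iᶜ.erase k, (w a - y l) := by
      rw [← Finset.prod_mul_distrib]
      exact Finset.prod_congr rfl (fun a _ => compl_split I hk _)
    rw [h2, ← Finset.prod_sdiff hJ]
    have h3 : ∏ l ∈ Ws \ J, (y k - 1 - dn J w l) = ∏ l ∈ Ws \ J, (y k - 1 - w l) :=
      Finset.prod_congr rfl (fun l hl => by
        rw [dn_nmem w (by simp only [mem_sdiff] at hl; exact hl.2)])
    have h5 : ∏ l ∈ J, (y k - 1 - dn J w l) = (-1) ^ #J * ∏ l ∈ J, (w l - y k) := by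
      rw [← Finset.prod_const, ← Finset.prod_mul_distrib]
      exact Finset.prod_congr rfl (fun a ha => by rw [dn_mem w ha]; ring)
    have h6 : (NN ex Ws J L w z).eval (y k - 1) =
        (y k) ^ ex * (∏ l ∈ Ws \ J, (y k - 1 - w l)) * ∏ l ∈ Lᶜ, (y k - z l) := by
      unfold NN
      rw [eval_mul, eval_mul, eval_prod, eval_prod, eval_pow]
      simp only [eval_sub, eval_X, eval_C]
      congr 1
      · congr 1
        ring
      · exact Finset.prod_congr rfl (fun a _ => by ring)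
    rw [h3, h5, h6]
    ring
  · rw [Finset.compl_insert, Finset.prod_insert hk, erase_split I hk, e2]
    have h1 : ∏ l ∈ Iᶜ.erase k, (y k - 1 - dn (insert k I) y l) =
        ∏ l ∈ Iᶜ.erase k, (y k - 1 - y l) :=
      Finset.prod_congr rfl (fun l hl => by rw [e3 l hl])
    have h3 : ∏ a ∈ I, ∏ l ∈ Iᶜ, (y a - y l) =
        (∏ a ∈ I, (y a - y k)) * ∏ a ∈ I, ∏ l ∈ Iᶜ.erase k, (y a - y l) := by
      rw [← Finset.prod_mul_distrib]
      exact Finset.prod_congr rfl (fun a _ => compl_split I hk _)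
    have h4 : ∏ l ∈ Iᶜ, (y k - 1 - y l) = - ∏ l ∈ Iᶜ.erase k, (y k - 1 - y l) := by
      rw [compl_split I hk]
      ring
    have h5 : ∏ l ∈ I, (y k - 1 - dn (insert k I) y l) = (-1) ^ #I * ∏ l ∈ I, (y l - y k) := by
      rw [← Finset.prod_const, ← Finset.prod_mul_distrib]
      exact Finset.prod_congr rfl (fun a ha => by rw [e4 a ha]; ring)
    have h6 : ∏ l ∈ Iᶜ.erase k, (y k - 1 - (y l - 1)) = ∏ l ∈ Iᶜ.erase k, (y k - y l) :=
      Finset.prod_congr rfl (fun l _ => by ring)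
    rw [h1, h3, h4, h5, h6]
    ring

lemma erase_inl (s : Finset (Fin q)) (k : Fin q) :
    (s.disjSum s).erase (Sum.inl k) = (s.erase k).disjSum s := by
  ext x
  rcases x with x | x <;> simp

lemma erase_inr (s : Finset (Fin q)) (k : Fin q) :
    (s.disjSum s).erase (Sum.inr k) = s.disjSum (s.erase k) := by
  ext x
  rcases x with x | x <;> simp

theorem lag (S : Finset (Fin q)) (y : Fin q → ℝ)
    (hg : ∀ a b, a ≠ b → y a ≠ y b ∧ y a ≠ y b - 1) (P : ℝ[X]) (hP : P.degree < (#S + #S : ℕ)) :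
    ∑ k ∈ S, (P.eval (y k) / ((∏ l ∈ S.erase k, (y k - y l)) * ∏ l ∈ S, (y k - (y l - 1))) +
      P.eval (y k - 1) / ((∏ l ∈ S, (y k - 1 - y l)) * ∏ l ∈ S.erase k, (y k - 1 - (y l - 1)))) =
      P.coeff (#S + #S - 1) := by
  have hinj : Set.InjOn (Sum.elim y (fun l => y l - 1)) (S.disjSum S : Finset (Fin q ⊕ Fin q)) := by
    intro a _ b _ hab
    rcases a with a | a <;> rcases b with b | b <;> simp only [Sum.elim_inl, Sum.elim_inr] at hab
    · by_contra hne
      exact (hg a b (fun h => hne (by rw [h]))).1 hab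
    · exfalso
      by_cases h : a = b
      · subst h; linarith
      · exact (hg a b h).2 hab
    · exfalso
      by_cases h : a = b
      · subst h; linarith
      · exact (hg b a (Ne.symm h)).2 hab.symm
    · by_contra hne
      exact (hg a b (fun h => hne (by rw [h]))).1 (by linarith)
  have h := Lagrange.coeff_eq_sum hinj (P := P) (by rw [Finset.card_disjSum]; exact_mod_cast hP)
  rw [Finset.card_disjSum] at h
  rw [h, Finset.sum_disjSum, Finset.sum_add_distrib]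
  congr 1
  · refine Finset.sum_congr rfl (fun k _ => ?_)
    rw [erase_inl, Finset.prod_disjSum]
    simp only [Sum.elim_inl, Sum.elim_inr]
  · refine Finset.sum_congr rfl (fun k _ => ?_)
    rw [erase_inr, Finset.prod_disjSum]
    simp only [Sum.elim_inl, Sum.elim_inr]

lemma NN_monic (ex : ℕ) (Ws J L : Finset (Fin q)) (w z : Fin q → ℝ) :
    (NN ex Ws J L w z).Monic := by
  unfold NN
  refine Monic.mul (Monic.mul ((monic_X_sub_C _).pow _) ?_) ?_
  · exact monic_prod_of_monic _ _ (fun a _ => monic_X_sub_C _)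
  · exact monic_prod_of_monic _ _ (fun a _ => monic_X_sub_C _)

lemma NN_natDegree (ex : ℕ) (Ws J L : Finset (Fin q)) (w z : Fin q → ℝ) :
    (NN ex Ws J L w z).natDegree = ex + #(Ws \ J) + #Lᶜ := by
  unfold NN
  rw [Monic.natDegree_mul, Monic.natDegree_mul, Monic.natDegree_pow, natDegree_X_sub_C,
    natDegree_prod_of_monic, natDegree_prod_of_monic]
  · simp only [natDegree_X_sub_C, sum_const, smul_eq_mul, mul_one]
  · exact fun a _ => monic_X_sub_C _
  · exact fun a _ => monic_X_sub_C _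
  · exact monic_X_sub_C _
  · exact (monic_X_sub_C _).pow _
  · exact monic_prod_of_monic _ _ (fun a _ => monic_X_sub_C _)
  · exact Monic.mul ((monic_X_sub_C _).pow _) (monic_prod_of_monic _ _ (fun a _ => monic_X_sub_C _))
  · exact monic_prod_of_monic _ _ (fun a _ => monic_X_sub_C _)

theorem diag_sum (ex : ℕ) {Ws J I L : Finset (Fin q)} (w y z : Fin q → ℝ)
    (hg : ∀ a b, a ≠ b → y a ≠ y b ∧ y a ≠ y b - 1) (hJ : J ⊆ Ws)
    (hd : ex + #(Ws \ J) + #Lᶜ + 1 ≤ #Iᶜ + #Iᶜ) :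
    ∑ k ∈ Iᶜ, (aw Ws w y k * phi ex J (insert k I) L w (up y k) z -
      phi ex J (insert k I) L w y z * aw Ws (dn J w) (dn (insert k I) y) k) =
    (-1) ^ (#I + #J) * phi ex J I L w y z *
      (if ex + #(Ws \ J) + #Lᶜ + 1 = #Iᶜ + #Iᶜ then 1 else 0) := by
  have h1 : ∀ k ∈ Iᶜ, (aw Ws w y k * phi ex J (insert k I) L w (up y k) z -
      phi ex J (insert k I) L w y z * aw Ws (dn J w) (dn (insert k I) y) k) =
      ((-1) ^ (#I + #J) * phi ex J I L w y z) *
      ((NN ex Ws J L w z).eval (y k) /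
          ((∏ l ∈ Iᶜ.erase k, (y k - y l)) * ∏ l ∈ Iᶜ, (y k - (y l - 1))) +
       (NN ex Ws J L w z).eval (y k - 1) /
          ((∏ l ∈ Iᶜ, (y k - 1 - y l)) * ∏ l ∈ Iᶜ.erase k, (y k - 1 - (y l - 1)))) := by
    intro k hk
    have hk' : k ∉ I := by simpa using hk
    rw [diag1 ex w y z hk' hJ, diag2 ex w y z hk' hJ]
    ring
  rw [Finset.sum_congr rfl h1, ← Finset.mul_sum]
  congr 1
  have hnd := NN_natDegree ex Ws J L w z
  have hm := NN_monic ex Ws J L w z
  rw [lag Iᶜ y hg]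
  · split_ifs with h
    · have : #Iᶜ + #Iᶜ - 1 = (NN ex Ws J L w z).natDegree := by omega
      rw [this]
      exact hm.coeff_natDegree
    · exact coeff_eq_zero_of_natDegree_lt (by omega)
  · rw [degree_eq_natDegree hm.ne_zero]
    exact_mod_cast (by omega : (NN ex Ws J L w z).natDegree < #Iᶜ + #Iᶜ)

theorem aw_sum_one {Ws : Finset (Fin q)} (w y : Fin q → ℝ) (hy : ∀ a b, a ≠ b → y a ≠ y b)
    (hW : #Ws + 1 = q) : ∑ k, aw Ws w y k = 1 := by
  have hinj : Set.InjOn y (univ : Finset (Fin q)) := fun a _ b _ hab => by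
    by_contra hne
    exact hy a b hne hab
  have hm : (∏ l ∈ Ws, (X - C (w l)) : ℝ[X]).Monic :=
    monic_prod_of_monic _ _ (fun a _ => monic_X_sub_C _)
  have hnd : (∏ l ∈ Ws, (X - C (w l)) : ℝ[X]).natDegree = #Ws := by
    rw [natDegree_prod_of_monic _ _ (fun a _ => monic_X_sub_C _)]
    simp
  have h := Lagrange.coeff_eq_sum hinj (P := ∏ l ∈ Ws, (X - C (w l))) (by
    rw [degree_eq_natDegree hm.ne_zero, hnd]
    simp only [card_univ, Fintype.card_fin]
    exact_mod_cast (by omega : #Ws < q))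
  unfold aw
  have h2 : ∑ k, (∏ l ∈ Ws, (y k - w l)) / ∏ l ∈ univ.erase k, (y k - y l) =
      ∑ k, (∏ l ∈ Ws, (X - C (w l)) : ℝ[X]).eval (y k) / ∏ l ∈ univ.erase k, (y k - y l) := by
    refine Finset.sum_congr rfl (fun k _ => ?_)
    rw [eval_prod]
    simp only [eval_sub, eval_X, eval_C]
  rw [h2, ← h]
  simp only [card_univ, Fintype.card_fin]
  rw [show q - 1 = (∏ l ∈ Ws, (X - C (w l)) : ℝ[X]).natDegree by omega]
  exact hm.coeff_natDegree

theorem aw_sum_diff (w y : Fin (q + 1) → ℝ) (hy : ∀ a b, a ≠ b → y a ≠ y b) :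
    ∑ k, aw univ w y k = (∑ a, y a) - ∑ a, w a := by
  have hinj : Set.InjOn y (univ : Finset (Fin (q + 1))) := fun a _ b _ hab => by
    by_contra hne
    exact hy a b hne hab
  set P : ℝ[X] := ∏ l, (X - C (w l)) with hPdef
  set R : ℝ[X] := ∏ l, (X - C (y l)) with hRdef
  have hm : P.Monic := monic_prod_of_monic _ _ (fun a _ => monic_X_sub_C _)
  have hmR : R.Monic := monic_prod_of_monic _ _ (fun a _ => monic_X_sub_C _)
  have hnd : P.natDegree = q + 1 := by
    rw [hPdef, natDegree_prod_of_monic _ _ (fun a _ => monic_X_sub_C _)]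
    simp
  have hndR : R.natDegree = q + 1 := by
    rw [hRdef, natDegree_prod_of_monic _ _ (fun a _ => monic_X_sub_C _)]
    simp
  have hdeg : (P - R).degree < (q + 1 : ℕ) := by
    rw [← hnd, ← degree_eq_natDegree hm.ne_zero]
    apply degree_sub_lt_left
    · rw [degree_eq_natDegree hm.ne_zero, degree_eq_natDegree hmR.ne_zero, hnd, hndR]
    · exact hm.ne_zero
    · rw [hm.leadingCoeff, hmR.leadingCoeff]
  have h := Lagrange.coeff_eq_sum hinj (P := P - R) (by
    simpa only [card_univ, Fintype.card_fin] using hdeg)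
  unfold aw
  have h2 : ∑ k, (∏ l, (y k - w l)) / ∏ l ∈ univ.erase k, (y k - y l) =
      ∑ k, (P - R).eval (y k) / ∏ l ∈ univ.erase k, (y k - y l) := by
    refine Finset.sum_congr rfl (fun k _ => ?_)
    rw [eval_sub, hPdef, hRdef, eval_prod, eval_prod]
    simp only [eval_sub, eval_X, eval_C]
    rw [show ∏ l, (y k - y l) = 0 from Finset.prod_eq_zero (mem_univ k) (sub_self _), sub_zero]
  rw [h2, ← h, coeff_sub]
  have c1 := prod_X_sub_C_coeff_card_pred (univ : Finset (Fin (q+1))) w (by simp)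
  have c2 := prod_X_sub_C_coeff_card_pred (univ : Finset (Fin (q+1))) y (by simp)
  rw [← hPdef] at c1
  rw [← hRdef] at c2
  rw [c1, c2]
  ring

end H553RK
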