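import Pool.Agent.Helper553_RK.WordPos

open Finset

namespace H553RK

variable {m Q N : ℕ}

/-- counting with set letters -/
noncomputable def cntS : List (Finset (Fin (m + 3))) → List ℕ → ℝ
  | [], π => if π.sum = 0 then 1 else 0
  | S :: v, π => ∑ j ∈ S, dsum m j.val (cntS v) π

lemma cntS_expand (v : List (Finset (Fin (m + 3)))) :
    ∃ (ι : Type) (_ : Fintype ι) (w : ι → List (Fin (m + 3))),
      (∀ t, (w t).length = v.length) ∧ ∀ π, cntS v π = ∑ t, cnt (w t) π := by
  induction v with
  | nil => exact ⟨Unit, inferInstance, fun _ => [], fun _ => rfl, fun π => by simp [cntS, cnt]⟩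
  | cons S v ih =>
    obtain ⟨ι, hι, w, hl, hw⟩ := ih
    refine ⟨S × ι, inferInstance, fun x => x.1.1 :: w x.2, fun x => by simp [hl], fun π => ?_⟩
    simp only [cntS]
    rw [Fintype.sum_prod_type]
    simp only [cnt]
    rw [← Finset.sum_coe_sort S]
    refine Finset.sum_congr rfl (fun j _ => ?_)
    have h := dsum_sum (m := m) j.1.val (univ : Finset ι) (fun _ => (1 : ℝ)) π
      (fun t => cnt (w t))
    simp only [one_mul] at h
    rw [← h]
    congr 1
    funext π'
    exact hw π'

theorem set_pos (n : ℕ) (v : List (Finset (Fin (m + 3)))) (hv : v.length = (m + 3) * n) :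
    ∃ d : n.Partition → ℝ, (∀ l, 0 ≤ d l) ∧ ∀ (N : ℕ) (ν : Fin N →₀ ℕ), ∑ i, ν i = n →
      cntS v (List.ofFn (fun i => (m + 3) * ν i)) =
        ∑ l, d l * MvPolynomial.coeff ν (MvPolynomial.esymmPart (Fin N) ℝ l) := by
  obtain ⟨ι, hι, w, hl, hw⟩ := cntS_expand v
  choose d hd0 hd using fun t => word_pos n (w t) (by rw [hl t, hv])
  refine ⟨fun l => ∑ t, d t l, fun l => Finset.sum_nonneg (fun t _ => hd0 t l), ?_⟩
  intro N ν hν
  rw [hw, Finset.sum_congr rfl (fun t _ => hd t N ν hν), Finset.sum_comm]
  refine Finset.sum_congr rfl (fun l _ => ?_)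
  rw [Finset.sum_mul]

lemma dsum_ofFn (j : ℕ) : ∀ (N : ℕ) (g : List ℕ → ℝ) (p : Fin N → ℕ),
    dsum m j g (List.ofFn p) = ∑ i, if 1 ≤ p i ∧ (p i - 1) % (m + 3) = j then
      g (List.ofFn (Function.update p i (p i - 1))) else 0 := by
  intro N
  induction N with
  | zero => intro g p; simp [dsum]
  | succ N ih =>
    intro g p
    rw [List.ofFn_succ, Fin.sum_univ_succ]
    simp only [dsum]
    congr 1
    · congr 1
      rw [List.ofFn_succ, Function.update_self]
      congr 1
    · rw [ih]
      refine Finset.sum_congr rfl (fun i _ => ?_)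
      congr 1
      rw [List.ofFn_succ (f := Function.update p i.succ (p i.succ - 1))]
      congr 1
      congr 1
      congr 1
      funext j
      by_cases hj : j = i
      · subst hj
        simp
      · rw [Function.update_of_ne hj,
          Function.update_of_ne (fun h => hj (Fin.succ_injective _ h))]

/-- parity removal operator -/
noncomputable def Dp (b : ℕ) (g : (Fin N → ℕ) → ℝ) (p : Fin N → ℕ) : ℝ :=
  ∑ i, if 1 ≤ p i ∧ (p i - 1) % 2 = b then g (Function.update p i (p i - 1)) else 0

/-- letters of given parity -/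
def Sb (m b : ℕ) : Finset (Fin (m + 3)) := univ.filter fun j => j.val % 2 = b

lemma cntS_cons_ofFn {k : ℕ} (hk : m + 3 = 2 * k) (b : ℕ) (v : List (Finset (Fin (m + 3))))
    (p : Fin N → ℕ) : cntS (Sb m b :: v) (List.ofFn p) =
      Dp b (fun p' => cntS v (List.ofFn p')) p := by
  simp only [cntS]
  unfold Dp
  simp_rw [dsum_ofFn]
  rw [Finset.sum_comm]
  refine Finset.sum_congr rfl (fun i _ => ?_)
  have hd : (2 : ℕ) ∣ m + 3 := ⟨k, hk⟩
  by_cases h : 1 ≤ p i ∧ (p i - 1) % 2 = b
  · rw [if_pos h]
    rw [Finset.sum_eq_single (⟨(p i - 1) % (m + 3), Nat.mod_lt _ (by omega)⟩ : Fin (m + 3))]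
    · rw [if_pos ⟨h.1, rfl⟩]
    · intro j _ hj
      rw [if_neg]
      rintro ⟨_, h2⟩
      apply hj
      apply Fin.ext
      exact h2.symm
    · intro hn
      exfalso
      apply hn
      simp only [Sb, mem_filter, mem_univ, true_and]
      rw [Nat.mod_mod_of_dvd _ hd]
      exact h.2
  · rw [if_neg h]
    apply Finset.sum_eq_zero
    intro j hj
    rw [if_neg]
    rintro ⟨h1, h2⟩
    apply h
    refine ⟨h1, ?_⟩
    simp only [Sb, mem_filter, mem_univ, true_and] at hj
    rw [← h2, Nat.mod_mod_of_dvd _ hd] at hj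
    exact hj

lemma cntS_replicate {k : ℕ} (hk : m + 3 = 2 * k) (b : ℕ) (c : ℕ)
    (v : List (Finset (Fin (m + 3)))) :
    (fun p : Fin N → ℕ => cntS (List.replicate c (Sb m b) ++ v) (List.ofFn p)) =
      (Dp b)^[c] (fun p => cntS v (List.ofFn p)) := by
  induction c with
  | zero => rfl
  | succ c ih =>
    rw [Function.iterate_succ_apply', ← ih]
    funext p
    rw [List.replicate_succ, List.cons_append, cntS_cons_ofFn hk]

/-- doubled configuration with lowered entries -/
def st (ρ : Fin N → ℕ) (T S : Finset (Fin N)) : Fin N → ℕ :=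
  fun i => 2 * ρ i - (if i ∈ T then 1 else 0) - (if i ∈ S then 1 else 0)

lemma lemE (ρ : Fin N → ℕ) (g : (Fin N → ℕ) → ℝ) {T : Finset (Fin N)}
    (hT : ∀ i ∈ T, ρ i ≠ 0) : ∀ (a : ℕ) (S : Finset (Fin N)), S ⊆ T → #(T \ S) = a →
    (Dp 0)^[a] g (st ρ T S) = (a.factorial : ℝ) * g (st ρ T T) := by
  intro a
  induction a with
  | zero =>
    intro S hS hc
    have h1 : T ⊆ S := by
      rw [Finset.card_eq_zero, Finset.sdiff_eq_empty_iff_subset] at hc
      exact hc
    rw [Finset.Subset.antisymm hS h1]
    simp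
  | succ a ih =>
    intro S hS hc
    rw [Function.iterate_succ_apply']
    unfold Dp
    have h1 : ∀ i, (if 1 ≤ st ρ T S i ∧ (st ρ T S i - 1) % 2 = 0 then
        (Dp 0)^[a] g (Function.update (st ρ T S) i (st ρ T S i - 1)) else 0) =
        if i ∈ T \ S then (a.factorial : ℝ) * g (st ρ T T) else 0 := by
      intro i
      by_cases hi : i ∈ T \ S
      · have hi' := mem_sdiff.mp hi
        have hr := hT i hi'.1
        have hv : st ρ T S i = 2 * ρ i - 1 := by
          unfold st
          rw [if_pos hi'.1, if_neg hi'.2]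
          omega
        have hu : Function.update (st ρ T S) i (st ρ T S i - 1) = st ρ T (insert i S) := by
          funext x
          by_cases hx : x = i
          · subst hx
            rw [Function.update_self]
            unfold st
            simp [hi'.1, hi'.2]
          · rw [Function.update_of_ne hx]
            unfold st
            simp [hx]
        rw [if_pos hi, if_pos (by rw [hv]; omega), hu]
        apply ih
        · intro x hx
          rw [mem_insert] at hx
          rcases hx with rfl | hx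
          · exact hi'.1
          · exact hS hx
        · rw [Finset.sdiff_insert, Finset.card_erase_of_mem hi, hc]
          rfl
      · rw [if_neg hi, if_neg]
        rintro ⟨h1, h2⟩
        apply hi
        rw [mem_sdiff]
        unfold st at h1 h2
        by_cases h3 : i ∈ T
        · by_cases h4 : i ∈ S
          · rw [if_pos h3, if_pos h4] at h1 h2
            omega
          · exact ⟨h3, h4⟩
        · have h4 : i ∉ S := fun h => h3 (hS h)
          rw [if_neg h3, if_neg h4] at h1 h2
          omega
    have h2 : (∑ i, if 1 ≤ st ρ T S i ∧ (st ρ T S i - 1) % 2 = 0 then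
        (Dp 0)^[a] g (Function.update (st ρ T S) i (st ρ T S i - 1)) else 0) =
        ∑ i, if i ∈ T \ S then (a.factorial : ℝ) * g (st ρ T T) else 0 :=
      Finset.sum_congr rfl (fun i _ => h1 i)
    unfold Dp at h2
    rw [h2, Finset.sum_ite_mem, Finset.univ_inter, Finset.sum_const, hc, nsmul_eq_mul,
      Nat.factorial_succ]
    push_cast
    ring

lemma dcount (A : Finset (Fin N)) (a : ℕ) (F : Finset (Fin N) → ℝ) :
    ∑ i ∈ A, ∑ U ∈ powersetCard a (A.erase i), F (insert i U) =
      ((a : ℝ) + 1) * ∑ U ∈ powersetCard (a + 1) A, F U := by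
  have h1 : ((a : ℝ) + 1) * ∑ U ∈ powersetCard (a + 1) A, F U =
      ∑ U ∈ powersetCard (a + 1) A, ∑ _i ∈ U, F U := by
    rw [Finset.mul_sum]
    refine Finset.sum_congr rfl (fun U hU => ?_)
    rw [mem_powersetCard] at hU
    rw [Finset.sum_const, hU.2, nsmul_eq_mul]
    push_cast
    ring
  rw [h1, Finset.sum_sigma', Finset.sum_sigma']
  refine Finset.sum_bij' (fun x _ => ⟨insert x.1 x.2, x.1⟩) (fun x _ => ⟨x.2, x.1.erase x.2⟩)
    ?_ ?_ ?_ ?_ ?_
  · rintro ⟨i, U⟩ h
    simp only [mem_sigma, mem_powersetCard] at h ⊢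
    have hi : i ∉ U := fun hi => by
      have := h.2.1 hi
      simp at this
    refine ⟨⟨?_, ?_⟩, mem_insert_self _ _⟩
    · intro x hx
      rw [mem_insert] at hx
      rcases hx with rfl | hx
      · exact h.1
      · exact Finset.erase_subset _ _ (h.2.1 hx)
    · rw [Finset.card_insert_of_notMem hi, h.2.2]
  · rintro ⟨U, i⟩ h
    simp only [mem_sigma, mem_powersetCard] at h ⊢
    refine ⟨h.1.1 h.2, Finset.erase_subset_erase _ h.1.1, ?_⟩
    rw [Finset.card_erase_of_mem h.2, h.1.2]
    rfl
  · rintro ⟨i, U⟩ h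
    simp only [mem_sigma, mem_powersetCard] at h
    have hi : i ∉ U := fun hi => by
      have := h.2.1 hi
      simp at this
    simp [Finset.erase_insert hi]
  · rintro ⟨U, i⟩ h
    simp only [mem_sigma, mem_powersetCard] at h
    simp [Finset.insert_erase h.2]
  · rintro ⟨i, U⟩ _
    rfl

lemma lemO (ρ : Fin N → ℕ) (h : (Fin N → ℕ) → ℝ) : ∀ (a : ℕ) (T : Finset (Fin N)),
    (∀ i ∈ T, ρ i ≠ 0) → (Dp 1)^[a] h (st ρ T ∅) = (a.factorial : ℝ) *
      ∑ U ∈ powersetCard a ((univ.filter fun i => ρ i ≠ 0) \ T), h (st ρ (T ∪ U) ∅) := by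
  intro a
  induction a with
  | zero =>
    intro T _
    simp
  | succ a ih =>
    intro T hT
    rw [Function.iterate_succ_apply']
    unfold Dp
    set A := (univ.filter fun i => ρ i ≠ 0) \ T with hA
    have h1 : ∀ i, (if 1 ≤ st ρ T ∅ i ∧ (st ρ T ∅ i - 1) % 2 = 1 then
        (Dp 1)^[a] h (Function.update (st ρ T ∅) i (st ρ T ∅ i - 1)) else 0) =
        if i ∈ A then (a.factorial : ℝ) *
          ∑ U ∈ powersetCard a (A.erase i), h (st ρ (T ∪ insert i U) ∅) else 0 := by
      intro i
      by_cases hi : i ∈ A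
      · have hi' := mem_sdiff.mp hi
        have hr : ρ i ≠ 0 := by simpa using hi'.1
        have hv : st ρ T ∅ i = 2 * ρ i := by
          unfold st
          rw [if_neg hi'.2, if_neg (Finset.notMem_empty _)]
          omega
        have hu : Function.update (st ρ T ∅) i (st ρ T ∅ i - 1) = st ρ (insert i T) ∅ := by
          funext x
          by_cases hx : x = i
          · subst hx
            rw [Function.update_self]
            unfold st
            simp [hi'.2]
          · rw [Function.update_of_ne hx]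
            unfold st
            simp [hx]
        rw [if_pos hi, if_pos (by rw [hv]; omega), hu, ih]
        · rw [Finset.sdiff_insert]
          congr 1
          refine Finset.sum_congr rfl (fun U _ => ?_)
          rw [Finset.insert_union, Finset.union_insert]
        · intro x hx
          rw [mem_insert] at hx
          rcases hx with rfl | hx
          · exact hr
          · exact hT x hx
      · rw [if_neg hi, if_neg]
        rintro ⟨h1, h2⟩
        apply hi
        rw [hA, mem_sdiff]
        unfold st at h1 h2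
        by_cases h3 : i ∈ T
        · rw [if_pos h3, if_neg (Finset.notMem_empty _)] at h1 h2
          omega
        · rw [if_neg h3, if_neg (Finset.notMem_empty _)] at h1 h2
          refine ⟨?_, h3⟩
          simp only [mem_filter, mem_univ, true_and]
          omega
    have h2 : (∑ i, if 1 ≤ st ρ T ∅ i ∧ (st ρ T ∅ i - 1) % 2 = 1 then
        (Dp 1)^[a] h (Function.update (st ρ T ∅) i (st ρ T ∅ i - 1)) else 0) =
        ∑ i, if i ∈ A then (a.factorial : ℝ) *
          ∑ U ∈ powersetCard a (A.erase i), h (st ρ (T ∪ insert i U) ∅) else 0 :=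
      Finset.sum_congr rfl (fun i _ => h1 i)
    unfold Dp at h2
    rw [h2, Finset.sum_ite_mem, Finset.univ_inter, ← Finset.mul_sum,
      dcount A a (fun U => h (st ρ (T ∪ U) ∅)), Nat.factorial_succ]
    push_cast
    ring

/-- the set word attached to a list -/
def pat (m : ℕ) : List ℕ → List (Finset (Fin (m + 3)))
  | [] => []
  | c :: μ => List.replicate c (Sb m 1) ++ (List.replicate c (Sb m 0) ++ pat m μ)

lemma pat_length (μ : List ℕ) : (pat m μ).length = 2 * μ.sum := by
  induction μ with
  | nil => rfl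
  | cons c μ ih =>
    simp only [pat, List.length_append, List.length_replicate, ih, List.sum_cons]
    ring

theorem pat_eval {k : ℕ} (hk : m + 3 = 2 * k) (μ : List ℕ) : ∀ ρ : Fin N →₀ ℕ,
    cntS (pat m μ) (List.ofFn (fun i => 2 * ρ i)) =
      (μ.map (fun c => ((c.factorial : ℝ)) ^ 2)).prod *
        MvPolynomial.coeff ρ ((μ.map (fun c => MvPolynomial.esymm (Fin N) ℝ c)).prod) := by
  induction μ with
  | nil =>
    intro ρ
    simp only [pat, cntS, List.map_nil, List.prod_nil, one_mul]
    rw [List.sum_ofFn, MvPolynomial.coeff_one]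
    congr 1
    simp only [eq_iff_iff, Finset.sum_eq_zero_iff, mem_univ, true_implies]
    constructor
    · intro h
      ext i
      have := h i
      simp only [Finsupp.coe_zero, Pi.zero_apply]
      omega
    · intro h i
      rw [← h]
      simp
  | cons c μ ih =>
    intro ρ
    simp only [pat, List.map_cons, List.prod_cons]
    have h1 := congrFun (cntS_replicate (N := N) hk 1 c (List.replicate c (Sb m 0) ++ pat m μ))
      (fun i => 2 * ρ i)
    rw [h1, cntS_replicate (N := N) hk 0 c (pat m μ)]
    have h2 : (fun i => 2 * ρ i) = st (fun i => ρ i) (∅ : Finset (Fin N)) ∅ := by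
      funext i
      simp [st]
    rw [h2, lemO _ _ c ∅ (by simp)]
    simp only [Finset.sdiff_empty, Finset.empty_union]
    have h3 : ∀ U ∈ powersetCard c (univ.filter fun i => ρ i ≠ 0),
        (Dp 0)^[c] (fun p => cntS (pat m μ) (List.ofFn p)) (st (fun i => ρ i) U ∅) =
        (c.factorial : ℝ) * ((μ.map (fun c => ((c.factorial : ℝ)) ^ 2)).prod *
        MvPolynomial.coeff (ρ - ind U)
          ((μ.map (fun c => MvPolynomial.esymm (Fin N) ℝ c)).prod)) := by
      intro U hU
      rw [mem_powersetCard] at hU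
      have hU' : ∀ i ∈ U, ρ i ≠ 0 := fun i hi => by simpa using hU.1 hi
      rw [lemE (fun i => ρ i) _ hU' c ∅ (Finset.empty_subset _) (by simpa using hU.2)]
      rw [← ih (ρ - ind U)]
      congr 1
      congr 1
      congr 1
      funext i
      unfold st
      rw [Finsupp.tsub_apply, ind_apply]
      simp only
      split_ifs <;> omega
    rw [Finset.sum_congr rfl h3, coeff_esymm_mul]
    have h4 : ∑ M ∈ powersetCard c (univ : Finset (Fin N)),
        (if ind M ≤ ρ then MvPolynomial.coeff (ρ - ind M)
          ((μ.map (fun c => MvPolynomial.esymm (Fin N) ℝ c)).prod) else 0) =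
        ∑ M ∈ powersetCard c (univ.filter fun i => ρ i ≠ 0), MvPolynomial.coeff (ρ - ind M)
          ((μ.map (fun c => MvPolynomial.esymm (Fin N) ℝ c)).prod) := by
      rw [← Finset.sum_filter]
      apply Finset.sum_congr _ (fun _ _ => rfl)
      ext M
      simp only [mem_filter, mem_powersetCard, subset_univ, true_and]
      constructor
      · rintro ⟨h5, h6⟩
        refine ⟨fun i hi => ?_, h5⟩
        simp only [mem_filter, mem_univ, true_and]
        have := h6 i
        rw [ind_apply, if_pos hi] at this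
        omega
      · rintro ⟨h5, h6⟩
        refine ⟨h6, fun i => ?_⟩
        rw [ind_apply]
        split_ifs with hi
        · have := h5 hi
          simp only [mem_filter, mem_univ, true_and] at this
          omega
        · exact Nat.zero_le _
    rw [h4]
    simp only [← Finset.mul_sum]
    ring

/-- nonnegative real coefficients -/
theorem real_pos {k : ℕ} (hk2 : 2 ≤ k) (n : ℕ) (μ : List ℕ) (hμ : μ.sum = k * n) :
    ∃ d : n.Partition → ℝ, (∀ l, 0 ≤ d l) ∧ ∀ (N : ℕ) (ν : Fin N →₀ ℕ), ∑ i, ν i = n →
      MvPolynomial.coeff (k • ν) ((μ.map (fun c => MvPolynomial.esymm (Fin N) ℝ c)).prod) =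
        ∑ l, d l * MvPolynomial.coeff ν (MvPolynomial.esymmPart (Fin N) ℝ l) := by
  obtain ⟨m, hm⟩ : ∃ m, m + 3 = 2 * k := ⟨2 * k - 3, by omega⟩
  obtain ⟨d, hd0, hd⟩ := set_pos n (pat m μ) (by rw [pat_length, hμ, hm]; ring)
  have hP : 0 < (μ.map (fun c => ((c.factorial : ℝ)) ^ 2)).prod := by
    apply List.prod_pos
    intro x hx
    rw [List.mem_map] at hx
    obtain ⟨c, _, rfl⟩ := hx
    positivity
  refine ⟨fun l => d l / (μ.map (fun c => ((c.factorial : ℝ)) ^ 2)).prod,
    fun l => div_nonneg (hd0 l) hP.le, ?_⟩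
  intro N ν hν
  have h1 := hd N ν hν
  have h2 := pat_eval hm μ (k • ν)
  have h3 : (fun i => 2 * (k • ν) i) = fun i => (m + 3) * ν i := by
    funext i
    rw [hm]
    simp only [Finsupp.smul_apply, smul_eq_mul]
    ring
  rw [h3, h1] at h2
  have h4 : ∀ l, d l / (μ.map (fun c => ((c.factorial : ℝ)) ^ 2)).prod *
      MvPolynomial.coeff ν (MvPolynomial.esymmPart (Fin N) ℝ l) =
      (d l * MvPolynomial.coeff ν (MvPolynomial.esymmPart (Fin N) ℝ l)) /
        (μ.map (fun c => ((c.factorial : ℝ)) ^ 2)).prod := fun l => by ring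
  rw [Finset.sum_congr rfl (fun l _ => h4 l), ← Finset.sum_div, h2]
  field_simp

end H553RK
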