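import Pool.Agent.Helper553_RK.Fpi

open Finset

namespace H553RK

variable {m Q : ℕ}

/-- variables -/
abbrev Vr (m Q : ℕ) := Fin (m + 3) × Fin (Q + 1)

/-- uncurry -/
def uc (y : St m Q) : Vr m Q → ℝ := fun p => y p.1 p.2

section divide

variable {σ : Type*} [DecidableEq σ]

lemma dvd_of_rename {u v : σ} (p : MvPolynomial σ ℝ)
    (h : MvPolynomial.rename (Function.update id u v) p = 0) :
    (MvPolynomial.X u - MvPolynomial.X v) ∣ p := by
  rw [← Ideal.mem_span_singleton, ← Ideal.Quotient.eq_zero_iff_mem]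
  set I := Ideal.span {(MvPolynomial.X u - MvPolynomial.X v : MvPolynomial σ ℝ)} with hI
  have h1 : ∀ r : MvPolynomial σ ℝ, Ideal.Quotient.mk I r =
      Ideal.Quotient.mk I (MvPolynomial.rename (Function.update id u v) r) := by
    intro r
    induction r using MvPolynomial.induction_on with
    | C a => rw [MvPolynomial.rename_C]
    | add p q hp hq => rw [map_add, map_add, map_add, hp, hq]
    | mul_X p i hp =>
      rw [map_mul, map_mul, map_mul, hp]
      congr 1
      rw [MvPolynomial.rename_X]
      by_cases hi : i = u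
      · subst hi
        rw [Function.update_self, Ideal.Quotient.eq]
        exact Ideal.mem_span_singleton_self _
      · rw [Function.update_of_ne hi]
        rfl
  rw [h1, h, map_zero]

lemma prod_dvd {ι : Type*} [DecidableEq ι] (u v : ι → σ) (S : Finset ι)
    (huv : ∀ t ∈ S, u t ≠ v t)
    (hd : ∀ t ∈ S, ∀ t' ∈ S, t ≠ t' → ¬ (u t = u t' ∧ v t = v t') ∧ ¬ (u t = v t' ∧ v t = u t'))
    (p : MvPolynomial σ ℝ)
    (hp : ∀ t ∈ S, MvPolynomial.rename (Function.update id (u t) (v t)) p = 0) :
    (∏ t ∈ S, (MvPolynomial.X (u t) - MvPolynomial.X (v t))) ∣ p := by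
  induction S using Finset.induction_on with
  | empty => simp
  | insert t S ht ih =>
    obtain ⟨r, hr⟩ := ih (fun a ha => huv a (mem_insert_of_mem ha))
      (fun a ha b hb => hd a (mem_insert_of_mem ha) b (mem_insert_of_mem hb))
      (fun a ha => hp a (mem_insert_of_mem ha))
    have h1 := hp t (mem_insert_self _ _)
    rw [hr, map_mul, map_prod] at h1
    have h2 : ∏ x ∈ S, MvPolynomial.rename (Function.update id (u t) (v t))
        (MvPolynomial.X (u x) - MvPolynomial.X (v x) : MvPolynomial σ ℝ) ≠ 0 := by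
      rw [Finset.prod_ne_zero_iff]
      intro x hx h0
      rw [map_sub, MvPolynomial.rename_X, MvPolynomial.rename_X, sub_eq_zero] at h0
      have h3 := MvPolynomial.X_injective h0
      have hxt : x ≠ t := fun h => ht (h ▸ hx)
      have h4 := hd x (mem_insert_of_mem hx) t (mem_insert_self _ _) hxt
      have h5 := huv x (mem_insert_of_mem hx)
      by_cases c1 : u x = u t
      · rw [c1, Function.update_self] at h3
        by_cases c2 : v x = u t
        · exact h5 (c1.trans c2.symm)
        · rw [Function.update_of_ne c2] at h3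
          exact h4.1 ⟨c1, h3.symm⟩
      · rw [Function.update_of_ne c1] at h3
        by_cases c2 : v x = u t
        · rw [c2, Function.update_self] at h3
          exact h4.2 ⟨h3, c2⟩
        · rw [Function.update_of_ne c2] at h3
          exact h5 h3
    have h3 := (mul_eq_zero.mp h1).resolve_left h2
    obtain ⟨r', hr'⟩ := dvd_of_rename r h3
    rw [Finset.prod_insert ht, hr, hr']
    exact ⟨r', by ring⟩

end divide

/-- pairs of columns in each class -/
def PS (m Q : ℕ) : Finset (Fin (m + 3) × Fin (Q + 1) × Fin (Q + 1)) :=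
  univ.filter fun t => t.2.1 < t.2.2

/-- Vandermonde product -/
noncomputable def VV (m Q : ℕ) : MvPolynomial (Vr m Q) ℝ :=
  ∏ t ∈ PS m Q, (MvPolynomial.X (t.1, t.2.2) - MvPolynomial.X (t.1, t.2.1))

lemma eval_VV (y : St m Q) :
    MvPolynomial.eval (uc y) (VV m Q) = ∏ i, (Matrix.vandermonde (y i)).det := by
  unfold VV PS
  rw [map_prod, Finset.prod_filter, Fintype.prod_prod_type]
  refine Finset.prod_congr rfl (fun i _ => ?_)
  rw [Fintype.prod_prod_type, Matrix.det_vandermonde]
  refine Finset.prod_congr rfl (fun a _ => ?_)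
  rw [← Finset.prod_filter, Finset.filter_lt_eq_Ioi]
  refine Finset.prod_congr rfl (fun b _ => ?_)
  simp [uc]

/-- permute the columns inside each class -/
def permY (σ : Fin (m + 3) → Equiv.Perm (Fin (Q + 1))) (y : St m Q) : St m Q :=
  fun i a => y i (σ i a)

def permI (σ : Fin (m + 3) → Equiv.Perm (Fin (Q + 1))) (I : Fm m Q) : Fm m Q :=
  fun i => (I i).map (σ i).toEmbedding

lemma prod_permI (σ : Fin (m + 3) → Equiv.Perm (Fin (Q + 1))) (I : Fm m Q) (i : Fin (m + 3))
    (g : Fin (Q + 1) → ℝ) : ∏ a ∈ permI σ I i, g a = ∏ a ∈ I i, g (σ i a) := by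
  unfold permI
  rw [Finset.prod_map]
  rfl

lemma prod_permI_compl (σ : Fin (m + 3) → Equiv.Perm (Fin (Q + 1))) (I : Fm m Q) (i : Fin (m + 3))
    (g : Fin (Q + 1) → ℝ) : ∏ a ∈ (permI σ I i)ᶜ, g a = ∏ a ∈ (I i)ᶜ, g (σ i a) := by
  have : (permI σ I i)ᶜ = ((I i)ᶜ).map (σ i).toEmbedding := by
    ext a
    unfold permI
    simp only [mem_compl, Finset.mem_map_equiv]
  rw [this, Finset.prod_map]
  rfl

lemma H_perm (σ : Fin (m + 3) → Equiv.Perm (Fin (Q + 1))) (I : Fm m Q) (y : St m Q) :
    H I (permY σ y) = H (permI σ I) y := by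
  unfold H
  congr 1
  · refine Finset.prod_congr rfl (fun i _ => ?_)
    unfold edge
    rw [prod_permI]
    refine Finset.prod_congr rfl (fun a _ => ?_)
    rw [prod_permI_compl]
    rfl
  · refine Finset.prod_congr rfl (fun i _ => ?_)
    unfold vert
    rw [prod_permI, prod_permI]
    congr 1
    refine Finset.prod_congr rfl (fun a _ => ?_)
    rw [prod_permI_compl]
    rfl

lemma dnY_perm (σ : Fin (m + 3) → Equiv.Perm (Fin (Q + 1))) (I : Fm m Q) (y : St m Q) :
    dnY I (permY σ y) = permY σ (dnY (permI σ I) y) := by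
  funext i a
  unfold dnY permY permI dn
  have : (a ∈ I i) ↔ (σ i a ∈ (I i).map (σ i).toEmbedding) := by
    rw [Finset.mem_map_equiv, Equiv.symm_apply_apply]
  simp only [this]

lemma HS_perm (σ : Fin (m + 3) → Equiv.Perm (Fin (Q + 1))) (s : ℕ) (f : St m Q → ℝ)
    (hf : ∀ y, f (permY σ y) = f y) (y : St m Q) : HS s f (permY σ y) = HS s f y := by
  unfold HS
  refine Finset.sum_bij' (fun I _ => permI σ I) (fun I _ => permI (fun i => (σ i).symm) I)
    ?_ ?_ ?_ ?_ ?_
  · intro I hI
    rw [mem_famc] at hI ⊢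
    intro i
    unfold permI
    rw [Finset.card_map, hI i]
  · intro I hI
    rw [mem_famc] at hI ⊢
    intro i
    unfold permI
    rw [Finset.card_map, hI i]
  · intro I _
    funext i
    unfold permI
    ext a
    simp [Finset.mem_map_equiv]
  · intro I _
    funext i
    unfold permI
    ext a
    simp [Finset.mem_map_equiv]
  · intro I _
    rw [H_perm, dnY_perm, hf]

lemma fpi_perm (σ : Fin (m + 3) → Equiv.Perm (Fin (Q + 1))) (π : List ℕ) :
    ∀ y : St m Q, fpi π (permY σ y) = fpi π y := by
  induction π with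
  | nil => intro y; rfl
  | cons s π ih =>
    intro y
    exact HS_perm σ s (fpi π) ih y

/-- swap of two columns in one class -/
def sw (i : Fin (m + 3)) (a b : Fin (Q + 1)) : Fin (m + 3) → Equiv.Perm (Fin (Q + 1)) :=
  Function.update (fun _ => 1) i (Equiv.swap a b)

lemma uc_sw (i : Fin (m + 3)) (a b : Fin (Q + 1)) (y : St m Q) :
    uc (permY (sw i a b) y) = uc y ∘ Equiv.swap (i, a) (i, b) := by
  funext ⟨i', c⟩
  unfold uc permY sw
  simp only [Function.comp]
  by_cases hi : i' = i
  · subst hi
    rw [Function.update_self]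
    by_cases hca : c = a
    · subst hca
      simp
    · by_cases hcb : c = b
      · subst hcb
        simp
      · rw [Equiv.swap_apply_of_ne_of_ne hca hcb, Equiv.swap_apply_of_ne_of_ne]
        · simpa using hca
        · simpa using hcb
  · rw [Function.update_of_ne hi, Equiv.swap_apply_of_ne_of_ne]
    · rfl
    · simp [hi]
    · simp [hi]

lemma VV_sw (i : Fin (m + 3)) {a b : Fin (Q + 1)} (hab : a ≠ b) (y : St m Q) :
    MvPolynomial.eval (uc (permY (sw i a b) y)) (VV m Q) =
      - MvPolynomial.eval (uc y) (VV m Q) := by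
  rw [eval_VV, eval_VV]
  rw [← Finset.mul_prod_erase _ _ (mem_univ i), ← Finset.mul_prod_erase _ _ (mem_univ i)]
  rw [← neg_mul]
  congr 1
  · have : permY (sw i a b) y i = y i ∘ Equiv.swap a b := by
      funext c
      unfold permY sw
      rw [Function.update_self]
      rfl
    rw [this]
    have h2 : Matrix.vandermonde (y i ∘ Equiv.swap a b) =
        (Matrix.vandermonde (y i)).submatrix (Equiv.swap a b) id := by
      ext c d
      simp [Matrix.vandermonde]
    rw [h2, Matrix.det_permute, Equiv.Perm.sign_swap hab]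
    simp
  · refine Finset.prod_congr rfl (fun i' hi' => ?_)
    simp only [mem_erase, mem_univ, and_true] at hi'
    have : permY (sw i a b) y i' = y i' := by
      funext c
      unfold permY sw
      rw [Function.update_of_ne hi']
      rfl
    rw [this]

lemma Gen_perm (σ : Fin (m + 3) → Equiv.Perm (Fin (Q + 1))) {y : St m Q} (hy : Gen y) :
    Gen (permY σ y) := fun i a b hab n => hy i _ _ (fun h => hab ((σ i).injective h)) n

lemma VV_ne_zero (m Q : ℕ) : VV m Q ≠ 0 := by
  unfold VV
  rw [Finset.prod_ne_zero_iff]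
  intro t ht h
  rw [sub_eq_zero] at h
  have h2 := MvPolynomial.X_injective h
  simp only [PS, mem_filter, mem_univ, true_and] at ht
  simp only [Prod.mk.injEq, true_and] at h2
  exact absurd h2.symm ht.ne

lemma eval_VV_ne {y : St m Q} (hy : Gen y) : MvPolynomial.eval (uc y) (VV m Q) ≠ 0 := by
  rw [eval_VV, Finset.prod_ne_zero_iff]
  intro i _
  rw [Matrix.det_vandermonde_ne_zero_iff]
  intro a b hab
  by_contra hne
  exact hy i a b hne 0 (by push_cast; linarith)

theorem gen_funext {p : MvPolynomial (Vr m Q) ℝ}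
    (h : ∀ y : St m Q, Gen y → MvPolynomial.eval (uc y) p = 0) : p = 0 := by
  have h1 : p * VV m Q = 0 := by
    apply MvPolynomial.funext_set (fun _ => Set.Ioo (0 : ℝ) 1)
      (fun _ => Set.Ioo_infinite (by norm_num))
    intro x hx
    rw [map_mul, map_zero]
    by_cases hV : MvPolynomial.eval x (VV m Q) = 0
    · rw [hV, mul_zero]
    · set y : St m Q := fun i a => x (i, a) with hy
      have hxy : x = uc y := by
        funext p; rfl
      rw [hxy] at hV ⊢
      rw [h y, zero_mul]
      intro i a b hab n hn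
      rw [eval_VV, ← ne_eq, Finset.prod_ne_zero_iff] at hV
      have h3 := Matrix.det_vandermonde_ne_zero_iff.mp (hV i (mem_univ _))
      have h4 : y i a ≠ y i b := fun h => hab (h3 h)
      have ha := hx (i, a) (Set.mem_univ _)
      have hb := hx (i, b) (Set.mem_univ _)
      simp only [Set.mem_Ioo] at ha hb
      have e1 : y i a = x (i, a) := rfl
      have e2 : y i b = x (i, b) := rfl
      have n1 : (n : ℝ) < 1 := by rw [← hn, e1, e2]; linarith [ha.2, hb.1]
      have n2 : (-1 : ℝ) < n := by rw [← hn, e1, e2]; linarith [ha.1, hb.2]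
      have n3 : n < 1 := by exact_mod_cast n1
      have n4 : -1 < n := by exact_mod_cast n2
      have n5 : n = 0 := by omega
      rw [n5] at hn
      apply h4
      push_cast at hn
      linarith
  exact (mul_eq_zero.mp h1).resolve_right (VV_ne_zero m Q)

/-- denominators of `H I` -/
noncomputable def DenI (I : Fm m Q) : MvPolynomial (Vr m Q) ℝ :=
  ∏ t ∈ (univ : Finset (Fin (m + 3) × Fin (Q + 1) × Fin (Q + 1))).filter
    (fun t => t.2.1 ∈ I t.1 ∧ t.2.2 ∉ I t.1),
    (MvPolynomial.X (t.1, t.2.1) - MvPolynomial.X (t.1, t.2.2))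

lemma prod_rect (A : Finset (Fin (Q + 1))) (g : Fin (Q + 1) → Fin (Q + 1) → ℝ) :
    ∏ a, ∏ l, (if a ∈ A ∧ l ∉ A then g a l else 1) = ∏ a ∈ A, ∏ l ∈ Aᶜ, g a l := by
  have h1 : ∀ a, ∏ l, (if a ∈ A ∧ l ∉ A then g a l else 1) =
      if a ∈ A then ∏ l ∈ Aᶜ, g a l else 1 := by
    intro a
    by_cases ha : a ∈ A
    · simp only [ha, true_and, if_true]
      rw [← Finset.prod_filter]
      congr 1
      ext l
      simp
    · simp [ha]
  rw [Finset.prod_congr rfl (fun a _ => h1 a), Finset.prod_ite_mem, Finset.univ_inter]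

lemma eval_DenI (I : Fm m Q) (y : St m Q) :
    MvPolynomial.eval (uc y) (DenI I) = ∏ i, ∏ a ∈ I i, ∏ l ∈ (I i)ᶜ, (y i a - y i l) := by
  unfold DenI
  rw [map_prod, Finset.prod_filter, Fintype.prod_prod_type]
  refine Finset.prod_congr rfl (fun i _ => ?_)
  rw [Fintype.prod_prod_type, ← prod_rect]
  refine Finset.prod_congr rfl (fun a _ => ?_)
  refine Finset.prod_congr rfl (fun b _ => ?_)
  simp [uc]

lemma VV_rename {i : Fin (m + 3)} {a b : Fin (Q + 1)} (hab : a ≠ b) :
    MvPolynomial.rename (Function.update id (i, a) (i, b)) (VV m Q) = 0 := by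
  unfold VV
  rw [map_prod]
  rcases lt_or_gt_of_ne hab with h | h
  · apply Finset.prod_eq_zero (i := (i, a, b))
    · simp [PS, h]
    · rw [map_sub, MvPolynomial.rename_X, MvPolynomial.rename_X, Function.update_self,
        Function.update_of_ne (by simp [Ne.symm hab])]
      simp
  · apply Finset.prod_eq_zero (i := (i, b, a))
    · simp [PS, h]
    · rw [map_sub, MvPolynomial.rename_X, MvPolynomial.rename_X, Function.update_self,
        Function.update_of_ne (by simp [Ne.symm hab])]
      simp

lemma DenI_dvd (I : Fm m Q) : DenI I ∣ VV m Q := by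
  unfold DenI
  apply prod_dvd (fun t : Fin (m + 3) × Fin (Q + 1) × Fin (Q + 1) => (t.1, t.2.1))
    (fun t => (t.1, t.2.2))
  · rintro ⟨i, a, b⟩ ht
    simp only [mem_filter, mem_univ, true_and] at ht
    simp only [ne_eq, Prod.mk.injEq, true_and]
    rintro rfl
    exact ht.2 ht.1
  · rintro ⟨i, a, b⟩ ht ⟨i', a', b'⟩ ht' hne
    simp only [mem_filter, mem_univ, true_and] at ht ht'
    simp only [ne_eq, Prod.mk.injEq] at hne ⊢
    constructor
    · rintro ⟨⟨h1, h2⟩, ⟨_, h3⟩⟩
      exact hne ⟨h1, h2, h3⟩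
    · rintro ⟨⟨h1, h2⟩, ⟨_, h3⟩⟩
      subst h1 h2 h3
      exact ht.2 ht'.1
  · rintro ⟨i, a, b⟩ ht
    simp only [mem_filter, mem_univ, true_and] at ht
    apply VV_rename
    intro h
    have h' : a = b := h
    exact ht.2 (h' ▸ ht.1)

theorem dvd_of_antisymm (N : MvPolynomial (Vr m Q) ℝ)
    (hN : ∀ (i : Fin (m + 3)) (a b : Fin (Q + 1)), a ≠ b → ∀ y : St m Q, Gen y →
      MvPolynomial.eval (uc (permY (sw i a b) y)) N = - MvPolynomial.eval (uc y) N) :
    VV m Q ∣ N := by
  unfold VV
  apply prod_dvd (fun t : Fin (m + 3) × Fin (Q + 1) × Fin (Q + 1) => (t.1, t.2.2))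
    (fun t => (t.1, t.2.1))
  · rintro ⟨i, a, b⟩ ht
    simp only [PS, mem_filter, mem_univ, true_and] at ht
    simp only [ne_eq, Prod.mk.injEq, true_and]
    exact ht.ne'
  · rintro ⟨i, a, b⟩ ht ⟨i', a', b'⟩ ht' hne
    simp only [PS, mem_filter, mem_univ, true_and] at ht ht'
    simp only [ne_eq, Prod.mk.injEq] at hne ⊢
    constructor
    · rintro ⟨⟨h1, h2⟩, ⟨_, h3⟩⟩
      exact hne ⟨h1, h3, h2⟩
    · rintro ⟨⟨h1, h2⟩, ⟨_, h3⟩⟩
      subst h2 h3
      exact absurd (lt_trans ht ht') (lt_irrefl _)
  · rintro ⟨i, a, b⟩ ht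
    simp only [PS, mem_filter, mem_univ, true_and] at ht
    have hne : b ≠ a := ht.ne'
    have h1 : MvPolynomial.rename (Equiv.swap (i, b) (i, a)) N + N = 0 := by
      apply gen_funext
      intro y hy
      rw [map_add, MvPolynomial.eval_rename, ← uc_sw, hN i b a hne y hy]
      ring
    have h2 : MvPolynomial.rename (Function.update id (i, b) (i, a))
        (MvPolynomial.rename (Equiv.swap (i, b) (i, a)) N) =
        MvPolynomial.rename (Function.update id (i, b) (i, a)) N := by
      rw [MvPolynomial.rename_rename]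
      congr 1
      congr 1
      funext x
      simp only [Function.comp]
      by_cases c1 : x = (i, b)
      · subst c1
        rw [Equiv.swap_apply_left, Function.update_self, Function.update_of_ne (by simp [ht.ne])]
        rfl
      · by_cases c2 : x = (i, a)
        · subst c2
          rw [Equiv.swap_apply_right, Function.update_self, Function.update_of_ne c1]
          rfl
        · rw [Equiv.swap_apply_of_ne_of_ne c1 c2]
    have h3 : MvPolynomial.rename (Function.update id (i, b) (i, a)) N +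
        MvPolynomial.rename (Function.update id (i, b) (i, a)) N = 0 := by
      have h4 := congrArg (MvPolynomial.rename (Function.update id (i, b) (i, a))) h1
      rw [map_add, h2, map_zero] at h4
      exact h4
    exact add_self_eq_zero.mp h3

/-- numerator of `H I` -/
noncomputable def NumI (I : Fm m Q) : MvPolynomial (Vr m Q) ℝ :=
  (∏ i, ∏ a ∈ I i, ∏ l ∈ (I (i + 1))ᶜ, (MvPolynomial.X (i, a) - MvPolynomial.X (i + 1, l))) *
    ∏ i, ∏ a ∈ I i, MvPolynomial.X (i, a) ^ ex i

lemma eval_NumI (I : Fm m Q) (y : St m Q) :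
    MvPolynomial.eval (uc y) (NumI I) =
      (∏ i, ∏ a ∈ I i, ∏ l ∈ (I (i + 1))ᶜ, (y i a - y (i + 1) l)) *
        ∏ i, ∏ a ∈ I i, y i a ^ ex i := by
  unfold NumI
  rw [map_mul, map_prod, map_prod]
  congr 1
  · refine Finset.prod_congr rfl (fun i _ => ?_)
    rw [map_prod]
    refine Finset.prod_congr rfl (fun a _ => ?_)
    rw [map_prod]
    refine Finset.prod_congr rfl (fun l _ => ?_)
    simp [uc]
  · refine Finset.prod_congr rfl (fun i _ => ?_)
    rw [map_prod]
    refine Finset.prod_congr rfl (fun a _ => ?_)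
    simp [uc]

lemma H_eq (I : Fm m Q) (y : St m Q) :
    H I y = MvPolynomial.eval (uc y) (NumI I) / MvPolynomial.eval (uc y) (DenI I) := by
  rw [eval_NumI, eval_DenI]
  unfold H edge vert
  rw [Finset.prod_div_distrib]
  ring

/-- substitution of the lowered state -/
noncomputable def subI (I : Fm m Q) (P : MvPolynomial (Vr m Q) ℝ) : MvPolynomial (Vr m Q) ℝ :=
  MvPolynomial.bind₁ (fun p => if p.2 ∈ I p.1 then MvPolynomial.X p - 1 else MvPolynomial.X p) P

lemma eval_subI (I : Fm m Q) (P : MvPolynomial (Vr m Q) ℝ) (y : St m Q) :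
    MvPolynomial.eval (uc y) (subI I P) = MvPolynomial.eval (uc (dnY I y)) P := by
  unfold subI
  rw [← MvPolynomial.coe_aeval_eq_eval, ← MvPolynomial.coe_aeval_eq_eval]
  simp only [RingHom.coe_coe]
  rw [MvPolynomial.aeval_bind₁]
  congr 2
  funext p
  unfold uc dnY dn
  split_ifs <;> simp

theorem exists_poly (π : List ℕ) : ∃ P : MvPolynomial (Vr m Q) ℝ,
    ∀ y : St m Q, Gen y → fpi π y = MvPolynomial.eval (uc y) P := by
  induction π with
  | nil => exact ⟨1, fun y _ => by simp [fpi]⟩
  | cons s π ih =>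
    obtain ⟨P, hP⟩ := ih
    choose C hC using fun I : Fm m Q => DenI_dvd I
    set N : MvPolynomial (Vr m Q) ℝ :=
      ∑ I ∈ famc Q (csz m s), NumI I * C I * subI I P with hN
    have h1 : ∀ y : St m Q, Gen y → MvPolynomial.eval (uc y) N =
        MvPolynomial.eval (uc y) (VV m Q) * fpi (s :: π) y := by
      intro y hy
      have hV := eval_VV_ne hy
      rw [hN, map_sum]
      simp only [fpi, HS]
      rw [Finset.mul_sum]
      refine Finset.sum_congr rfl (fun I _ => ?_)
      rw [map_mul, map_mul, eval_subI, hP _ (Gen_dnY hy I), H_eq]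
      have h2 : MvPolynomial.eval (uc y) (VV m Q) =
          MvPolynomial.eval (uc y) (DenI I) * MvPolynomial.eval (uc y) (C I) := by
        rw [← map_mul, ← hC I]
      have h3 : MvPolynomial.eval (uc y) (DenI I) ≠ 0 := by
        intro h0
        rw [h2, h0, zero_mul] at hV
        exact hV rfl
      rw [h2]
      field_simp
    obtain ⟨R, hR⟩ := dvd_of_antisymm N (by
      intro i a b hab y hy
      rw [h1 _ (Gen_perm _ hy), h1 _ hy, VV_sw i hab, fpi_perm]
      ring)
    refine ⟨R, fun y hy => ?_⟩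
    have h2 := h1 y hy
    rw [hR, map_mul] at h2
    exact (mul_left_cancel₀ (eval_VV_ne hy) h2).symm

/-- the polynomial extending `fpi π` -/
noncomputable def PP (m Q : ℕ) (π : List ℕ) : MvPolynomial (Vr m Q) ℝ := (exists_poly π).choose

lemma PP_spec (π : List ℕ) {y : St m Q} (hy : Gen y) :
    fpi π y = MvPolynomial.eval (uc y) (PP m Q π) := (exists_poly π).choose_spec y hy

/-- the polynomial function extending `fpi π` -/
noncomputable def pf (π : List ℕ) (y : St m Q) : ℝ := MvPolynomial.eval (uc y) (PP m Q π)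

lemma pf_gen (π : List ℕ) {y : St m Q} (hy : Gen y) : pf π y = fpi π y := (PP_spec π hy).symm

lemma pf_cont (π : List ℕ) : Continuous (pf π : St m Q → ℝ) := by
  unfold pf
  have h1 : Continuous (uc : St m Q → (Vr m Q → ℝ)) := by
    apply continuous_pi
    intro p
    exact (continuous_apply p.2).comp (continuous_apply p.1)
  exact (MvPolynomial.continuous_eval (PP m Q π)).comp h1

end H553RK
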