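import Pool.Agent.Helper553_RK.Limit

open Finset Filter Topology

namespace H553RK

variable {m Q : ℕ}

/-- the sequence of perturbation parameters -/
noncomputable def ts (Q : ℕ) (n : ℕ) : ℝ := 1 / ((n : ℝ) + Q + 2)

lemma ts_pos (Q n : ℕ) : 0 < ts Q n := by unfold ts; positivity

lemma ts_small (Q n : ℕ) : ts Q n * ((Q : ℝ) + 1) < 1 := by
  unfold ts
  rw [one_div_mul_eq_div, div_lt_one (by positivity)]
  have : (0 : ℝ) ≤ n := by positivity
  linarith

lemma ts_tendsto (Q : ℕ) : Tendsto (ts Q) atTop (𝓝 0) := by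
  unfold ts
  have h1 : Tendsto (fun n : ℕ => (n : ℝ) + Q + 2) atTop atTop := by
    apply tendsto_atTop_add_const_right
    apply tendsto_atTop_add_const_right
    exact tendsto_natCast_atTop_atTop
  refine h1.inv_tendsto_atTop.congr (fun n => ?_)
  simp [one_div]

lemma pert_cont (j : Fin (m + 3)) (r : NSt m Q) : Continuous (fun t => pert j r t) := by
  apply continuous_pi
  intro i
  apply continuous_pi
  intro a
  unfold pert dd
  split_ifs <;> fun_prop

lemma pert_zero (j : Fin (m + 3)) (r : NSt m Q) : pert j r 0 = castS r := by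
  funext i a
  unfold pert dd castS
  split_ifs <;> simp

lemma pert_tendsto (j : Fin (m + 3)) (r : NSt m Q) :
    Tendsto (fun n => pert j r (ts Q n)) atTop (𝓝 (castS r)) := by
  rw [← pert_zero j r]
  exact ((pert_cont j r).tendsto 0).comp (ts_tendsto Q)

lemma upY_cont (j : Fin (m + 3)) (k : Fin (Q + 1)) :
    Continuous (fun y : St m Q => upY j k y) := by
  apply continuous_pi
  intro i
  apply continuous_pi
  intro a
  unfold upY up
  by_cases hi : i = j
  · subst hi
    simp only [Function.update_self]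
    by_cases ha : a = k
    · subst ha
      simp only [Function.update_self]
      fun_prop
    · simp only [Function.update_of_ne ha]
      fun_prop
  · simp only [Function.update_of_ne hi]
    fun_prop

lemma dsum_tendsto (j : ℕ) (π : List ℕ) : ∀ (g : ℕ → List ℕ → ℝ) (g0 : List ℕ → ℝ),
    (∀ π', Tendsto (fun n => g n π') atTop (𝓝 (g0 π'))) →
    Tendsto (fun n => dsum m j (g n) π) atTop (𝓝 (dsum m j g0 π)) := by
  induction π with
  | nil => intro g g0 _; simp only [dsum]; exact tendsto_const_nhds
  | cons s π ih =>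
    intro g g0 h
    simp only [dsum]
    apply Tendsto.add
    · split_ifs
      · exact h _
      · exact tendsto_const_nhds
    · exact ih (fun n π' => g n (s :: π')) (fun π' => g0 (s :: π')) (fun π' => h _)

lemma Gen_upY {y : St m Q} (hy : Gen y) (j : Fin (m + 3)) (k : Fin (Q + 1)) :
    Gen (upY j k y) := by
  intro i a b hab n h
  by_cases hi : i = j
  · subst hi
    rw [upY_same] at h
    by_cases ha : a = k
    · subst ha
      rw [up_same, up_ne _ (Ne.symm hab)] at h
      exact hy i a b hab (n - 1) (by push_cast; linarith)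
    · by_cases hb : b = k
      · subst hb
        rw [up_same, up_ne _ ha] at h
        exact hy i a b hab (n + 1) (by push_cast; linarith)
      · rw [up_ne _ ha, up_ne _ hb] at h
        exact hy i a b hab n h
  · rw [upY_ne k y hi] at h
    exact hy i a b hab n h

/-- the identity at perturbed states -/
lemma pert_identity {r : NSt m Q} (j : Fin (m + 3))
    (hj : j = 0 → r (Fin.last (m + 2)) (Fin.last Q) = 0) (π : List ℕ) (hπ : ∀ s ∈ π, s ≤ Q)
    {t : ℝ} (h0 : 0 < t) (h1 : t * ((Q : ℝ) + 1) < 1) :
    ∑ k, Wt j r t k * pf π (upY j k (pert j r t)) =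
      dsum m j.val (fun π' => pf π' (pert j r t)) π +
        kap j π (∑ a, pert j r t (j - 1) a) (∑ a, pert j r t j a) * pf π (pert j r t) := by
  have hg := Gen_pertS j r h0 h1
  have h := AA_fpi π hπ _ hg (Bd_pert j hj t)
  have e1 : AA j (fpi π) (pert j r t) = ∑ k, Wt j r t k * pf π (upY j k (pert j r t)) := by
    unfold AA Wt
    rw [Finset.mul_sum]
    refine Finset.sum_congr rfl (fun k _ => ?_)
    rw [pf_gen _ (Gen_upY hg j k)]
    ring
  rw [← e1, h, pf_gen π hg]
  congr 1
  congr 1
  funext π'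
  rw [pf_gen π' hg]

theorem step {r : NSt m Q} (hL : Leg r) (j : Fin (m + 3))
    (hj : j = 0 → r (Fin.last (m + 2)) (Fin.last Q) = 0) :
    ∃ c : Fin (Q + 1) → ℝ, (∀ k, 0 ≤ c k) ∧ (∀ k, c k ≠ 0 → r j k < prd r j k) ∧
      ∀ π : List ℕ, (∀ s ∈ π, s ≤ Q) →
        ∑ k, c k * pf π (castS (bump r j k)) = dsum m j.val (fun π' => pf π' (castS r)) π +
          kap j π (∑ a, (r (j - 1) a : ℝ)) (∑ a, (r j a : ℝ)) * pf π (castS r) := by
  set B : ℝ := (∑ a, (prd r j a : ℝ)) + 3 * ((Q : ℝ) + 1) with hB
  have hmem : ∀ n, (fun k => Wt j r (ts Q n) k) ∈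
      Set.pi (Set.univ : Set (Fin (Q + 1))) (fun _ => Set.Icc (0 : ℝ) B) := by
    intro n k _
    have h2 := (Wt_bound hL j (ts_pos Q n) (ts_small Q n) k).1
    refine ⟨h2, ?_⟩
    calc Wt j r (ts Q n) k ≤ ∑ k, Wt j r (ts Q n) k :=
          Finset.single_le_sum (f := fun k => Wt j r (ts Q n) k)
            (fun a _ => (Wt_bound hL j (ts_pos Q n) (ts_small Q n) a).1) (mem_univ k)
      _ ≤ B := by
          rw [Wt_sum j (ts_pos Q n) (ts_small Q n)]
          exact kap_bound j (ts_pos Q n) (ts_small Q n)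
  obtain ⟨c, hc, φ, hφ, hlim⟩ :=
    (isCompact_univ_pi (fun _ : Fin (Q + 1) => isCompact_Icc)).tendsto_subseq hmem
  rw [tendsto_pi_nhds] at hlim
  have hts : Tendsto (fun n => ts Q (φ n)) atTop (𝓝 0) :=
    (ts_tendsto Q).comp hφ.tendsto_atTop
  have hpt : Tendsto (fun n => pert j r (ts Q (φ n))) atTop (𝓝 (castS r)) :=
    (pert_tendsto j r).comp hφ.tendsto_atTop
  refine ⟨c, fun k => (hc k (Set.mem_univ _)).1, ?_, ?_⟩
  · intro k hck
    by_contra hcon
    apply hck
    have heq : prd r j k = r j k := le_antisymm (not_lt.mp hcon) (hL j k)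
    have h2 : Tendsto (fun n => (ts Q (φ n)) ^ 3 * (CC r j) ^ Q) atTop (𝓝 (0 ^ 3 * (CC r j) ^ Q)) :=
      (hts.pow 3).mul tendsto_const_nhds
    rw [zero_pow (by norm_num), zero_mul] at h2
    have h3 : Tendsto (fun n => Wt j r (ts Q (φ n)) k) atTop (𝓝 0) := by
      apply tendsto_of_tendsto_of_tendsto_of_le_of_le tendsto_const_nhds h2
      · intro n
        exact (Wt_bound hL j (ts_pos Q _) (ts_small Q _) k).1
      · intro n
        have h4 := (Wt_bound hL j (ts_pos Q (φ n)) (ts_small Q (φ n)) k).2
        refine h4.trans (le_of_eq ?_)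
        have hpos := ts_pos Q (φ n)
        unfold wt yt
        rw [heq]
        rw [div_pow, pow_add]
        field_simp
        ring
    exact tendsto_nhds_unique (hlim k) h3
  · intro π hπ
    have h1 : Tendsto (fun n => ∑ k, Wt j r (ts Q (φ n)) k *
        pf π (upY j k (pert j r (ts Q (φ n))))) atTop
        (𝓝 (∑ k, c k * pf π (castS (bump r j k)))) := by
      apply tendsto_finset_sum
      intro k _
      apply (hlim k).mul
      rw [castS_bump]
      exact (((pf_cont π).comp (upY_cont j k)).tendsto _).comp hpt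
    have hs : ∀ i, Tendsto (fun n => ∑ a, pert j r (ts Q (φ n)) i a) atTop
        (𝓝 (∑ a, (r i a : ℝ))) := by
      intro i
      apply tendsto_finset_sum
      intro a _
      have h5 := (tendsto_pi_nhds.mp ((tendsto_pi_nhds.mp hpt) i)) a
      exact h5
    have h2 : Tendsto (fun n => dsum m j.val (fun π' => pf π' (pert j r (ts Q (φ n)))) π +
        kap j π (∑ a, pert j r (ts Q (φ n)) (j - 1) a) (∑ a, pert j r (ts Q (φ n)) j a) *
          pf π (pert j r (ts Q (φ n)))) atTop
        (𝓝 (dsum m j.val (fun π' => pf π' (castS r)) π +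
          kap j π (∑ a, (r (j - 1) a : ℝ)) (∑ a, (r j a : ℝ)) * pf π (castS r))) := by
      apply Tendsto.add
      · apply dsum_tendsto j.val π (fun n π' => pf π' (pert j r (ts Q (φ n))))
        intro π'
        exact ((pf_cont π').tendsto _).comp hpt
      · apply Tendsto.mul
        · unfold kap
          split_ifs
          · exact tendsto_const_nhds
          · exact ((hs _).sub (hs _)).sub tendsto_const_nhds
        · exact ((pf_cont π).tendsto _).comp hpt
    refine tendsto_nhds_unique h1 (h2.congr ?_)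
    intro n
    exact (pert_identity j hj π hπ (ts_pos Q _) (ts_small Q _)).symm

end H553RK
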