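import Pool.Agent.Helper553_RK.Words

open Finset

namespace H553RK

section transpose

variable {σ τ : Type*} [Fintype σ] [Fintype τ] [DecidableEq σ] [DecidableEq τ]

lemma coeff_prod_esymm (z : τ → ℕ) (ν : σ →₀ ℕ) :
    MvPolynomial.coeff ν (∏ a, MvPolynomial.esymm σ ℝ (z a)) =
      (#(univ.filter (fun T : τ → Finset σ => (∀ a, #(T a) = z a) ∧
        ∀ i, #(univ.filter (fun a => i ∈ T a)) = ν i)) : ℝ) := by
  unfold MvPolynomial.esymm
  simp_rw [prod_X_eq]
  rw [Finset.prod_univ_sum, MvPolynomial.coeff_sum]
  have h1 : ∀ T : τ → Finset σ, MvPolynomial.coeff ν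
      (∏ x, (MvPolynomial.monomial (ind (T x)) (1 : ℝ))) =
      if (∑ x, ind (T x)) = ν then 1 else 0 := by
    intro T
    rw [← MvPolynomial.monomial_sum_one, MvPolynomial.coeff_monomial]
  rw [Finset.sum_congr rfl (fun T _ => h1 T), Finset.sum_boole]
  congr 1
  congr 1
  ext T
  simp only [mem_filter, Fintype.mem_piFinset, mem_powersetCard, subset_univ, true_and, mem_univ]
  apply and_congr_right
  intro _
  rw [Finsupp.ext_iff]
  apply forall_congr'
  intro i
  rw [Finsupp.finsetSum_apply]
  have : ∑ k, (ind (T k)) i = #(univ.filter (fun a => i ∈ T a)) := by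
    rw [Finset.sum_congr rfl (fun k _ => ind_apply (T k) i)]
    simp
  rw [this]

lemma card_transpose (z : τ → ℕ) (ν : σ → ℕ) :
    #(univ.filter (fun T : τ → Finset σ => (∀ a, #(T a) = z a) ∧
        ∀ i, #(univ.filter (fun a => i ∈ T a)) = ν i)) =
    #(univ.filter (fun M : σ → Finset τ => (∀ i, #(M i) = ν i) ∧
        ∀ a, #(univ.filter (fun i => a ∈ M i)) = z a)) := by
  refine Finset.card_bij' (fun T _ => fun i => univ.filter (fun a => i ∈ T a))
    (fun M _ => fun a => univ.filter (fun i => a ∈ M i)) ?_ ?_ ?_ ?_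
  · intro T hT
    simp only [mem_filter, mem_univ, true_and] at hT ⊢
    exact ⟨hT.2, by simpa using hT.1⟩
  · intro M hM
    simp only [mem_filter, mem_univ, true_and] at hM ⊢
    exact ⟨hM.2, by simpa using hM.1⟩
  · intro T _
    funext a
    ext i
    simp
  · intro T _
    funext a
    ext i
    simp

lemma coeff_transpose (z : τ →₀ ℕ) (ν : σ →₀ ℕ) :
    MvPolynomial.coeff z (∏ i, MvPolynomial.esymm τ ℝ (ν i)) =
      MvPolynomial.coeff ν (∏ a, MvPolynomial.esymm σ ℝ (z a)) := by
  rw [coeff_prod_esymm, coeff_prod_esymm, card_transpose]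

end transpose

variable {m Q : ℕ}

lemma dsum_ne (j : ℕ) (π : List ℕ) : ∀ g : List ℕ → ℝ, dsum m j g π ≠ 0 →
    ∃ l₁ s l₂, π = l₁ ++ s :: l₂ ∧ 1 ≤ s ∧ (s - 1) % (m + 3) = j ∧
      g (l₁ ++ (s - 1) :: l₂) ≠ 0 := by
  induction π with
  | nil => intro g h; simp [dsum] at h
  | cons s π ih =>
    intro g h
    simp only [dsum] at h
    by_cases hc : 1 ≤ s ∧ (s - 1) % (m + 3) = j
    · by_cases hg : g ((s - 1) :: π) = 0
      · rw [if_pos hc, hg, zero_add] at h
        obtain ⟨l₁, s', l₂, h1, h2, h3, h4⟩ := ih _ h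
        exact ⟨s :: l₁, s', l₂, by rw [h1]; rfl, h2, h3, h4⟩
      · exact ⟨[], s, π, rfl, hc.1, hc.2, hg⟩
    · rw [if_neg hc, zero_add] at h
      obtain ⟨l₁, s', l₂, h1, h2, h3, h4⟩ := ih _ h
      exact ⟨s :: l₁, s', l₂, by rw [h1]; rfl, h2, h3, h4⟩

lemma cnt_ne (w : List (Fin (m + 3))) : ∀ π : List ℕ, cnt w π ≠ 0 →
    ∀ j, w.count j = (π.map (fun s => csz m s j)).sum := by
  induction w with
  | nil =>
    intro π h j
    simp only [cnt] at h
    have h0 : π.sum = 0 := by
      by_contra hne
      rw [if_neg hne] at h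
      exact h rfl
    rw [List.sum_eq_zero_iff] at h0
    rw [List.count_nil]
    symm
    rw [List.sum_eq_zero_iff]
    intro x hx
    rw [List.mem_map] at hx
    obtain ⟨s, hs, rfl⟩ := hx
    rw [h0 s hs]
    simp [csz]
  | cons j0 w ih =>
    intro π h j
    simp only [cnt] at h
    obtain ⟨l₁, s, l₂, h1, h2, h3, h4⟩ := dsum_ne _ _ _ h
    have h5 := ih _ h4 j
    have h6 := csz_pred (m := m) j0 s h2 h3
    have h7 := congrFun h6.2.1 j
    rw [h1]
    simp only [List.map_append, List.map_cons, List.sum_append, List.sum_cons] at h5 ⊢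
    rw [List.count_cons, h5, ← h7]
    by_cases hj : j = j0
    · subst hj
      have h8 := h6.1
      simp only [Function.update_self, beq_self_eq_true, if_true]
      omega
    · rw [Function.update_of_ne hj]
      have : (j0 == j) = false := by simpa using Ne.symm hj
      rw [this]
      simp

lemma closed_of_sums {r : NSt m Q} (hL : Leg r) {n : ℕ} (hs : ∀ j, ∑ a, r j a = n) :
    ∀ i, r i = r 0 := by
  intro i
  induction i using Fin.induction with
  | zero => rfl
  | succ i ih =>
    rw [← ih]
    have hle : ∀ a ∈ (univ : Finset (Fin (Q + 1))), r i.succ a ≤ r i.castSucc a := by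
      intro a _
      have h1 := hL i.succ a
      unfold prd at h1
      rw [if_neg (Fin.succ_ne_zero i)] at h1
      have e : i.succ - 1 = i.castSucc := by
        rw [← Fin.coeSucc_eq_succ, add_sub_cancel_right]
      rwa [e] at h1
    have h2 := (Finset.sum_eq_sum_iff_of_le hle).mp (by rw [hs, hs])
    funext a
    exact h2 a (mem_univ a)

/-- the partition given by a state column vector -/
noncomputable def parOf (n : ℕ) (z : Fin (Q + 1) → ℕ) : n.Partition :=
  if h : (univ.val.map z).sum = n then Nat.Partition.ofSums n (univ.val.map z) h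
  else Nat.Partition.indiscrete n

lemma esymmPart_parOf (N n : ℕ) (z : Fin (Q + 1) → ℕ) (h : ∑ a, z a = n) :
    MvPolynomial.esymmPart (Fin N) ℝ (parOf n z) = ∏ a, MvPolynomial.esymm (Fin N) ℝ (z a) := by
  unfold parOf MvPolynomial.esymmPart
  have h' : (univ.val.map z).sum = n := h
  rw [dif_pos h']
  simp only [Nat.Partition.ofSums_parts]
  have key : ∀ l : Multiset ℕ, (Multiset.map (MvPolynomial.esymm (Fin N) ℝ)
      (Multiset.filter (fun x => x ≠ 0) l)).prod =
      (Multiset.map (MvPolynomial.esymm (Fin N) ℝ) l).prod := by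
    intro l
    induction l using Multiset.induction_on with
    | empty => simp
    | cons a l ih =>
      by_cases ha : a = 0
      · subst ha
        rw [Multiset.filter_cons_of_neg _ (by simp), ih]
        simp
      · rw [Multiset.filter_cons_of_pos (p := fun x => x ≠ 0) _ ha, Multiset.map_cons, Multiset.prod_cons, ih,
          Multiset.map_cons, Multiset.prod_cons]
  rw [key, Multiset.map_map]
  rfl

theorem word_pos (n : ℕ) (w : List (Fin (m + 3))) (hw : w.length = (m + 3) * n) :
    ∃ d : n.Partition → ℝ, (∀ l, 0 ≤ d l) ∧ ∀ (N : ℕ) (ν : Fin N →₀ ℕ), ∑ i, ν i = n →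
      cnt w (List.ofFn (fun i => (m + 3) * ν i)) =
        ∑ l, d l * MvPolynomial.coeff ν (MvPolynomial.esymmPart (Fin N) ℝ l) := by
  by_cases hbal : ∀ j, w.count j = n
  · obtain ⟨ι, hι, r, c, hc0, hcL, hc⟩ := words (Q := (m + 3) * n) w (by omega)
    refine ⟨fun l => ∑ t, if parOf n (r t 0) = l then
      c t * ∏ a, ((r t 0 a).factorial : ℝ) else 0, ?_, ?_⟩
    · intro l
      apply Finset.sum_nonneg
      intro t _
      split_ifs
      · exact mul_nonneg (hc0 t) (Finset.prod_nonneg (fun a _ => by positivity))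
      · exact le_rfl
    · intro N ν hν
      have hsum : (List.ofFn (fun i => (m + 3) * ν i)).sum = (m + 3) * n := by
        rw [List.sum_ofFn, ← Finset.mul_sum, hν]
      have h1 := hc (List.ofFn (fun i => (m + 3) * ν i)) (by
        intro s hs
        rw [List.mem_ofFn] at hs
        obtain ⟨i, rfl⟩ := hs
        apply Nat.mul_le_mul_left
        rw [← hν]
        exact Finset.single_le_sum (f := fun i => ν i) (fun _ _ => Nat.zero_le _) (mem_univ i))
        (by rw [hsum, hw])
      rw [if_pos (by rw [hsum, hw])] at h1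
      rw [← h1]
      have h2 : ∀ t, c t * pf (List.ofFn (fun i => (m + 3) * ν i)) (castS (r t)) =
          c t * (∏ a, ((r t 0 a).factorial : ℝ)) *
            MvPolynomial.coeff ν (MvPolynomial.esymmPart (Fin N) ℝ (parOf n (r t 0))) := by
        intro t
        by_cases ht : c t = 0
        · rw [ht]; simp
        · obtain ⟨hL, hs⟩ := hcL t ht
          have hs' : ∀ j, ∑ a, r t j a = n := fun j => by rw [hs j, hbal j]
          have hcl := closed_of_sums hL hs'
          set z : Fin ((m + 3) * n + 1) →₀ ℕ := Finsupp.equivFunOnFinite.symm (r t 0) with hz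
          have hza : ∀ a, z a = r t 0 a := fun a => rfl
          have e1 : castS (r t) = cl m (fun a => (z a : ℝ)) := by
            funext i a
            unfold castS cl
            rw [hcl i]
            rfl
          have e2 : List.ofFn (fun i => (m + 3) * ν i) =
              (List.ofFn (fun i => ν i)).map (fun c => (m + 3) * c) := by
            rw [List.map_ofFn]
            rfl
          rw [e1, e2, pf_closed (List.ofFn (fun i => ν i)) z (by
            rw [List.sum_ofFn, hν]
            exact (hs' 0).symm)]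
          rw [List.map_ofFn, List.prod_ofFn]
          simp only [Function.comp]
          rw [coeff_transpose, esymmPart_parOf N n (r t 0) (hs' 0)]
          simp only [hza]
          ring
      rw [Finset.sum_congr rfl (fun t _ => h2 t)]
      simp only [Finset.sum_mul]
      rw [Finset.sum_comm]
      refine Finset.sum_congr rfl (fun t _ => ?_)
      simp
  · refine ⟨fun _ => 0, fun _ => le_rfl, ?_⟩
    intro N ν hν
    simp only [zero_mul, sum_const_zero]
    by_contra hne
    apply hbal
    intro j
    rw [cnt_ne w _ hne j, List.map_ofFn, List.sum_ofFn, ← hν]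
    refine Finset.sum_congr rfl (fun i _ => ?_)
    simp only [Function.comp]
    rw [csz_dvd (dvd_mul_right _ _), Nat.mul_div_cancel_left _ (by omega)]

end H553RK
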