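import Pool.Agent.Helper553_RK.Step

open Finset

namespace H553RK

variable {m Q : ℕ}

/-- weighted number of ways to build the list `π` by the letters of `w` (head is applied last) -/
noncomputable def cnt : List (Fin (m + 3)) → List ℕ → ℝ
  | [], π => if π.sum = 0 then 1 else 0
  | j :: w, π => dsum m j.val (cnt w) π

lemma dsum_congr (j : ℕ) (π : List ℕ) : ∀ (g g' : List ℕ → ℝ), (∀ s ∈ π, s ≤ Q) →
    (∀ π', π'.sum + 1 = π.sum → (∀ s ∈ π', s ≤ Q) → g π' = g' π') →
    dsum m j g π = dsum m j g' π := by
  induction π with
  | nil => intro g g' _ _; rfl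
  | cons s π ih =>
    intro g g' hπ h
    simp only [dsum]
    congr 1
    · split_ifs with hs
      · apply h
        · simp only [List.sum_cons]
          omega
        · intro x hx
          rw [List.mem_cons] at hx
          rcases hx with rfl | hx
          · have := hπ s (by simp)
            omega
          · exact hπ x (by simp [hx])
      · rfl
    · apply ih
      · intro x hx
        exact hπ x (by simp [hx])
      · intro π' hs hb
        apply h
        · simp only [List.sum_cons]
          omega
        · intro x hx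
          rw [List.mem_cons] at hx
          rcases hx with rfl | hx
          · exact hπ x (by simp)
          · exact hb x hx

lemma dsum_zero (j : ℕ) (π : List ℕ) : dsum m j (fun _ => 0) π = 0 := by
  induction π with
  | nil => rfl
  | cons s π ih =>
    simp only [dsum]
    rw [ih]
    simp

lemma Leg_last {r : NSt m Q} (hL : Leg r) (h : ∑ a, r 0 a ≤ Q) :
    r (Fin.last (m + 2)) (Fin.last Q) = 0 := by
  by_contra hne
  have h1 : ∀ a : Fin (Q + 1), 1 ≤ r 0 a := by
    intro a
    have h2 : r (Fin.last (m + 2)) (Fin.last Q) ≤ r 0 a := by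
      have ha : a.val ≤ Q := by omega
      have h3 : a.val * (m + 3) ≤ Q * (m + 3) := Nat.mul_le_mul_right _ ha
      apply Leg_mono hL (Q * (m + 3) + (m + 2) - a.val * (m + 3))
      simp only [Fin.val_last, Fin.val_zero]
      omega
    omega
  have h2 : ∑ _a : Fin (Q + 1), 1 ≤ ∑ a, r 0 a := Finset.sum_le_sum (fun a _ => h1 a)
  simp at h2
  omega

lemma sum_bump (r : NSt m Q) (j : Fin (m + 3)) (k : Fin (Q + 1)) (i : Fin (m + 3)) :
    ∑ a, bump r j k i a = (∑ a, r i a) + if i = j then 1 else 0 := by
  split_ifs with h
  · subst h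
    have : ∀ a, bump r i k i a = r i a + if a = k then 1 else 0 := by
      intro a
      split_ifs with ha
      · rw [ha, bump_same]
      · rw [bump_ne r (by simp [ha])]
        simp
    rw [Finset.sum_congr rfl (fun a _ => this a), Finset.sum_add_distrib]
    simp
  · rw [add_zero]
    refine Finset.sum_congr rfl (fun a _ => ?_)
    rw [bump_ne r (by simp [h])]

lemma castS_zero : castS (fun _ _ => 0 : NSt m Q) = cl m (fun _ => (0 : ℝ)) := by
  funext i a
  simp [castS, cl]

theorem words (w : List (Fin (m + 3))) : w.length ≤ Q →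
    ∃ (ι : Type) (_ : Fintype ι) (r : ι → NSt m Q) (c : ι → ℝ), (∀ t, 0 ≤ c t) ∧
      (∀ t, c t ≠ 0 → Leg (r t) ∧ ∀ j, ∑ a, r t j a = w.count j) ∧
      ∀ π : List ℕ, (∀ s ∈ π, s ≤ Q) → w.length ≤ π.sum →
        ∑ t, c t * pf π (castS (r t)) = if w.length = π.sum then cnt w π else 0 := by
  induction w with
  | nil =>
    intro _
    refine ⟨Unit, inferInstance, fun _ => fun _ _ => 0, fun _ => 1, fun _ => zero_le_one, ?_, ?_⟩
    · intro _ _
      refine ⟨fun j k => Nat.zero_le _, ?_⟩
      intro j
      simp
    · intro π _ _
      simp only [univ_unique, sum_singleton, one_mul, List.length_nil, cnt]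
      rw [castS_zero, pf_zero]
      by_cases h : π.sum = 0
      · rw [if_pos h, if_pos h.symm]
      · rw [if_neg h, if_neg (fun h' => h h'.symm)]
  | cons j w ih =>
    intro hw
    simp only [List.length_cons] at hw
    obtain ⟨ι, hι, r, c, hc0, hcL, hc⟩ := ih (by omega)
    have hex : ∀ t : ι, ∃ d : Fin (Q + 1) → ℝ, (∀ k, 0 ≤ d k) ∧
        (c t ≠ 0 → ((∀ k, d k ≠ 0 → r t j k < prd (r t) j k) ∧
        ∀ π : List ℕ, (∀ s ∈ π, s ≤ Q) →
        ∑ k, d k * pf π (castS (bump (r t) j k)) =
          dsum m j.val (fun π' => pf π' (castS (r t))) π +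
          kap j π (w.count (j - 1)) (w.count j) * pf π (castS (r t)))) := by
      intro t
      by_cases ht : c t = 0
      · exact ⟨fun _ => 0, fun _ => le_rfl, fun h => absurd ht h⟩
      · obtain ⟨hL, hs⟩ := hcL t ht
        obtain ⟨d, hd0, hd1, hd2⟩ := step hL j (by
          intro hj
          apply Leg_last hL
          rw [hs 0]
          have := List.count_le_length (a := (0 : Fin (m + 3))) (l := w)
          omega)
        refine ⟨d, hd0, fun _ => ⟨hd1, ?_⟩⟩
        intro π hπ
        rw [hd2 π hπ]
        have e1 : ∑ a, (r t (j - 1) a : ℝ) = w.count (j - 1) := by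
          rw [← hs (j - 1)]; push_cast; rfl
        have e2 : ∑ a, (r t j a : ℝ) = w.count j := by
          rw [← hs j]; push_cast; rfl
        rw [e1, e2]
    choose d hd0 hd using hex
    refine ⟨ι × Fin (Q + 1), inferInstance, fun x => bump (r x.1) j x.2,
      fun x => c x.1 * d x.1 x.2, fun x => mul_nonneg (hc0 _) (hd0 _ _), ?_, ?_⟩
    · rintro ⟨t, k⟩ hne
      simp only at hne ⊢
      have h1 : c t ≠ 0 := left_ne_zero_of_mul hne
      have h2 : d t k ≠ 0 := right_ne_zero_of_mul hne
      refine ⟨Leg_bump (hcL t h1).1 ((hd t h1).1 k h2), ?_⟩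
      intro i
      rw [sum_bump, (hcL t h1).2 i, List.count_cons]
      congr 1
      by_cases hij : i = j
      · simp [hij]
      · simp [hij, Ne.symm hij]
    · intro π hπ hlen
      simp only [List.length_cons] at hlen ⊢
      rw [Fintype.sum_prod_type]
      have e1 : ∀ t, ∑ k, c t * d t k * pf π (castS (bump (r t) j k)) =
          c t * dsum m j.val (fun π' => pf π' (castS (r t))) π +
          kap j π (w.count (j - 1)) (w.count j) * (c t * pf π (castS (r t))) := by
        intro t
        by_cases ht : c t = 0
        · simp [ht]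
        · have h3 := (hd t ht).2 π hπ
          have : ∑ k, c t * d t k * pf π (castS (bump (r t) j k)) =
              c t * ∑ k, d t k * pf π (castS (bump (r t) j k)) := by
            rw [Finset.mul_sum]
            refine Finset.sum_congr rfl (fun k _ => ?_)
            ring
          rw [this, h3]
          ring
      simp only at e1 ⊢
      rw [Finset.sum_congr rfl (fun t _ => e1 t), Finset.sum_add_distrib, ← Finset.mul_sum,
        hc π hπ (by omega), if_neg (by omega), mul_zero, add_zero]
      rw [← dsum_sum j.val univ c π (fun t π' => pf π' (castS (r t)))]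
      by_cases hsum : w.length + 1 = π.sum
      · rw [if_pos hsum]
        simp only [cnt]
        apply dsum_congr (Q := Q) j.val π _ _ hπ
        intro π' h1 h2
        rw [hc π' h2 (by omega), if_pos (by omega)]
      · rw [if_neg hsum]
        rw [← dsum_zero (m := m) j.val π]
        apply dsum_congr (Q := Q) j.val π _ _ hπ
        intro π' h1 h2
        rw [hc π' h2 (by omega), if_neg (by omega)]

end H553RK
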